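import Mathlib

set_option autoImplicit false

namespace Pool.Agent.Lib.MP_846550_an

open Module

theorem aeval_dual {𝕜 V : Type*} [Field 𝕜] [AddCommGroup V] [Module 𝕜 V] (A : V →ₗ[𝕜] V)
    (p : Polynomial 𝕜) (φ : Dual 𝕜 V) (x : V) :
    (Polynomial.aeval (A.dualMap : Module.End 𝕜 (Dual 𝕜 V)) p) φ x =
      φ ((Polynomial.aeval (A : Module.End 𝕜 V) p) x) := by
  have hpow : ∀ (n : ℕ) (φ : Dual 𝕜 V) (x : V),
      (((A.dualMap : Module.End 𝕜 (Dual 𝕜 V)) ^ n) φ) x = φ (((A : Module.End 𝕜 V) ^ n) x) := by
    intro n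
    induction n with
    | zero => intro φ x; simp
    | succ n ih =>
      intro φ x
      rw [pow_succ, pow_succ', Module.End.mul_apply, Module.End.mul_apply, ih]
      rfl
  induction p using Polynomial.induction_on' with
  | add p q hp hq => simp [hp, hq]
  | monomial n a =>
    rw [Polynomial.aeval_monomial, Polynomial.aeval_monomial]
    simp only [Module.End.mul_apply, Module.algebraMap_end_apply, LinearMap.smul_apply, map_smul]
    rw [hpow]

theorem aeval_restrict {𝕜 V : Type*} [Field 𝕜] [AddCommGroup V] [Module 𝕜 V] (A : V →ₗ[𝕜] V)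
    (H : Submodule 𝕜 V) (hAH : ∀ x ∈ H, A x ∈ H) (p : Polynomial 𝕜) (x : H) :
    (((Polynomial.aeval ((A.restrict hAH : H →ₗ[𝕜] H) : Module.End 𝕜 H) p) x : H) : V) =
      (Polynomial.aeval (A : Module.End 𝕜 V) p) (x : V) := by
  have hpow : ∀ (n : ℕ) (x : H),
      (((((A.restrict hAH : H →ₗ[𝕜] H) : Module.End 𝕜 H) ^ n) x : H) : V) =
        ((A : Module.End 𝕜 V) ^ n) (x : V) := by
    intro n
    induction n with
    | zero => intro x; simp
    | succ n ih =>
      intro x
      rw [pow_succ, pow_succ, Module.End.mul_apply, Module.End.mul_apply, ih]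
      rfl
  induction p using Polynomial.induction_on' with
  | add p q hp hq => simp [hp, hq]
  | monomial n a =>
    rw [Polynomial.aeval_monomial, Polynomial.aeval_monomial]
    simp only [Module.End.mul_apply, Module.algebraMap_end_apply, Submodule.coe_smul]
    rw [hpow]

theorem exists_eigenvalue_of_aeval {𝕜 V : Type*} [Field 𝕜] [AddCommGroup V] [Module 𝕜 V]
    [FiniteDimensional 𝕜 V] [Nontrivial V] (p : Polynomial 𝕜) (hp0 : p ≠ 0) (hps : p.Splits)
    (B : Module.End 𝕜 V) (hB : Polynomial.aeval B p = 0) : ∃ lam, B.HasEigenvalue lam := by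
  have h1 : minpoly 𝕜 B ∣ p := minpoly.dvd 𝕜 B hB
  have h2 : (minpoly 𝕜 B).Splits := hps.of_dvd hp0 h1
  have h3 : IsIntegral 𝕜 B := Algebra.IsIntegral.isIntegral B
  have h4 : (minpoly 𝕜 B).degree ≠ 0 := (minpoly.degree_pos h3).ne'
  obtain ⟨a, ha⟩ := h2.exists_eval_eq_zero h4
  exact ⟨a, Module.End.hasEigenvalue_of_isRoot ha⟩

/-- Density of diagonalisable operators on a finite dimensional normed space (for operators with split spectrum), with an
explicit eigenbasis. -/
theorem exists_diag.{v, u} {𝕜 : Type v} [RCLike 𝕜] (p : Polynomial 𝕜) (hp0 : p ≠ 0) (hps : p.Splits)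
    (n : ℕ) : ∀ (V : Type u) [NormedAddCommGroup V] [NormedSpace 𝕜 V]
    [FiniteDimensional 𝕜 V], finrank 𝕜 V = n → ∀ (A : V →ₗ[𝕜] V),
    Polynomial.aeval (A : Module.End 𝕜 V) p = 0 → ∀ (ε : ℝ), 0 < ε →
    ∃ (ι : Type) (_ : Fintype ι) (b : Basis ι 𝕜 V) (μ : ι → 𝕜),
      ∀ x, ‖(∑ i, (b.coord i x * μ i) • b i) - A x‖ ≤ ε * ‖x‖ := by
  induction n with
  | zero =>
    intro V _ _ _ hV A hpA ε hε
    have : Subsingleton V := finrank_zero_iff.mp hV
    refine ⟨Empty, inferInstance, Basis.empty V, fun i => i.elim, ?_⟩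
    intro x
    have h1 : x = 0 := Subsingleton.elim _ _
    subst h1
    simp
  | succ n ih =>
    intro V _ _ _ hV A hpA ε hε
    have hnt : Nontrivial V := by
      apply nontrivial_of_finrank_pos (R := 𝕜)
      omega
    have hntd : Nontrivial (Dual 𝕜 V) := inferInstance
    obtain ⟨lam, hlam⟩ := exists_eigenvalue_of_aeval p hp0 hps (A.dualMap : Module.End 𝕜 (Dual 𝕜 V))
      (by
        apply LinearMap.ext
        intro φ
        apply LinearMap.ext
        intro x
        rw [aeval_dual, hpA]
        simp)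
    obtain ⟨φ, hφ⟩ := hlam.exists_hasEigenvector
    have hφ0 : φ ≠ 0 := hφ.2
    have hφA : ∀ x, φ (A x) = lam * φ x := by
      intro x
      have h1 := hφ.apply_eq_smul
      have h2 := congrArg (fun g : Dual 𝕜 V => g x) h1
      simpa using h2
    obtain ⟨v0, hv0⟩ : ∃ v0, φ v0 ≠ 0 := by
      by_contra hcon
      push Not at hcon
      exact hφ0 (LinearMap.ext hcon)
    obtain ⟨v, hv⟩ : ∃ v, φ v = 1 := ⟨(φ v0)⁻¹ • v0, by simp [hv0]⟩
    -- the hyperplane
    let H : Submodule 𝕜 V := LinearMap.ker φ
    have hHfr : finrank 𝕜 H = n := by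
      have h1 := LinearMap.finrank_range_add_finrank_ker φ
      have h2 : LinearMap.range φ = ⊤ := LinearMap.range_eq_top.mpr (fun c => ⟨c • v, by simp [hv]⟩)
      rw [h2, finrank_top, finrank_self, hV] at h1
      change finrank 𝕜 (LinearMap.ker φ) = n
      omega
    have hAH : ∀ x ∈ H, A x ∈ H := by
      intro x hx
      have h1 : φ x = 0 := hx
      change φ (A x) = 0
      rw [hφA, h1, mul_zero]
    let AH : H →ₗ[𝕜] H := A.restrict hAH
    have hpAH : Polynomial.aeval (AH : Module.End 𝕜 H) p = 0 := by
      apply LinearMap.ext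
      intro x
      apply Subtype.ext
      rw [aeval_restrict, hpA]
      simp
    let φc : V →L[𝕜] 𝕜 := LinearMap.toContinuousLinearMap φ
    have hφc : ∀ x, φc x = φ x := fun x => rfl
    set K : ℝ := ‖φc‖ * ‖v‖ with hK
    have hK0 : 0 ≤ K := by positivity
    set ε' : ℝ := ε / (2 * (1 + K)) with hε'
    have hε'0 : 0 < ε' := by positivity
    obtain ⟨ι, hι, b, μ, hb⟩ := ih H hHfr AH hpAH ε' hε'0
    -- choose the new eigenvalue
    obtain ⟨lam', hl1, hl2⟩ : ∃ lam' : 𝕜, (∀ i, μ i ≠ lam') ∧ ‖lam' - lam‖ ≤ ε' := by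
      have hfin : (Set.range μ).Finite := Set.finite_range μ
      have hinf : (Metric.ball lam ε').Infinite := by
        apply Set.Infinite.mono (s := (fun t : ℝ => lam + (t : 𝕜)) '' Set.Ioo 0 ε')
        · rintro _ ⟨t, ht, rfl⟩
          rw [Metric.mem_ball, dist_eq_norm]
          simp only [add_sub_cancel_left, RCLike.norm_ofReal]
          rw [abs_of_pos ht.1]
          exact ht.2
        · apply (Set.Ioo_infinite hε'0).image
          intro s _ t _ hst
          simpa using hst
      obtain ⟨z, hz1, hz2⟩ := hinf.exists_notMem_finite hfin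
      refine ⟨z, fun i hi => hz2 ⟨i, hi⟩, ?_⟩
      rw [Metric.mem_ball, dist_eq_norm] at hz1
      exact hz1.le
    -- the new eigenvector
    have hh : A v - lam • v ∈ H := by
      change φ (A v - lam • v) = 0
      rw [map_sub, map_smul, hφA, hv]
      simp
    let h : H := ⟨A v - lam • v, hh⟩
    let w : H := ∑ i, (-(b.coord i h) / (μ i - lam')) • b i
    have hcw : ∀ i, b.coord i w = -(b.coord i h) / (μ i - lam') := by
      intro i
      simp only [w, map_sum, map_smul, Basis.coord_apply, Basis.repr_self, smul_eq_mul]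
      rw [Finset.sum_eq_single i]
      · simp
      · intro j _ hji
        rw [Finsupp.single_eq_of_ne hji.symm]
        simp
      · intro hi
        exact absurd (Finset.mem_univ i) hi
    let BH : H → H := fun y => ∑ i, (b.coord i y * μ i) • b i
    have hBw : BH w = lam' • w - h := by
      have h1 : h = ∑ i, (b.coord i h) • b i := (b.sum_repr h).symm
      have h2 : lam' • w = ∑ i, (lam' * (-(b.coord i h) / (μ i - lam'))) • b i := by
        simp only [w, Finset.smul_sum, smul_smul]
      have h3 : BH w = ∑ i, ((-(b.coord i h) / (μ i - lam')) * μ i) • b i := by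
        simp only [BH]
        apply Finset.sum_congr rfl
        intro i _
        rw [hcw]
      have key : ∑ i, ((-(b.coord i h) / (μ i - lam')) * μ i) • b i =
          ∑ i, (lam' * (-(b.coord i h) / (μ i - lam'))) • b i - ∑ i, (b.coord i h) • b i := by
        rw [← Finset.sum_sub_distrib]
        apply Finset.sum_congr rfl
        intro i _
        rw [← sub_smul]
        congr 1
        have h4 : μ i - lam' ≠ 0 := sub_ne_zero.mpr (hl1 i)
        field_simp
        ring
      rw [h3, h2, key, ← h1]
    let u : V := v + (w : V)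
    have hφu : φ u = 1 := by
      have : φ (w : V) = 0 := w.2
      simp [u, hv, this]
    -- the equivalence `H × 𝕜 ≃ V`
    let e : (H × 𝕜) ≃ₗ[𝕜] V :=
      { toFun := fun p => (p.1 : V) + p.2 • u
        map_add' := by
          intro p q
          simp only [Prod.fst_add, Prod.snd_add, Submodule.coe_add, add_smul]
          abel
        map_smul' := by
          intro c p
          simp only [Prod.smul_fst, Prod.smul_snd, Submodule.coe_smul, smul_eq_mul, mul_smul,
            RingHom.id_apply, smul_add]
        invFun := fun x => (⟨x - φ x • u, by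
          change φ (x - φ x • u) = 0
          rw [map_sub, map_smul, hφu]; simp⟩, φ x)
        left_inv := by
          rintro ⟨y, a⟩
          have hy : φ (y : V) = 0 := y.2
          have h1 : φ ((y : V) + a • u) = a := by
            rw [map_add, map_smul, hy, hφu]; simp
          apply Prod.ext
          · apply Subtype.ext
            simp only [h1]
            abel
          · exact h1
        right_inv := by
          intro x
          simp }
    let b' : Basis (ι ⊕ Unit) 𝕜 V := (b.prod (Basis.singleton Unit 𝕜)).map e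
    have hb'l : ∀ i, b' (Sum.inl i) = (b i : V) := by
      intro i
      simp [b', e]
    have hb'r : b' (Sum.inr ()) = u := by
      simp [b', e]
    have hcl : ∀ i x, b'.coord (Sum.inl i) x = b.coord i ⟨x - φ x • u, by
          change φ (x - φ x • u) = 0
          rw [map_sub, map_smul, hφu]; simp⟩ := by
      intro i x
      simp [b', Basis.map_repr, e]
    have hcr : ∀ x, b'.coord (Sum.inr ()) x = φ x := by
      intro x
      simp [b', Basis.map_repr, e]
    refine ⟨ι ⊕ Unit, inferInstance, b', Sum.elim μ (fun _ => lam'), ?_⟩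
    intro x
    set y : H := ⟨x - φ x • u, by
          change φ (x - φ x • u) = 0
          rw [map_sub, map_smul, hφu]; simp⟩ with hy
    have hsum : (∑ i, (b'.coord i x * (Sum.elim μ (fun _ => lam') i)) • b' i) =
        (BH y : V) + (φ x * lam') • u := by
      rw [Fintype.sum_sum_type]
      simp only [Sum.elim_inl, Sum.elim_inr, Finset.univ_unique, Finset.sum_singleton, hb'l, hcl,
        BH, Submodule.coe_sum, Submodule.coe_smul]
      have h1 : b'.coord (Sum.inr default) x = φ x := hcr x
      have h2 : b' (Sum.inr default) = u := hb'r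
      rw [h1, h2]
    rw [hsum]
    -- linearity of BH
    have hBadd : ∀ (p q : H) (c : 𝕜), BH (p + c • q) = BH p + c • BH q := by
      intro p q c
      simp only [BH, map_add, map_smul, smul_eq_mul, Finset.smul_sum, smul_smul]
      rw [← Finset.sum_add_distrib]
      apply Finset.sum_congr rfl
      intro i _
      rw [← add_smul]
      congr 1
      ring
    set z : H := y + φ x • w with hz
    have hzv : (z : V) = x - φ x • v := by
      simp only [hz, hy, u, Submodule.coe_add, Submodule.coe_smul, smul_add]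
      abel
    have hBz : BH z = BH y + φ x • (lam' • w - h) := by
      rw [hz, hBadd, hBw]
    have hAx : A x = (AH z : V) + φ x • (A v) := by
      have h1 : (AH z : V) = A (z : V) := rfl
      rw [h1, hzv, map_sub, map_smul]
      abel
    have hAv : A v = lam • v + (h : V) := by
      simp [h]
    have hdiff : (BH y : V) + (φ x * lam') • u - A x =
        (((BH z) - AH z : H) : V) + (φ x * (lam' - lam)) • v := by
      have h1 : ((BH z : H) : V) = (BH y : V) + φ x • (lam' • (w : V) - (h : V)) := by
        rw [hBz]; rfl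
      rw [hAx, hAv, Submodule.coe_sub, h1]
      simp only [u, smul_add, smul_sub, mul_sub, sub_smul, mul_smul]
      abel
    rw [hdiff]
    have h1 : ‖(((BH z) - AH z : H) : V)‖ ≤ ε' * ‖(z : V)‖ := by
      have := hb z
      exact this
    have h2 : ‖(z : V)‖ ≤ (1 + K) * ‖x‖ := by
      rw [hzv]
      calc ‖x - φ x • v‖ ≤ ‖x‖ + ‖φ x • v‖ := norm_sub_le _ _
        _ ≤ ‖x‖ + ‖φc‖ * ‖x‖ * ‖v‖ := by
            rw [norm_smul, ← hφc]
            gcongr
            exact φc.le_opNorm x
        _ = (1 + K) * ‖x‖ := by rw [hK]; ring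
    have h3 : ‖(φ x * (lam' - lam)) • v‖ ≤ K * ε' * ‖x‖ := by
      rw [norm_smul, norm_mul, ← hφc]
      calc ‖φc x‖ * ‖lam' - lam‖ * ‖v‖ ≤ (‖φc‖ * ‖x‖) * ε' * ‖v‖ := by
            gcongr
            exact φc.le_opNorm x
        _ = K * ε' * ‖x‖ := by rw [hK]; ring
    calc ‖(((BH z) - AH z : H) : V) + (φ x * (lam' - lam)) • v‖
        ≤ ‖(((BH z) - AH z : H) : V)‖ + ‖(φ x * (lam' - lam)) • v‖ := norm_add_le _ _
      _ ≤ ε' * ((1 + K) * ‖x‖) + K * ε' * ‖x‖ := by
          refine add_le_add (h1.trans ?_) h3
          gcongr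
      _ ≤ ε * ‖x‖ := by
          have h4 : ε' * (2 * (1 + K)) = ε := by rw [hε']; field_simp
          have h5 : ε' * ((1 + K) * ‖x‖) + K * ε' * ‖x‖ ≤ (ε' * (2 * (1 + K))) * ‖x‖ := by
            have h6 : 0 ≤ ε' * ‖x‖ := by positivity
            nlinarith
          rwa [h4] at h5

end Pool.Agent.Lib.MP_846550_an
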