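import Pool.Agent.Lib.MP_846550_an.Fitting
import Pool.Agent.Lib.MP_846550_an.Diag

set_option autoImplicit false

namespace Pool.Agent.Lib.MP_846550_an

open Module Filter Topology

variable {𝕜 : Type*} [RCLike 𝕜] {E : Type*} [NormedAddCommGroup E] [NormedSpace 𝕜 E]

/-- One step of the construction. -/
theorem step (T : ℕ → E →L[𝕜] E)
    (hfin : ∀ k, FiniteDimensional 𝕜 (LinearMap.range (T k : E →ₗ[𝕜] E)))
    (hcomm : ∀ j k x, T j (T k x) = T k (T j x))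
    (hlim : ∀ y, Tendsto (fun k => T k y) atTop (𝓝 y)) (j : ℕ) (P : E →L[𝕜] E)
    (hPfin : FiniteDimensional 𝕜 (LinearMap.range (P : E →ₗ[𝕜] E)))
    (hPT : ∀ k x, T k (P x) = P (T k x)) :
    ∃ (k : ℕ) (P' : E →L[𝕜] E), j ≤ k ∧ (∀ x, ‖T k (P x) - P x‖ ≤ (1 / 2) ^ j * ‖x‖) ∧
      (∀ x, T k (P' x) = T k x) ∧ (∀ x, P (P' x) = P x) ∧ (∀ x, P' (P x) = P x) ∧
      FiniteDimensional 𝕜 (LinearMap.range (P' : E →ₗ[𝕜] E)) ∧ (∀ x, P' (P' x) = P' x) ∧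
      (∀ k x, T k (P' x) = P' (T k x)) := by
  have hA : ∀ y, Tendsto (fun k => (T k - ContinuousLinearMap.id 𝕜 E) y) atTop (𝓝 0) := by
    intro y
    have := (hlim y).sub_const y
    simpa using this
  -- choose `k`
  have hε : (0:ℝ) < (1 / 2) ^ j / (‖P‖ + 1) := by positivity
  have h1 := unif_findim (LinearMap.range (P : E →ₗ[𝕜] E)) (fun k => T k - ContinuousLinearMap.id 𝕜 E)
    (fun y _ => hA y) hε
  obtain ⟨k, hk1, hk2⟩ := (h1.and (eventually_ge_atTop j)).exists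
  -- choose `m`
  let F : Submodule 𝕜 E := LinearMap.range (P : E →ₗ[𝕜] E) ⊔ LinearMap.range (T k : E →ₗ[𝕜] E)
  have hFfd : FiniteDimensional 𝕜 F := by
    have := hfin k
    exact Submodule.finiteDimensional_sup _ _
  have h2 := unif_findim F (fun k => T k - ContinuousLinearMap.id 𝕜 E)
    (fun y _ => hA y) (show (0:ℝ) < 1 / 2 by norm_num)
  obtain ⟨m, hm⟩ := h2.exists
  have hinj : ∀ y ∈ F, T m y = 0 → y = 0 := by
    intro y hy h0
    have h3 := hm y hy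
    simp only [sub_apply, h0, ContinuousLinearMap.id_apply, zero_sub,
      norm_neg] at h3
    have h4 : ‖y‖ ≤ 0 := by linarith
    exact norm_le_zero_iff.mp h4
  obtain ⟨P', hP'fin, hP'id, hP'comm, hP'abs⟩ := fitting (T m) (hfin m)
  refine ⟨k, P', hk2, ?_, ?_, ?_, ?_, hP'fin, hP'id, ?_⟩
  · intro x
    have h3 := hk1 (P x) ⟨x, rfl⟩
    simp only [sub_apply, ContinuousLinearMap.id_apply] at h3
    refine h3.trans ?_
    have h4 : ‖P x‖ ≤ (‖P‖ + 1) * ‖x‖ := by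
      refine (P.le_opNorm x).trans ?_
      gcongr
      linarith
    calc (1 / 2 : ℝ) ^ j / (‖P‖ + 1) * ‖P x‖ ≤ (1 / 2) ^ j / (‖P‖ + 1) * ((‖P‖ + 1) * ‖x‖) := by
          gcongr
      _ = (1 / 2) ^ j * ‖x‖ := by
          have : ‖P‖ + 1 ≠ 0 := by positivity
          field_simp
  · intro x
    apply hP'abs (T k) (fun x => hcomm k m x)
    intro x h0
    exact hinj _ (Submodule.mem_sup_right ⟨x, rfl⟩) h0
  · intro x
    apply hP'abs P (fun x => (hPT m x).symm)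
    intro x h0
    exact hinj _ (Submodule.mem_sup_left ⟨x, rfl⟩) h0
  · intro x
    rw [← hP'comm P (fun x => (hPT m x).symm)]
    apply hP'abs P (fun x => (hPT m x).symm)
    intro x h0
    exact hinj _ (Submodule.mem_sup_left ⟨x, rfl⟩) h0
  · intro i x
    exact hP'comm (T i) (fun x => hcomm i m x) x

/-- The chain of projections. -/
theorem chain (T : ℕ → E →L[𝕜] E)
    (hfin : ∀ k, FiniteDimensional 𝕜 (LinearMap.range (T k : E →ₗ[𝕜] E)))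
    (hcomm : ∀ j k x, T j (T k x) = T k (T j x))
    (hlim : ∀ y, Tendsto (fun k => T k y) atTop (𝓝 y)) :
    ∃ (K : ℕ → ℕ) (P : ℕ → E →L[𝕜] E), P 0 = 0 ∧ ∀ j, j ≤ K j ∧
      (∀ x, ‖T (K j) (P j x) - P j x‖ ≤ (1 / 2) ^ j * ‖x‖) ∧
      (∀ x, T (K j) (P (j + 1) x) = T (K j) x) ∧ (∀ x, P j (P (j + 1) x) = P j x) ∧
      (∀ x, P (j + 1) (P j x) = P j x) ∧
      FiniteDimensional 𝕜 (LinearMap.range (P j : E →ₗ[𝕜] E)) ∧ (∀ x, P j (P j x) = P j x) ∧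
      (∀ k x, T k (P j x) = P j (T k x)) := by
  let St := {P : E →L[𝕜] E // FiniteDimensional 𝕜 (LinearMap.range (P : E →ₗ[𝕜] E)) ∧
    (∀ x, P (P x) = P x) ∧ (∀ k x, T k (P x) = P (T k x))}
  have hst : ∀ (j : ℕ) (s : St), ∃ (q : ℕ × St), j ≤ q.1 ∧
      (∀ x, ‖T q.1 (s.1 x) - s.1 x‖ ≤ (1 / 2) ^ j * ‖x‖) ∧
      (∀ x, T q.1 (q.2.1 x) = T q.1 x) ∧ (∀ x, s.1 (q.2.1 x) = s.1 x) ∧
      (∀ x, q.2.1 (s.1 x) = s.1 x) := by
    intro j s
    obtain ⟨k, P', h1, h2, h3, h4, h5, h6, h7, h8⟩ := step T hfin hcomm hlim j s.1 s.2.1 s.2.2.2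
    exact ⟨(k, ⟨P', h6, h7, h8⟩), h1, h2, h3, h4, h5⟩
  choose q hq using hst
  let s0 : St := ⟨0, by
    refine ⟨?_, ?_, ?_⟩
    · apply Submodule.finiteDimensional_of_le (S₂ := (⊥ : Submodule 𝕜 E))
      rintro _ ⟨x, rfl⟩
      simp
    · intro x; simp
    · intro k x; simp⟩
  let s : ℕ → St := fun n => Nat.rec s0 (fun j s => (q j s).2) n
  have hs : ∀ j, s (j + 1) = (q j (s j)).2 := fun j => rfl
  refine ⟨fun j => (q j (s j)).1, fun j => (s j).1, rfl, ?_⟩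
  intro j
  obtain ⟨h1, h2, h3, h4, h5⟩ := hq j (s j)
  refine ⟨h1, h2, ?_, ?_, ?_, (s j).2.1, (s j).2.2.1, (s j).2.2.2⟩
  · exact h3
  · exact h4
  · exact h5

end Pool.Agent.Lib.MP_846550_an
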