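import Mathlib

set_option autoImplicit false

namespace Pool.Agent.Lib.MP_846550_an

/-- `E` has a strongly series summable M-basis: a biorthogonal, total and fundamental system
`(x n, f n)` and a lower-triangular scalar array `lam` with
`∑ k ≤ n, lam n k * f k y * x k → y` for every `y`. -/
def HasSSMBasis (𝕜 : Type) [RCLike 𝕜] (E : Type) [NormedAddCommGroup E] [NormedSpace 𝕜 E] :
    Prop :=
  ∃ (x : ℕ → E) (f : ℕ → (E →L[𝕜] 𝕜)),
    (∀ i j, f i (x j) = if i = j then 1 else 0) ∧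
    Dense ((Submodule.span 𝕜 (Set.range x) : Submodule 𝕜 E) : Set E) ∧
    (∀ y : E, (∀ n, f n y = 0) → y = 0) ∧
    ∃ lam : ℕ → ℕ → 𝕜, (∀ n m, n < m → lam n m = 0) ∧
      ∀ y : E, Filter.Tendsto
        (fun n => ∑ k ∈ Finset.range (n + 1), lam n k • (f k y • x k)) Filter.atTop (nhds y)

/-- `T` is a commuting bounded approximating sequence of `E`: uniformly bounded, pairwise
commuting finite rank operators converging pointwise to the identity. -/
def IsCommutingApprox (𝕜 : Type) [RCLike 𝕜] (E : Type) [NormedAddCommGroup E] [NormedSpace 𝕜 E]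
    (T : ℕ → (E →L[𝕜] E)) : Prop :=
  (∃ C : ℝ, ∀ k, ‖T k‖ ≤ C) ∧
  (∀ k, FiniteDimensional 𝕜 (LinearMap.range (T k : E →ₗ[𝕜] E))) ∧
  (∀ j k y, T j (T k y) = T k (T j y)) ∧
  ∀ y : E, Filter.Tendsto (fun k => T k y) Filter.atTop (nhds y)

/-- `T` is annihilated by a nonzero polynomial which splits over the scalar field. -/
def IsSplit (𝕜 : Type) [RCLike 𝕜] (E : Type) [NormedAddCommGroup E] [NormedSpace 𝕜 E]
    (T : E →L[𝕜] E) : Prop :=
  ∃ p : Polynomial 𝕜, p ≠ 0 ∧ p.Splits ∧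
    Polynomial.aeval ((T : E →ₗ[𝕜] E) : Module.End 𝕜 E) p = 0

end Pool.Agent.Lib.MP_846550_an
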