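import Pool.Agent.Lib.MP_846550_an.Main

set_option autoImplicit false

namespace Pool.Agent.Lib.MP_846550_an

open Module Filter Topology

universe u v

variable {𝕜 : Type v} [RCLike 𝕜] {E : Type u} [NormedAddCommGroup E] [NormedSpace 𝕜 E]

theorem forward [CompleteSpace E] (hE : ¬ FiniteDimensional 𝕜 E) (T : ℕ → E →L[𝕜] E)
    (hfin : ∀ k, FiniteDimensional 𝕜 (LinearMap.range (T k : E →ₗ[𝕜] E)))
    (hcomm : ∀ j k x, T j (T k x) = T k (T j x))
    (hlim : ∀ y, Tendsto (fun k => T k y) atTop (𝓝 y))
    (hspl : ∀ k, ∃ p : Polynomial 𝕜, p ≠ 0 ∧ p.Splits ∧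
      Polynomial.aeval ((T k : E →ₗ[𝕜] E) : Module.End 𝕜 E) p = 0) :
    ∃ (x : ℕ → E) (f : ℕ → (E →L[𝕜] 𝕜)),
        (∀ i j, f i (x j) = if i = j then 1 else 0) ∧
        Dense ((Submodule.span 𝕜 (Set.range x) : Submodule 𝕜 E) : Set E) ∧
        (∀ y : E, (∀ n, f n y = 0) → y = 0) ∧
        ∃ lam : ℕ → ℕ → 𝕜, (∀ n m, n < m → lam n m = 0) ∧
          ∀ y : E, Tendsto
            (fun n => ∑ k ∈ Finset.range (n + 1), lam n k • (f k y • x k))
            atTop (𝓝 y) := by
  classical
  obtain ⟨ι, hι, x, f, μ, hfx0, hfx1, hS⟩ := blocks T hfin hcomm hlim hspl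
  -- density in block form
  have hmem : ∀ y (j : ℕ), (∑ i ∈ Finset.range j, ∑ a : ι i, (f ⟨i, a⟩ y) • x ⟨i, a⟩) +
        ∑ a : ι j, (μ ⟨j, a⟩ * f ⟨j, a⟩ y) • x ⟨j, a⟩ ∈ Submodule.span 𝕜 (Set.range x) := by
    intro y j
    apply Submodule.add_mem
    · apply Submodule.sum_mem
      intro i _
      apply Submodule.sum_mem
      intro a _
      exact Submodule.smul_mem _ _ (Submodule.subset_span ⟨_, rfl⟩)
    · apply Submodule.sum_mem
      intro a _
      exact Submodule.smul_mem _ _ (Submodule.subset_span ⟨_, rfl⟩)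
  have hdense : Dense ((Submodule.span 𝕜 (Set.range x) : Submodule 𝕜 E) : Set E) := by
    intro y
    exact mem_closure_of_tendsto (hS y) (Eventually.of_forall (fun j => hmem y j))
  have hinf : Infinite (Σ j, ι j) := by
    by_contra hcon
    rw [not_infinite_iff_finite] at hcon
    apply hE
    have h1 : FiniteDimensional 𝕜 (Submodule.span 𝕜 (Set.range x)) :=
      FiniteDimensional.span_of_finite 𝕜 (Set.finite_range x)
    have h2 : IsClosed ((Submodule.span 𝕜 (Set.range x) : Submodule 𝕜 E) : Set E) :=
      Submodule.closed_of_finiteDimensional _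
    have h3 : Submodule.span 𝕜 (Set.range x) = ⊤ := by
      apply SetLike.coe_injective
      rw [← h2.closure_eq, hdense.closure_eq]
      rfl
    rw [h3] at h1
    exact Module.finite_def.mpr (Module.finite_def.mp (Module.Finite.of_surjective
      (Submodule.subtype (⊤ : Submodule 𝕜 E)) (fun y => ⟨⟨y, trivial⟩, rfl⟩)))
  obtain ⟨hden⟩ := nonempty_denumerable (Σ j, ι j)
  let e : ℕ ≃ (Σ j, ι j) := (@Denumerable.eqv (Σ j, ι j) hden).symm
  let valid : ℕ → ℕ → Prop := fun n j => ∀ i ≤ j, ∀ a : ι i, e.symm ⟨i, a⟩ ≤ n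
  have hvalid : ∀ j, ∀ᶠ n in atTop, valid n j := by
    intro j
    let F : Finset (Σ j, ι j) := (Finset.range (j + 1)).sigma (fun i => Finset.univ)
    filter_upwards [eventually_ge_atTop (F.sup e.symm)] with n hn
    intro i hi a
    have h1 : (⟨i, a⟩ : Σ j, ι j) ∈ F := by
      simp only [F, Finset.mem_sigma, Finset.mem_range, Finset.mem_univ, and_true]
      omega
    exact (Finset.le_sup (f := e.symm) h1).trans hn
  let g : ℕ → ℕ := fun n => Nat.findGreatest (valid n) n
  have hg1 : ∀ᶠ n in atTop, valid n (g n) := by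
    filter_upwards [hvalid 0] with n hn
    exact Nat.findGreatest_spec (Nat.zero_le n) hn
  have hg2 : Tendsto g atTop atTop := by
    rw [tendsto_atTop]
    intro j
    filter_upwards [hvalid j, eventually_ge_atTop j] with n hn hjn
    exact Nat.le_findGreatest hjn hn
  let c : ℕ → (Σ j, ι j) → 𝕜 := fun J p => if p.1 < J then 1 else if p.1 = J then μ p else 0
  let lam : ℕ → ℕ → 𝕜 := fun n k => if valid n (g n) then c (g n) (e k) else 0
  refine ⟨fun n => x (e n), fun n => f (e n), ?_, ?_, ?_, lam, ?_, ?_⟩
  · intro i j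
    by_cases hij : i = j
    · subst hij
      simp [hfx1]
    · rw [if_neg hij]
      exact hfx0 _ _ (fun h => hij (e.injective h))
  · have h1 : Set.range (fun n => x (e n)) = Set.range x := by
      have := e.surjective.range_comp x
      exact this
    rw [h1]
    exact hdense
  · intro y hy
    have h0 : ∀ p, f p y = 0 := by
      intro p
      have := hy (e.symm p)
      simpa using this
    have h1 := hS y
    simp only [h0, zero_smul, mul_zero, Finset.sum_const_zero, add_zero] at h1
    exact (tendsto_nhds_unique h1 tendsto_const_nhds)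
  · intro n m hnm
    simp only [lam]
    split_ifs with hv
    · simp only [c]
      have h1 : ¬ (e m).1 ≤ g n := by
        intro h2
        have h3 := hv (e m).1 h2 (e m).2
        have h4 : e.symm ⟨(e m).1, (e m).2⟩ = m := e.symm_apply_apply m
        rw [h4] at h3
        omega
      rw [if_neg (by omega), if_neg (by omega)]
    · rfl
  · intro y
    have hcomp := (hS y).comp hg2
    apply hcomp.congr'
    filter_upwards [hg1] with n hn
    simp only [Function.comp]
    set J := g n with hJ
    have hlam : ∀ k, lam n k = c J (e k) := fun k => if_pos hn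
    let F : Finset (Σ j, ι j) := (Finset.range (J + 1)).sigma (fun i => Finset.univ)
    have h1 : ∑ k ∈ Finset.range (n + 1), lam n k • (f (e k) y • x (e k)) =
        ∑ p ∈ (Finset.range (n + 1)).map e.toEmbedding, c J p • (f p y • x p) := by
      rw [Finset.sum_map]
      apply Finset.sum_congr rfl
      intro k _
      rw [hlam]
      rfl
    rw [h1]
    have hsub : F ⊆ (Finset.range (n + 1)).map e.toEmbedding := by
      rintro ⟨i, a⟩ hp
      simp only [F, Finset.mem_sigma, Finset.mem_range, Finset.mem_univ, and_true] at hp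
      rw [Finset.mem_map]
      refine ⟨e.symm ⟨i, a⟩, ?_, e.apply_symm_apply _⟩
      rw [Finset.mem_range]
      have := hn i (by omega) a
      omega
    have h2 : ∑ p ∈ (Finset.range (n + 1)).map e.toEmbedding, c J p • (f p y • x p) =
        ∑ p ∈ F, c J p • (f p y • x p) := by
      symm
      apply Finset.sum_subset hsub
      rintro ⟨i, a⟩ _ hp
      have h3 : ¬ i < J + 1 := by
        intro h4
        apply hp
        simp only [F, Finset.mem_sigma, Finset.mem_range, Finset.mem_univ, and_true]
        exact h4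
      simp only [c]
      rw [if_neg (by omega), if_neg (by omega), zero_smul]
    rw [h2, Finset.sum_sigma, Finset.sum_range_succ]
    congr 1
    · apply Finset.sum_congr rfl
      intro i hi
      apply Finset.sum_congr rfl
      intro a _
      have hi' : i < J := Finset.mem_range.mp hi
      simp only [c]
      rw [if_pos hi', one_smul]
    · apply Finset.sum_congr rfl
      intro a _
      simp only [c]
      simp only [lt_irrefl, if_false, if_true, mul_smul]

/-- The easy direction. -/
theorem backward (x : ℕ → E) (f : ℕ → (E →L[𝕜] 𝕜)) (hfx : ∀ i j, f i (x j) = if i = j then 1 else 0)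
    (lam : ℕ → ℕ → 𝕜)
    (hlim : ∀ y : E, Tendsto (fun n => ∑ k ∈ Finset.range (n + 1), lam n k • (f k y • x k))
      atTop (𝓝 y)) :
    ∃ T : ℕ → E →L[𝕜] E, (∀ k, FiniteDimensional 𝕜 (LinearMap.range (T k : E →ₗ[𝕜] E))) ∧
      (∀ j k x, T j (T k x) = T k (T j x)) ∧ (∀ y, Tendsto (fun k => T k y) atTop (𝓝 y)) ∧
      (∀ k, ∃ p : Polynomial 𝕜, p ≠ 0 ∧ p.Splits ∧
        Polynomial.aeval ((T k : E →ₗ[𝕜] E) : Module.End 𝕜 E) p = 0) := by
  classical
  let T : ℕ → E →L[𝕜] E := fun n => ∑ k ∈ Finset.range (n + 1), lam n k • ((f k).smulRight (x k))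
  have hT : ∀ n y, T n y = ∑ k ∈ Finset.range (n + 1), lam n k • (f k y • x k) := by
    intro n y
    simp [T]
  have hfT : ∀ n k y, f k (T n y) = if k < n + 1 then lam n k * f k y else 0 := by
    intro n k y
    rw [hT, map_sum]
    simp only [map_smul, hfx, smul_eq_mul]
    split_ifs with hk
    · rw [Finset.sum_eq_single k]
      · simp
      · intro j _ hjk
        simp [hjk.symm]
      · intro h
        exact absurd (Finset.mem_range.mpr hk) h
    · apply Finset.sum_eq_zero
      intro j hj
      have : k ≠ j := by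
        have := Finset.mem_range.mp hj
        omega
      simp [this]
  refine ⟨T, ?_, ?_, ?_, ?_⟩
  · intro n
    have h1 : FiniteDimensional 𝕜 (Submodule.span 𝕜 (x '' (Finset.range (n + 1) : Set ℕ))) :=
      FiniteDimensional.span_of_finite 𝕜 ((Finset.finite_toSet _).image x)
    apply Submodule.finiteDimensional_of_le (S₂ := Submodule.span 𝕜 (x '' (Finset.range (n + 1) : Set ℕ)))
    rintro _ ⟨y, rfl⟩
    change T n y ∈ _
    rw [hT]
    apply Submodule.sum_mem
    intro k hk
    apply Submodule.smul_mem
    apply Submodule.smul_mem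
    exact Submodule.subset_span ⟨k, hk, rfl⟩
  · intro i j y
    have h : ∀ i j : ℕ, T i (T j y) = ∑ k ∈ Finset.range (min i j + 1), (lam i k * lam j k) • (f k y • x k) := by
      intro i j
      rw [hT i (T j y)]
      simp only [hfT]
      have h2 : ∀ k, lam i k • ((if k < j + 1 then lam j k * f k y else 0) • x k) =
          if k ∈ Finset.range (j + 1) then (lam i k * lam j k) • (f k y • x k) else 0 := by
        intro k
        simp only [Finset.mem_range]
        split_ifs
        · simp only [smul_smul, mul_assoc]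
        · simp
      simp only [h2]
      rw [← Finset.sum_filter]
      congr 1
      ext k
      simp only [Finset.mem_filter, Finset.mem_range]
      omega
    rw [h, h, min_comm]
    apply Finset.sum_congr rfl
    intro k _
    rw [mul_comm]
  · intro y
    simp only [hT]
    exact hlim y
  · intro n
    let q : Polynomial 𝕜 := ∏ k ∈ Finset.range (n + 1), (Polynomial.X - Polynomial.C (lam n k))
    have hq0 : q ≠ 0 := Finset.prod_ne_zero_iff.mpr (fun k _ => Polynomial.X_sub_C_ne_zero _)
    refine ⟨q * Polynomial.X, mul_ne_zero hq0 Polynomial.X_ne_zero, ?_, ?_⟩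
    · apply Polynomial.Splits.mul _ Polynomial.Splits.X
      exact Polynomial.Splits.prod (fun k _ => Polynomial.Splits.X_sub_C _)
    · apply LinearMap.ext
      intro y
      rw [map_mul, Module.End.mul_apply, Polynomial.aeval_X]
      change (Polynomial.aeval ((T n : E →ₗ[𝕜] E) : Module.End 𝕜 E) q) (T n y) = 0
      rw [hT, map_sum]
      apply Finset.sum_eq_zero
      intro k hk
      rw [map_smul, map_smul]
      have hxk : x k ≠ 0 := by
        intro h0
        have := hfx k k
        rw [h0] at this
        simp at this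
      have hev : Module.End.HasEigenvector ((T n : E →ₗ[𝕜] E) : Module.End 𝕜 E) (lam n k) (x k) := by
        refine ⟨?_, hxk⟩
        rw [Module.End.mem_eigenspace_iff]
        change T n (x k) = lam n k • x k
        rw [hT, Finset.sum_eq_single k]
        · simp [hfx]
        · intro j _ hjk
          simp [hfx, hjk]
        · intro h
          exact absurd hk h
      rw [Module.End.aeval_apply_of_hasEigenvector hev]
      have : q.eval (lam n k) = 0 := by
        rw [Polynomial.eval_prod]
        apply Finset.prod_eq_zero hk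
        simp
      rw [this, zero_smul, smul_zero, smul_zero]

theorem split_of_complex {F : Type u} [NormedAddCommGroup F] [NormedSpace ℂ F] (T : F →L[ℂ] F)
    (hT : FiniteDimensional ℂ (LinearMap.range (T : F →ₗ[ℂ] F))) :
    ∃ p : Polynomial ℂ, p ≠ 0 ∧ p.Splits ∧
      Polynomial.aeval ((T : F →ₗ[ℂ] F) : Module.End ℂ F) p = 0 := by
  let W := LinearMap.range (T : F →ₗ[ℂ] F)
  have hTW : ∀ x ∈ W, (T : F →ₗ[ℂ] F) x ∈ W := fun x _ => ⟨x, rfl⟩
  let A : W →ₗ[ℂ] W := (T : F →ₗ[ℂ] F).restrict hTW
  have hA0 : A.charpoly ≠ 0 := A.charpoly_monic.ne_zero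
  refine ⟨A.charpoly * Polynomial.X, mul_ne_zero hA0 Polynomial.X_ne_zero, IsAlgClosed.splits _, ?_⟩
  apply LinearMap.ext
  intro y
  rw [map_mul, Module.End.mul_apply, Polynomial.aeval_X]
  have h1 := aeval_restrict (T : F →ₗ[ℂ] F) W hTW A.charpoly ⟨T y, ⟨y, rfl⟩⟩
  have h2 : Polynomial.aeval (A : Module.End ℂ W) A.charpoly = 0 := A.aeval_self_charpoly
  change (((Polynomial.aeval (A : Module.End ℂ W) A.charpoly) ⟨T y, ⟨y, rfl⟩⟩ : W) : F) = _ at h1
  rw [h2] at h1
  simpa using h1.symm

end Pool.Agent.Lib.MP_846550_an
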