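import Mathlib

set_option autoImplicit false

namespace Pool.Agent.Lib.MP_846550_an

open Module Filter Topology

variable {𝕜 : Type*} [RCLike 𝕜] {E : Type*} [NormedAddCommGroup E] [NormedSpace 𝕜 E]

/-- Pointwise convergence to `0` is uniform on the unit ball of a finite dimensional subspace. -/
theorem unif_findim (F : Submodule 𝕜 E) [FiniteDimensional 𝕜 F] (A : ℕ → E →L[𝕜] E)
    (hA : ∀ y ∈ F, Tendsto (fun k => A k y) atTop (𝓝 0)) {ε : ℝ} (hε : 0 < ε) :
    ∀ᶠ k in atTop, ∀ x ∈ F, ‖A k x‖ ≤ ε * ‖x‖ := by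
  let b := Module.finBasis 𝕜 F
  let c : Fin (finrank 𝕜 F) → (F →L[𝕜] 𝕜) := fun i => LinearMap.toContinuousLinearMap (b.coord i)
  have h1 : Tendsto (fun k => ∑ i, ‖c i‖ * ‖A k (b i : E)‖) atTop (𝓝 0) := by
    have : Tendsto (fun k => ∑ i, ‖c i‖ * ‖A k (b i : E)‖) atTop (𝓝 (∑ i : Fin (finrank 𝕜 F), ‖c i‖ * 0)) := by
      apply tendsto_finsetSum
      intro i _
      apply Tendsto.const_mul
      have := (hA (b i : E) (b i).2).norm
      simpa using this
    simpa using this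
  filter_upwards [h1.eventually (gt_mem_nhds hε)] with k hk
  intro x hx
  have h2 : x = ∑ i, (c i ⟨x, hx⟩) • (b i : E) := by
    have h3 := b.sum_repr ⟨x, hx⟩
    have h4 := congrArg (fun z : F => (z : E)) h3
    simp only [Submodule.coe_sum, Submodule.coe_smul] at h4
    exact h4.symm
  have h5 : A k x = ∑ i, (c i ⟨x, hx⟩) • A k (b i : E) := by
    conv_lhs => rw [h2]
    rw [map_sum]
    simp only [map_smul]
  rw [h5]
  calc ‖∑ i, (c i ⟨x, hx⟩) • A k (b i : E)‖ ≤ ∑ i, ‖(c i ⟨x, hx⟩) • A k (b i : E)‖ := norm_sum_le _ _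
    _ ≤ ∑ i, (‖c i‖ * ‖A k (b i : E)‖) * ‖x‖ := by
        apply Finset.sum_le_sum
        intro i _
        rw [norm_smul]
        have := (c i).le_opNorm ⟨x, hx⟩
        have h6 : ‖(⟨x, hx⟩ : F)‖ = ‖x‖ := rfl
        rw [h6] at this
        calc ‖(c i) ⟨x, hx⟩‖ * ‖A k (b i : E)‖ ≤ (‖c i‖ * ‖x‖) * ‖A k (b i : E)‖ := by gcongr
          _ = (‖c i‖ * ‖A k (b i : E)‖) * ‖x‖ := by ring
    _ = (∑ i, ‖c i‖ * ‖A k (b i : E)‖) * ‖x‖ := by rw [Finset.sum_mul]
    _ ≤ ε * ‖x‖ := by gcongr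

/-- Fitting projection of a finite rank operator. -/
theorem fitting (T : E →L[𝕜] E) (hT : FiniteDimensional 𝕜 (LinearMap.range (T : E →ₗ[𝕜] E))) :
    ∃ P : E →L[𝕜] E, FiniteDimensional 𝕜 (LinearMap.range (P : E →ₗ[𝕜] E)) ∧
      (∀ x, P (P x) = P x) ∧
      (∀ S : E →L[𝕜] E, (∀ x, S (T x) = T (S x)) → ∀ x, S (P x) = P (S x)) ∧
      (∀ S : E →L[𝕜] E, (∀ x, S (T x) = T (S x)) → (∀ x, T (S x) = 0 → S x = 0) →
        ∀ x, S (P x) = S x) := by
  have hps : ∀ n x, (T ^ (n + 1)) x = (T ^ n) (T x) := fun n x => by rw [pow_succ]; rfl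
  -- ranges of powers
  have hcoe : ∀ n x, ((T : E →ₗ[𝕜] E) ^ n) x = (T ^ n) x := by
    intro n x
    induction n generalizing x with
    | zero => simp
    | succ n ih => rw [pow_succ, pow_succ]; simp only [Module.End.mul_apply, ContinuousLinearMap.coe_coe]; exact ih (T x)
  let R : ℕ → Submodule 𝕜 E := fun n => LinearMap.range ((T : E →ₗ[𝕜] E) ^ (n + 1))
  have hRle : ∀ n, R n ≤ LinearMap.range (T : E →ₗ[𝕜] E) := by
    rintro n _ ⟨x, rfl⟩
    rw [pow_succ']
    exact ⟨((T : E →ₗ[𝕜] E) ^ n) x, rfl⟩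
  have hRfd : ∀ n, FiniteDimensional 𝕜 (R n) := fun n => Submodule.finiteDimensional_of_le (hRle n)
  have hRanti : ∀ n, R (n + 1) ≤ R n := by
    rintro n _ ⟨x, rfl⟩
    rw [pow_succ]
    exact ⟨(T : E →ₗ[𝕜] E) x, rfl⟩
  -- stabilisation
  obtain ⟨N, hN⟩ : ∃ N, R (N + 1) = R N := by
    by_contra hcon
    push Not at hcon
    have h1 : ∀ n, finrank 𝕜 (R (n + 1)) < finrank 𝕜 (R n) := by
      intro n
      have := hRfd n
      exact Submodule.finrank_lt_finrank_of_lt (lt_of_le_of_ne (hRanti n) (hcon n))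
    have h2 : ∀ n, finrank 𝕜 (R n) + n ≤ finrank 𝕜 (R 0) := by
      intro n
      induction n with
      | zero => simp
      | succ n ih => have := h1 n; omega
    have := h2 (finrank 𝕜 (R 0) + 1)
    omega
  let W : Submodule 𝕜 E := R N
  have hWfd : FiniteDimensional 𝕜 W := hRfd N
  have hTW : ∀ x ∈ W, T x ∈ W := by
    rintro _ ⟨x, rfl⟩
    refine ⟨T x, ?_⟩
    change ((T : E →ₗ[𝕜] E) ^ (N + 1)) ((T : E →ₗ[𝕜] E) x) = (T : E →ₗ[𝕜] E) (((T : E →ₗ[𝕜] E) ^ (N + 1)) x)
    rw [← Module.End.mul_apply, ← Module.End.mul_apply, ← pow_succ, ← pow_succ']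
  let TW : W →ₗ[𝕜] W := (T : E →ₗ[𝕜] E).restrict hTW
  have hTWsurj : Function.Surjective TW := by
    rintro ⟨y, hy⟩
    have hy' : y ∈ R (N + 1) := by rw [hN]; exact hy
    obtain ⟨x, hx⟩ := hy'
    rw [pow_succ'] at hx
    refine ⟨⟨((T : E →ₗ[𝕜] E) ^ (N + 1)) x, ⟨x, rfl⟩⟩, ?_⟩
    apply Subtype.ext
    exact hx
  have hTWinj : Function.Injective TW := LinearMap.injective_iff_surjective.mpr hTWsurj
  let M : W →ₗ[𝕜] W := TW ^ (N + 1)
  have hMcoe : ∀ n (w : W), (((TW ^ n) w : W) : E) = (T ^ n) (w : E) := by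
    intro n
    induction n with
    | zero => intro w; simp
    | succ n ih => intro w; rw [pow_succ, pow_succ]; simp only [Module.End.mul_apply]; exact ih (TW w)
  have hMinj : Function.Injective M := by
    have : ∀ n, Function.Injective (TW ^ n : W →ₗ[𝕜] W) := by
      intro n
      induction n with
      | zero => intro a b h; simpa using h
      | succ n ih =>
        intro a b h
        rw [pow_succ] at h
        exact hTWinj (ih h)
    exact this _
  let Me : W ≃ₗ[𝕜] W := LinearEquiv.ofInjectiveEndo M hMinj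
  have hMe : ∀ w, Me w = M w := fun w => rfl
  let J : W →L[𝕜] W := LinearMap.toContinuousLinearMap (Me.symm : W →ₗ[𝕜] W)
  let TN : E →L[𝕜] W := (T ^ (N + 1)).codRestrict W (fun x => ⟨x, hcoe (N + 1) x⟩)
  let P : E →L[𝕜] E := W.subtypeL ∘L J ∘L TN
  have hPdef : ∀ x, P x = ((Me.symm (TN x) : W) : E) := fun x => rfl
  have hTNW : ∀ w : W, TN (w : E) = M w := by
    intro w
    apply Subtype.ext
    change (T ^ (N + 1)) (w : E) = ((M w : W) : E)
    rw [hMcoe]
  have hPW : ∀ w : W, P (w : E) = w := by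
    intro w
    rw [hPdef, hTNW, ← hMe, LinearEquiv.symm_apply_apply]
  have hPmem : ∀ x, P x ∈ W := fun x => (Me.symm (TN x)).2
  have hTNP : ∀ x, (T ^ (N + 1)) (P x) = (T ^ (N + 1)) x := by
    intro x
    have h1 : TN (P x) = TN x := by
      rw [hPdef, hTNW, ← hMe, LinearEquiv.apply_symm_apply]
    exact congrArg (fun z : W => (z : E)) h1
  refine ⟨P, ?_, ?_, ?_, ?_⟩
  · apply Submodule.finiteDimensional_of_le (S₂ := W)
    rintro _ ⟨x, rfl⟩
    exact hPmem x
  · intro x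
    exact hPW ⟨P x, hPmem x⟩
  · intro S hS x
    have hSn : ∀ n x, S ((T ^ n) x) = (T ^ n) (S x) := by
      intro n
      induction n with
      | zero => intro x; simp
      | succ n ih =>
        intro x
        rw [hps, hps, ih, hS]
    -- `S (P x)` is in `W`
    have h1 : S (P x) ∈ W := by
      obtain ⟨z, hz⟩ := hPmem x
      refine ⟨S z, ?_⟩
      rw [hcoe] at hz ⊢
      rw [← hSn, hz]
    have h2 : (T ^ (N + 1)) (S (P x)) = (T ^ (N + 1)) (P (S x)) := by
      rw [hTNP, ← hSn, hTNP, hSn]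
    have h3 : M ⟨S (P x), h1⟩ = M ⟨P (S x), hPmem _⟩ := by
      apply Subtype.ext
      rw [hMcoe, hMcoe]
      exact h2
    exact congrArg (fun z : W => (z : E)) (hMinj h3)
  · intro S hS hinj x
    have hSn : ∀ n x, S ((T ^ n) x) = (T ^ n) (S x) := by
      intro n
      induction n with
      | zero => intro x; simp
      | succ n ih =>
        intro x
        rw [hps, hps, ih, hS]
    have hk : ∀ n y, (T ^ n) (S y) = 0 → S y = 0 := by
      intro n
      induction n with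
      | zero => intro y hy; simpa using hy
      | succ n ih =>
        intro y hy
        rw [hps, ← hS] at hy
        have := ih (T y) hy
        apply hinj
        rw [← hS]
        exact this
    have h1 : (T ^ (N + 1)) (S (P x - x)) = 0 := by
      rw [← hSn, map_sub, hTNP, sub_self, map_zero]
    have h2 := hk _ _ h1
    rw [map_sub] at h2
    exact sub_eq_zero.mp h2

end Pool.Agent.Lib.MP_846550_an
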