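import Pool.Agent.Lib.MP_846550_an.Chain

set_option autoImplicit false

namespace Pool.Agent.Lib.MP_846550_an

open Module Filter Topology

universe u v

variable {𝕜 : Type v} [RCLike 𝕜] {E : Type u} [NormedAddCommGroup E] [NormedSpace 𝕜 E]

/-- Block form: a biorthogonal system indexed by blocks, with block multipliers converging to the
identity. -/
theorem blocks [CompleteSpace E] (T : ℕ → E →L[𝕜] E)
    (hfin : ∀ k, FiniteDimensional 𝕜 (LinearMap.range (T k : E →ₗ[𝕜] E)))
    (hcomm : ∀ j k x, T j (T k x) = T k (T j x))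
    (hlim : ∀ y, Tendsto (fun k => T k y) atTop (𝓝 y))
    (hspl : ∀ k, ∃ p : Polynomial 𝕜, p ≠ 0 ∧ p.Splits ∧
      Polynomial.aeval ((T k : E →ₗ[𝕜] E) : Module.End 𝕜 E) p = 0) :
    ∃ (ι : ℕ → Type) (_ : ∀ j, Fintype (ι j)) (x : (Σ j, ι j) → E) (f : (Σ j, ι j) → E →L[𝕜] 𝕜)
      (μ : (Σ j, ι j) → 𝕜),
      (∀ p q, p ≠ q → f p (x q) = 0) ∧ (∀ p, f p (x p) = 1) ∧
      ∀ y, Tendsto (fun j => (∑ i ∈ Finset.range j, ∑ a : ι i, (f ⟨i, a⟩ y) • x ⟨i, a⟩) +
        ∑ a : ι j, (μ ⟨j, a⟩ * f ⟨j, a⟩ y) • x ⟨j, a⟩) atTop (𝓝 y) := by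
  obtain ⟨K, P, hP0, hP⟩ := chain T hfin hcomm hlim
  have hK : ∀ j, j ≤ K j := fun j => (hP j).1
  have hsmall : ∀ j x, ‖T (K j) (P j x) - P j x‖ ≤ (1 / 2) ^ j * ‖x‖ := fun j => (hP j).2.1
  have hTP : ∀ j x, T (K j) (P (j + 1) x) = T (K j) x := fun j => (hP j).2.2.1
  have hPP1 : ∀ j x, P j (P (j + 1) x) = P j x := fun j => (hP j).2.2.2.1
  have hPP2 : ∀ j x, P (j + 1) (P j x) = P j x := fun j => (hP j).2.2.2.2.1
  have hPfin : ∀ j, FiniteDimensional 𝕜 (LinearMap.range (P j : E →ₗ[𝕜] E)) :=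
    fun j => (hP j).2.2.2.2.2.1
  have hPid : ∀ j x, P j (P j x) = P j x := fun j => (hP j).2.2.2.2.2.2.1
  have hPT : ∀ j k x, T k (P j x) = P j (T k x) := fun j => (hP j).2.2.2.2.2.2.2
  have hle : ∀ i j, i ≤ j → ∀ x, P i (P j x) = P i x ∧ P j (P i x) = P i x := by
    intro i j hij
    induction j, hij using Nat.le_induction with
    | base => intro x; exact ⟨hPid i x, hPid i x⟩
    | succ j _ ih =>
      intro x
      constructor
      · rw [← (ih (P (j + 1) x)).1, hPP1, (ih x).1]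
      · conv_lhs => rw [← (ih x).2]
        rw [hPP2, (ih x).2]
  let Q : ℕ → E →L[𝕜] E := fun j => P (j + 1) - P j
  have hQ : ∀ j x, Q j x = P (j + 1) x - P j x := fun j x => rfl
  have hQQ : ∀ i j, i ≠ j → ∀ x, Q i (Q j x) = 0 := by
    intro i j hij x
    simp only [hQ, map_sub]
    rcases lt_or_gt_of_ne hij with h | h
    · rw [(hle (i + 1) (j + 1) (by omega) x).1, (hle (i + 1) j (by omega) x).1,
        (hle i (j + 1) (by omega) x).1, (hle i j (by omega) x).1]
      abel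
    · rw [(hle (j + 1) (i + 1) (by omega) x).2, (hle j (i + 1) (by omega) x).2,
        (hle (j + 1) i (by omega) x).2, (hle j i (by omega) x).2]
      abel
  have hQid : ∀ j x, Q j (Q j x) = Q j x := by
    intro j x
    simp only [hQ, map_sub]
    rw [hPid, hPP2, hPP1, hPid]
    abel
  have hTQ : ∀ j k x, T k (Q j x) = Q j (T k x) := by
    intro j k x
    simp only [hQ, map_sub]
    rw [hPT, hPT]
  let D : ℕ → Submodule 𝕜 E := fun j => LinearMap.range (Q j : E →ₗ[𝕜] E)
  have hDfin : ∀ j, FiniteDimensional 𝕜 (D j) := by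
    intro j
    have := hPfin (j + 1)
    apply Submodule.finiteDimensional_of_le (S₂ := LinearMap.range (P (j + 1) : E →ₗ[𝕜] E))
    rintro _ ⟨x, rfl⟩
    refine ⟨Q j x, ?_⟩
    change P (j + 1) (Q j x) = Q j x
    simp only [hQ, map_sub]
    rw [hPid, hPP2]
  have hDQ : ∀ j (x : D j), Q j (x : E) = x := by
    rintro j ⟨_, ⟨x, rfl⟩⟩
    exact hQid j x
  have hDQ0 : ∀ i j (x : D j), i ≠ j → Q i (x : E) = 0 := by
    rintro i j ⟨_, ⟨x, rfl⟩⟩ hij
    exact hQQ i j hij x
  have hTD : ∀ j, ∀ x ∈ D j, T (K j) x ∈ D j := by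
    rintro j _ ⟨x, rfl⟩
    exact ⟨T (K j) x, (hTQ j (K j) x).symm⟩
  let ε : ℕ → ℝ := fun j => (1 / 2) ^ j / (‖Q j‖ + 1)
  have hε : ∀ j, 0 < ε j := fun j => by positivity
  have hdiag : ∀ j, ∃ (ι : Type) (_ : Fintype ι) (b : Basis ι 𝕜 (D j)) (μ : ι → 𝕜),
      ∀ x, ‖(∑ i, (b.coord i x * μ i) • b i) - ((T (K j) : E →ₗ[𝕜] E).restrict (hTD j)) x‖
        ≤ ε j * ‖x‖ := by
    intro j
    have := hDfin j
    obtain ⟨p, hp0, hps, hpA⟩ := hspl (K j)
    refine exists_diag p hp0 hps _ (D j) rfl _ ?_ _ (hε j)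
    apply LinearMap.ext
    intro x
    apply Subtype.ext
    rw [aeval_restrict, hpA]
    simp
  choose ι hι b μ hb using hdiag
  let q : ∀ j, E →L[𝕜] D j := fun j => (Q j).codRestrict (D j) (fun x => ⟨x, rfl⟩)
  have hq : ∀ j x, ((q j x : D j) : E) = Q j x := fun j x => rfl
  have hcc : ∀ (p : Σ j, ι j), ∃ g : D p.1 →L[𝕜] 𝕜, ∀ x, g x = (b p.1).coord p.2 x := by
    intro p
    have := hDfin p.1
    exact ⟨LinearMap.toContinuousLinearMap ((b p.1).coord p.2), fun x => rfl⟩
  choose g hg using hcc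
  let f : (Σ j, ι j) → E →L[𝕜] 𝕜 := fun p => (g p) ∘L (q p.1)
  have hf : ∀ p y, f p y = (b p.1).coord p.2 (q p.1 y) := fun p y => hg p _
  let x : (Σ j, ι j) → E := fun p => ((b p.1 p.2 : D p.1) : E)
  have hx : ∀ p, x p = ((b p.1 p.2 : D p.1) : E) := fun p => rfl
  have hqx : ∀ j (z : D j), q j (z : E) = z := fun j z => Subtype.ext (hDQ j z)
  have hqx0 : ∀ i j (z : D j), i ≠ j → q i (z : E) = 0 := fun i j z h => Subtype.ext (hDQ0 i j z h)
  have hPsum : ∀ j y, P j y = ∑ i ∈ Finset.range j, ∑ a : ι i, (f ⟨i, a⟩ y) • x ⟨i, a⟩ := by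
    intro j y
    induction j with
    | zero => simp [hP0]
    | succ j ih =>
      rw [Finset.sum_range_succ, ← ih]
      have h1 : P (j + 1) y = P j y + Q j y := by rw [hQ]; abel
      rw [h1]
      congr 1
      have h2 := (b j).sum_repr (q j y)
      have h3 := congrArg (fun z : D j => (z : E)) h2
      simp only [Submodule.coe_sum, Submodule.coe_smul, hq] at h3
      rw [← h3]
      apply Finset.sum_congr rfl
      intro a _
      rw [hf]
      rfl
  refine ⟨ι, hι, x, f, fun p => μ p.1 p.2, ?_, ?_, ?_⟩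
  · rintro ⟨i, a⟩ ⟨j, c⟩ hne
    rw [hf, hx]
    by_cases hij : i = j
    · subst hij
      rw [hqx]
      have hac : c ≠ a := by
        rintro rfl
        exact hne rfl
      simp only [Basis.coord_apply, Basis.repr_self]
      exact Finsupp.single_eq_of_ne' hac
    · rw [hqx0 i j _ hij, map_zero]
  · rintro ⟨i, a⟩
    rw [hf, hx, hqx]
    simp
  · intro y
    have hval : ∀ j, (∑ i ∈ Finset.range j, ∑ a : ι i, (f ⟨i, a⟩ y) • x ⟨i, a⟩) +
        ∑ a : ι j, (μ j a * f ⟨j, a⟩ y) • x ⟨j, a⟩ - y =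
        (T (K j) y - y) - (T (K j) (P j y) - P j y) +
        ((((∑ a, ((b j).coord a (q j y) * μ j a) • b j a) -
          ((T (K j) : E →ₗ[𝕜] E).restrict (hTD j)) (q j y) : D j)) : E) := by
      intro j
      rw [← hPsum]
      have h1 : ((((∑ a, ((b j).coord a (q j y) * μ j a) • b j a) -
          ((T (K j) : E →ₗ[𝕜] E).restrict (hTD j)) (q j y) : D j)) : E) =
          ∑ a : ι j, (μ j a * f ⟨j, a⟩ y) • x ⟨j, a⟩ - T (K j) (Q j y) := by
        simp only [Submodule.coe_sub, Submodule.coe_sum, Submodule.coe_smul]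
        congr 1
        apply Finset.sum_congr rfl
        intro a _
        rw [hf, mul_comm]
      rw [h1]
      have h2 : T (K j) (Q j y) = T (K j) y - T (K j) (P j y) := by
        rw [hQ, map_sub, hTP]
      rw [h2]
      abel
    have hlim0 : Tendsto (fun j => (T (K j) y - y) - (T (K j) (P j y) - P j y) +
        ((((∑ a, ((b j).coord a (q j y) * μ j a) • b j a) -
          ((T (K j) : E →ₗ[𝕜] E).restrict (hTD j)) (q j y) : D j)) : E)) atTop (𝓝 0) := by
      have hKt : Tendsto K atTop atTop := tendsto_atTop_mono hK tendsto_id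
      have a1 : Tendsto (fun j => T (K j) y - y) atTop (𝓝 0) := by
        have := ((hlim y).comp hKt).sub_const y
        simpa using this
      have hgeo : Tendsto (fun j : ℕ => (1 / 2 : ℝ) ^ j * ‖y‖) atTop (𝓝 0) := by
        have := (tendsto_pow_atTop_nhds_zero_of_lt_one (r := (1 / 2 : ℝ)) (by norm_num)
          (by norm_num)).mul_const ‖y‖
        simpa using this
      have a2 : Tendsto (fun j => T (K j) (P j y) - P j y) atTop (𝓝 0) :=
        squeeze_zero_norm (fun j => hsmall j y) hgeo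
      have a3 : Tendsto (fun j => ((((∑ a, ((b j).coord a (q j y) * μ j a) • b j a) -
          ((T (K j) : E →ₗ[𝕜] E).restrict (hTD j)) (q j y) : D j)) : E)) atTop (𝓝 0) := by
        apply squeeze_zero_norm _ hgeo
        intro j
        have h1 := hb j (q j y)
        refine le_trans h1 ?_
        have h2 : ‖(q j y : D j)‖ ≤ (‖Q j‖ + 1) * ‖y‖ := by
          have h3 : ‖(q j y : D j)‖ = ‖Q j y‖ := rfl
          rw [h3]
          refine ((Q j).le_opNorm y).trans ?_
          gcongr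
          linarith
        calc ε j * ‖(q j y : D j)‖ ≤ ε j * ((‖Q j‖ + 1) * ‖y‖) := by
              have := (hε j).le
              gcongr
          _ = (1 / 2) ^ j * ‖y‖ := by
              have : ‖Q j‖ + 1 ≠ 0 := by positivity
              simp only [ε]
              field_simp
      simpa using (a1.sub a2).add a3
    have := hlim0.add_const y
    rw [zero_add] at this
    apply this.congr
    intro j
    rw [← hval]
    abel

end Pool.Agent.Lib.MP_846550_an
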