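import Mathlib

/-!
# Symmetric systems: norm bounds, perturbation, and differences almost annihilated by a finite rank operator
-/

set_option autoImplicit false

namespace Pool.Agent.Lib.MP_846550_an

open Function

variable {E : Type*} [NormedAddCommGroup E] [NormedSpace ℝ E]

/-- The system `(z i, h i)` is biorthogonal. -/
def Biorth {ι : Type} (z : ι → E) (h : ι → E →L[ℝ] ℝ) : Prop :=
  (∀ i, h i (z i) = 1) ∧ ∀ i j, i ≠ j → h i (z j) = 0

/-- Vectors `z i` and functionals `h i` of norm at most `D` such that all operators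
`∑ k, α k • h (u k) ⊗ z (t k)` with `|α k| ≤ 1` and injective `u`, `t` have norm at most `D`. -/
def SymB (D : ℝ) {ι : Type} (z : ι → E) (h : ι → E →L[ℝ] ℝ) : Prop :=
  (∀ i, ‖z i‖ ≤ D) ∧ (∀ i, ‖h i‖ ≤ D) ∧
  ∀ (m : ℕ) (u t : Fin m → ι), Injective u → Injective t → ∀ α : Fin m → ℝ, (∀ k, |α k| ≤ 1) →
    ∀ x, ‖∑ k, (α k * h (u k) x) • z (t k)‖ ≤ D * ‖x‖

theorem SymB.sum {D : ℝ} {ι : Type} {z : ι → E} {h : ι → E →L[ℝ] ℝ} (H : SymB D z h)
    {κ : Type} [Fintype κ] (u t : κ → ι) (hu : Injective u) (ht : Injective t) (α : κ → ℝ)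
    (hα : ∀ k, |α k| ≤ 1) (x : E) : ‖∑ k, (α k * h (u k) x) • z (t k)‖ ≤ D * ‖x‖ := by
  let e := Fintype.equivFin κ
  have h1 := H.2.2 (Fintype.card κ) (u ∘ e.symm) (t ∘ e.symm) (hu.comp e.symm.injective)
    (ht.comp e.symm.injective) (α ∘ e.symm) (fun k => hα _) x
  have h2 := Equiv.sum_comp e.symm (fun k => (α k * h (u k) x) • z (t k))
  rw [← h2]
  exact h1

/-- Perturbation of a symmetric system. -/
theorem SymB.perturb {ι : Type} [Fintype ι] {D C η : ℝ} (hD : 0 ≤ D) (hC : 0 ≤ C) (hη : 0 ≤ η)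
    {z z' : ι → E} {h h' : ι → E →L[ℝ] ℝ} (H : SymB D z h) (A B : E →L[ℝ] E) (hA : ‖A‖ ≤ C)
    (hB : ‖B‖ ≤ C) (hz : ∀ i, ‖z' i - A (z i)‖ ≤ η)
    (hh : ∀ i x, |h' i x - h i (B x)| ≤ η * ‖x‖) (hs : η ≤ 1)
    (hn : (Fintype.card ι : ℝ) * (η * (2 * C * D + 1)) ≤ 1) :
    SymB (C * C * D + C * D + 1) z' h' := by
  have hCD : 0 ≤ C * D := mul_nonneg hC hD
  have hCCD : 0 ≤ C * C * D := mul_nonneg (mul_nonneg hC hC) hD
  have hAz : ∀ i, ‖A (z i)‖ ≤ C * D := fun i =>
    (A.le_opNorm _).trans (mul_le_mul hA (H.1 i) (norm_nonneg _) hC)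
  have hBx : ∀ x, ‖B x‖ ≤ C * ‖x‖ := fun x =>
    (B.le_opNorm _).trans (mul_le_mul_of_nonneg_right hB (norm_nonneg _))
  have hhB : ∀ i x, |h i (B x)| ≤ C * D * ‖x‖ := fun i x => by
    have h1 := (h i).le_opNorm (B x)
    rw [Real.norm_eq_abs] at h1
    refine h1.trans ((mul_le_mul (H.2.1 i) (hBx x) (norm_nonneg _) hD).trans (le_of_eq (by ring)))
  have hz' : ∀ i, ‖z' i‖ ≤ C * D + η := fun i => by
    have h1 : z' i = A (z i) + (z' i - A (z i)) := by abel
    rw [h1]
    exact (norm_add_le _ _).trans (add_le_add (hAz i) (hz i))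
  refine ⟨fun i => (hz' i).trans (by linarith), fun i => ?_, ?_⟩
  · refine ContinuousLinearMap.opNorm_le_bound _ (by linarith) fun x => ?_
    have h1 : h' i x = h i (B x) + (h' i x - h i (B x)) := by ring
    rw [Real.norm_eq_abs, h1]
    have h2 := abs_add_le (h i (B x)) (h' i x - h i (B x))
    have h3 := hhB i x
    have h4 := hh i x
    have h5 : η * ‖x‖ ≤ 1 * ‖x‖ := mul_le_mul_of_nonneg_right hs (norm_nonneg _)
    have h6 : 0 ≤ C * C * D * ‖x‖ := mul_nonneg hCCD (norm_nonneg _)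
    calc _ ≤ _ := h2
      _ ≤ C * D * ‖x‖ + 1 * ‖x‖ := by linarith
      _ ≤ _ := by nlinarith
  · intro m u t hu ht α hα x
    have hm : (m : ℝ) ≤ Fintype.card ι := by
      have := Fintype.card_le_of_injective u hu
      rw [Fintype.card_fin] at this
      exact_mod_cast this
    have e1 : ∑ k, (α k * h' (u k) x) • z' (t k) =
        A (∑ k, (α k * h (u k) (B x)) • z (t k)) +
        ∑ k, ((α k * h (u k) (B x)) • (z' (t k) - A (z (t k))) +
          (α k * (h' (u k) x - h (u k) (B x))) • z' (t k)) := by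
      rw [map_sum, ← Finset.sum_add_distrib]
      refine Finset.sum_congr rfl fun k _ => ?_
      rw [map_smul]
      module
    rw [e1]
    have e2 : ‖A (∑ k, (α k * h (u k) (B x)) • z (t k))‖ ≤ C * C * D * ‖x‖ := by
      refine (A.le_opNorm _).trans ?_
      refine (mul_le_mul hA (H.2.2 m u t hu ht α hα (B x)) (norm_nonneg _) hC).trans ?_
      calc C * (D * ‖B x‖) ≤ C * (D * (C * ‖x‖)) := by gcongr; exact hBx x
        _ = C * C * D * ‖x‖ := by ring
    have e3 : ‖∑ k, ((α k * h (u k) (B x)) • (z' (t k) - A (z (t k))) +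
          (α k * (h' (u k) x - h (u k) (B x))) • z' (t k))‖ ≤ ‖x‖ := by
      refine (norm_sum_le _ _).trans ?_
      have e4 : ∀ k ∈ Finset.univ, ‖(α k * h (u k) (B x)) • (z' (t k) - A (z (t k))) +
          (α k * (h' (u k) x - h (u k) (B x))) • z' (t k)‖ ≤ (η * (2 * C * D + 1)) * ‖x‖ := by
        intro k _
        refine (norm_add_le _ _).trans ?_
        rw [norm_smul, norm_smul, Real.norm_eq_abs, Real.norm_eq_abs, abs_mul, abs_mul]
        have f1 : |α k| * |h (u k) (B x)| * ‖z' (t k) - A (z (t k))‖ ≤ 1 * (C * D * ‖x‖) * η := by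
          have := hhB (u k) x
          have := hα k
          have := hz (t k)
          gcongr
        have f2 : |α k| * |h' (u k) x - h (u k) (B x)| * ‖z' (t k)‖ ≤
            1 * (η * ‖x‖) * (C * D + 1) := by
          have g1 := hα k
          have g2 := hh (u k) x
          have g3 := (hz' (t k)).trans (add_le_add_right hs _)
          gcongr
        calc _ ≤ _ := add_le_add f1 f2
          _ = _ := by ring
      refine (Finset.sum_le_sum e4).trans ?_
      rw [Finset.sum_const, Finset.card_univ, Fintype.card_fin, nsmul_eq_mul]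
      have f3 : (m : ℝ) * (η * (2 * C * D + 1)) ≤ 1 := by
        refine le_trans ?_ hn
        refine mul_le_mul_of_nonneg_right hm ?_
        positivity
      calc (m : ℝ) * ((η * (2 * C * D + 1)) * ‖x‖) = (m : ℝ) * (η * (2 * C * D + 1)) * ‖x‖ := by ring
        _ ≤ 1 * ‖x‖ := mul_le_mul_of_nonneg_right f3 (norm_nonneg _)
        _ = ‖x‖ := one_mul _
    have h6 : 0 ≤ C * D * ‖x‖ := mul_nonneg hCD (norm_nonneg _)
    calc _ ≤ _ := norm_add_le _ _
      _ ≤ C * C * D * ‖x‖ + ‖x‖ := add_le_add e2 e3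
      _ ≤ _ := by nlinarith

/-- Coordinates of a finite rank operator. -/
theorem exists_coord (P : E →L[ℝ] E)
    (hP : FiniteDimensional ℝ (LinearMap.range (P : E →ₗ[ℝ] E))) :
    ∃ (r : ℕ) (f : Fin r → E) (g : Fin r → E →L[ℝ] ℝ), ∀ x, P x = ∑ a, g a x • f a := by
  let V := LinearMap.range (P : E →ₗ[ℝ] E)
  let b := Module.finBasis ℝ V
  let q : E →L[ℝ] V := P.codRestrict V (fun x => ⟨x, rfl⟩)
  refine ⟨_, fun a => (b a : E), fun a => (LinearMap.toContinuousLinearMap (b.coord a)) ∘L q, ?_⟩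
  intro x
  have h3 := b.sum_repr (q x)
  have h4 := congrArg (fun z : V => (z : E)) h3
  simp only [Submodule.coe_sum, Submodule.coe_smul] at h4
  exact h4.symm

/-- Differences of elements of a long symmetric system form a symmetric system which is almost
annihilated by a given finite rank operator. -/
theorem exists_near {D : ℝ} (hD : 0 ≤ D)
    (hS : ∀ n : ℕ, ∃ (z : Fin n → E) (h : Fin n → E →L[ℝ] ℝ), Biorth z h ∧ SymB D z h)
    (P : E →L[ℝ] E) (hP : FiniteDimensional ℝ (LinearMap.range (P : E →ₗ[ℝ] E)))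
    (ι : Type) [Fintype ι] {η : ℝ} (hη : 0 < η) :
    ∃ (z : ι → E) (h : ι → E →L[ℝ] ℝ), Biorth z h ∧ SymB (2 * D) z h ∧ (∀ i, ‖P (z i)‖ ≤ η) ∧
      ∀ i x, |h i (P x)| ≤ η * ‖x‖ := by
  classical
  obtain ⟨r, f, g, hfg⟩ := exists_coord P hP
  set S : ℝ := ∑ a, (‖f a‖ + ‖g a‖) + 1 with hSdef
  have hS0 : 0 ≤ ∑ a, (‖f a‖ + ‖g a‖) := Finset.sum_nonneg fun a _ => by positivity
  have hS1 : 1 ≤ S := by linarith
  have hf1 : ∀ a, ‖f a‖ ≤ S := fun a => by
    have := Finset.single_le_sum (f := fun a => ‖f a‖ + ‖g a‖) (fun a _ => by positivity)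
      (Finset.mem_univ a)
    have h2 := norm_nonneg (g a)
    linarith
  have hg1 : ∀ a, ‖g a‖ ≤ S := fun a => by
    have := Finset.single_le_sum (f := fun a => ‖f a‖ + ‖g a‖) (fun a _ => by positivity)
      (Finset.mem_univ a)
    have h2 := norm_nonneg (f a)
    linarith
  set δ : ℝ := η / S with hδdef
  have hδ : 0 < δ := by positivity
  set K : ℤ := ⌈S * D / δ⌉ + 1 with hK
  have hfl : ∀ v : ℝ, |v| ≤ S * D → ⌊v / δ⌋ ∈ Finset.Icc (-K) K := by
    intro v hv
    have h1 := abs_le.1 hv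
    have h2 : -(S * D / δ) ≤ v / δ := by rw [← neg_div]; gcongr; exact h1.1
    have h3 : v / δ ≤ S * D / δ := by gcongr; exact h1.2
    have h4 := Int.le_ceil (S * D / δ)
    rw [Finset.mem_Icc]
    constructor
    · rw [Int.le_floor]
      push_cast [hK]
      linarith
    · have h5 : ((⌊v / δ⌋ : ℤ) : ℝ) ≤ (⌈S * D / δ⌉ : ℤ) := (Int.floor_le _).trans (h3.trans h4)
      have h6 : ⌊v / δ⌋ ≤ ⌈S * D / δ⌉ := by exact_mod_cast h5
      omega
  have hfl2 : ∀ v v' : ℝ, ⌊v / δ⌋ = ⌊v' / δ⌋ → |v - v'| ≤ δ := by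
    intro v v' h
    have h1 := Int.abs_sub_lt_one_of_floor_eq_floor h
    rw [← sub_div, abs_div, abs_of_pos hδ, div_lt_one hδ] at h1
    exact h1.le
  let t1 : Finset (Fin r → ℤ) := Fintype.piFinset (fun _ => Finset.Icc (-K) K)
  let t2 : Finset ((Fin r → ℤ) × (Fin r → ℤ)) := t1 ×ˢ t1
  obtain ⟨z, h, hb, hs⟩ := hS (t2.card * (Fintype.card ι * 2))
  let c : Fin (t2.card * (Fintype.card ι * 2)) → (Fin r → ℤ) × (Fin r → ℤ) :=
    fun i => (fun a => ⌊g a (z i) / δ⌋, fun a => ⌊h i (f a) / δ⌋)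
  have hc : ∀ i ∈ (Finset.univ : Finset (Fin (t2.card * (Fintype.card ι * 2)))), c i ∈ t2 := by
    intro i _
    rw [Finset.mem_product]
    constructor
    · rw [Fintype.mem_piFinset]
      intro a
      apply hfl
      have h1 := (g a).le_opNorm (z i)
      rw [Real.norm_eq_abs] at h1
      exact h1.trans (mul_le_mul (hg1 a) (hs.1 i) (norm_nonneg _) (by linarith))
    · rw [Fintype.mem_piFinset]
      intro a
      apply hfl
      have h1 := (h i).le_opNorm (f a)
      rw [Real.norm_eq_abs] at h1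
      refine h1.trans ((mul_le_mul (hs.2.1 i) (hf1 a) (norm_nonneg _) hD).trans (le_of_eq (by ring)))
  have ht2 : t2.Nonempty := by
    refine ⟨(fun _ => 0, fun _ => 0), ?_⟩
    have hK0 : 0 ≤ K := by
      have : (0 : ℝ) ≤ S * D / δ := by positivity
      have := Int.ceil_nonneg this
      omega
    have : (fun _ : Fin r => (0 : ℤ)) ∈ t1 := by
      rw [Fintype.mem_piFinset]
      intro a
      rw [Finset.mem_Icc]
      omega
    rw [Finset.mem_product]
    exact ⟨this, this⟩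
  obtain ⟨y, _, hy⟩ := Finset.exists_le_card_fiber_of_mul_le_card_of_maps_to hc ht2
    (n := Fintype.card ι * 2) (by rw [Finset.card_univ, Fintype.card_fin])
  have hemb : Nonempty (ι × Fin 2 ↪ {i // i ∈ Finset.univ.filter (fun i => c i = y)}) := by
    apply Function.Embedding.nonempty_of_card_le
    rw [Fintype.card_prod, Fintype.card_fin, Fintype.card_coe]
    exact hy
  obtain ⟨em⟩ := hemb
  let e : ι → Fin 2 → Fin (t2.card * (Fintype.card ι * 2)) := fun i a => (em (i, a)).1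
  have hey : ∀ i a, c (e i a) = y := fun i a => by
    have := (em (i, a)).2
    rw [Finset.mem_filter] at this
    exact this.2
  have hinj : ∀ i a j b, e i a = e j b → i = j ∧ a = b := by
    intro i a j b h
    have h1 := em.injective (Subtype.ext h)
    rw [Prod.mk.injEq] at h1
    exact h1
  have hcg : ∀ i j a, |g a (z (e i 0)) - g a (z (e j 1))| ≤ δ := by
    intro i j a
    apply hfl2
    have h1 := (hey i 0).trans (hey j 1).symm
    exact congrFun (congrArg Prod.fst h1) a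
  have hch : ∀ i j a, |h (e i 0) (f a) - h (e j 1) (f a)| ≤ δ := by
    intro i j a
    apply hfl2
    have h1 := (hey i 0).trans (hey j 1).symm
    exact congrFun (congrArg Prod.snd h1) a
  have h01 : (0 : Fin 2) ≠ 1 := by decide
  refine ⟨fun i => z (e i 0) - z (e i 1), fun i => (1 / 2 : ℝ) • (h (e i 0) - h (e i 1)),
    ⟨?_, ?_⟩, ⟨?_, ?_, ?_⟩, ?_, ?_⟩
  · intro i
    have h1 : e i 0 ≠ e i 1 := fun h => h01 (hinj _ _ _ _ h).2
    simp only [smul_apply, sub_apply, map_sub]
    rw [hb.1, hb.1, hb.2 _ _ h1, hb.2 _ _ h1.symm]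
    norm_num
  · intro i j hij
    have h1 : ∀ a b, e i a ≠ e j b := fun a b h => hij (hinj _ _ _ _ h).1
    simp only [smul_apply, sub_apply, map_sub]
    rw [hb.2 _ _ (h1 _ _), hb.2 _ _ (h1 _ _), hb.2 _ _ (h1 _ _), hb.2 _ _ (h1 _ _)]
    norm_num
  · intro i
    refine (norm_sub_le _ _).trans ?_
    have := hs.1 (e i 0)
    have := hs.1 (e i 1)
    linarith
  · intro i
    rw [norm_smul, Real.norm_eq_abs, abs_of_pos (by norm_num : (0 : ℝ) < 1 / 2)]
    have h1 := norm_sub_le (h (e i 0)) (h (e i 1))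
    have := hs.2.1 (e i 0)
    have := hs.2.1 (e i 1)
    linarith
  · intro m u t hu ht α hα x
    have key : ∀ a b : Fin 2, ‖∑ k, (α k * h (e (u k) a) x) • z (e (t k) b)‖ ≤ D * ‖x‖ := by
      intro a b
      exact hs.2.2 m (fun k => e (u k) a) (fun k => e (t k) b)
        (fun i j h => hu (hinj _ _ _ _ h).1) (fun i j h => ht (hinj _ _ _ _ h).1) α hα x
    have e1 : ∑ k, (α k * ((1 / 2 : ℝ) • (h (e (u k) 0) - h (e (u k) 1))) x) •
        (z (e (t k) 0) - z (e (t k) 1)) =
        (1 / 2 : ℝ) • (∑ k, (α k * h (e (u k) 0) x) • z (e (t k) 0) -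
          ∑ k, (α k * h (e (u k) 0) x) • z (e (t k) 1) -
          ∑ k, (α k * h (e (u k) 1) x) • z (e (t k) 0) +
          ∑ k, (α k * h (e (u k) 1) x) • z (e (t k) 1)) := by
      rw [← Finset.sum_sub_distrib, ← Finset.sum_sub_distrib, ← Finset.sum_add_distrib,
        Finset.smul_sum]
      refine Finset.sum_congr rfl fun k _ => ?_
      simp only [smul_apply, sub_apply, smul_eq_mul]
      module
    rw [e1, norm_smul, Real.norm_eq_abs, abs_of_pos (by norm_num : (0 : ℝ) < 1 / 2)]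
    have k1 := key 0 0
    have k2 := key 0 1
    have k3 := key 1 0
    have k4 := key 1 1
    have l1 := norm_add_le (∑ k, (α k * h (e (u k) 0) x) • z (e (t k) 0) -
          ∑ k, (α k * h (e (u k) 0) x) • z (e (t k) 1) -
          ∑ k, (α k * h (e (u k) 1) x) • z (e (t k) 0))
          (∑ k, (α k * h (e (u k) 1) x) • z (e (t k) 1))
    have l2 := norm_sub_le (∑ k, (α k * h (e (u k) 0) x) • z (e (t k) 0) -
          ∑ k, (α k * h (e (u k) 0) x) • z (e (t k) 1))
          (∑ k, (α k * h (e (u k) 1) x) • z (e (t k) 0))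
    have l3 := norm_sub_le (∑ k, (α k * h (e (u k) 0) x) • z (e (t k) 0))
          (∑ k, (α k * h (e (u k) 0) x) • z (e (t k) 1))
    linarith
  · intro i
    have e2 : P (z (e i 0) - z (e i 1)) = ∑ a, (g a (z (e i 0)) - g a (z (e i 1))) • f a := by
      rw [map_sub, hfg, hfg, ← Finset.sum_sub_distrib]
      exact Finset.sum_congr rfl fun a _ => (sub_smul _ _ _).symm
    have e3 : δ * S = η := by rw [hδdef]; field_simp
    change ‖P (z (e i 0) - z (e i 1))‖ ≤ η
    rw [e2]
    calc ‖∑ a, (g a (z (e i 0)) - g a (z (e i 1))) • f a‖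
        ≤ ∑ a, ‖(g a (z (e i 0)) - g a (z (e i 1))) • f a‖ := norm_sum_le _ _
      _ ≤ ∑ a, δ * (‖f a‖ + ‖g a‖) := by
          refine Finset.sum_le_sum fun a _ => ?_
          rw [norm_smul, Real.norm_eq_abs]
          have h1 := hcg i i a
          have h2 := norm_nonneg (g a)
          have h3 := norm_nonneg (f a)
          exact mul_le_mul h1 (by linarith) h3 hδ.le
      _ ≤ η := by
          rw [← Finset.mul_sum, ← e3]
          exact mul_le_mul_of_nonneg_left (by linarith) hδ.le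
  · intro i x
    have e3 : δ * S = η := by rw [hδdef]; field_simp
    have e2 : ((1 / 2 : ℝ) • (h (e i 0) - h (e i 1))) (P x) =
        (1 / 2 : ℝ) * ∑ a, g a x * (h (e i 0) (f a) - h (e i 1) (f a)) := by
      rw [hfg, map_sum, Finset.mul_sum]
      refine Finset.sum_congr rfl fun a _ => ?_
      simp only [smul_apply, sub_apply, smul_eq_mul, map_smul]
      ring
    change |((1 / 2 : ℝ) • (h (e i 0) - h (e i 1))) (P x)| ≤ η * ‖x‖
    rw [e2, abs_mul, abs_of_pos (by norm_num : (0 : ℝ) < 1 / 2)]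
    have e4 : |∑ a, g a x * (h (e i 0) (f a) - h (e i 1) (f a))| ≤ η * ‖x‖ := by
      calc |∑ a, g a x * (h (e i 0) (f a) - h (e i 1) (f a))|
          ≤ ∑ a, |g a x * (h (e i 0) (f a) - h (e i 1) (f a))| := Finset.abs_sum_le_sum_abs _ _
        _ ≤ ∑ a, (δ * ‖x‖) * (‖f a‖ + ‖g a‖) := by
            refine Finset.sum_le_sum fun a _ => ?_
            rw [abs_mul]
            have h1 := hch i i a
            have h2 := norm_nonneg (g a)
            have h3 := norm_nonneg (f a)
            have h4 := (g a).le_opNorm x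
            rw [Real.norm_eq_abs] at h4
            calc |g a x| * |h (e i 0) (f a) - h (e i 1) (f a)| ≤ (‖g a‖ * ‖x‖) * δ :=
                  mul_le_mul h4 h1 (abs_nonneg _) (by positivity)
              _ = (δ * ‖x‖) * ‖g a‖ := by ring
              _ ≤ (δ * ‖x‖) * (‖f a‖ + ‖g a‖) :=
                  mul_le_mul_of_nonneg_left (by linarith) (by positivity)
        _ ≤ η * ‖x‖ := by
            rw [← Finset.mul_sum, ← e3]
            calc δ * ‖x‖ * ∑ a, (‖f a‖ + ‖g a‖) ≤ δ * ‖x‖ * S :=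
                  mul_le_mul_of_nonneg_left (by linarith) (by positivity)
              _ = δ * S * ‖x‖ := by ring
    have e5 := abs_nonneg (∑ a, g a x * (h (e i 0) (f a) - h (e i 1) (f a)))
    linarith

end Pool.Agent.Lib.MP_846550_an
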