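import Pool.Agent.Lib.MP_846550_an.R1

/-!
# Placement of a symmetric system beyond a finite rank projection
-/

set_option autoImplicit false

namespace Pool.Agent.Lib.MP_846550_an

open Function Filter Topology

/-- A matrix near the identity has a left inverse near the identity. -/
theorem exists_left_inv (ι : Type) [Fintype ι] [DecidableEq ι] {δ : ℝ} (hδ : 0 < δ) :
    ∃ η : ℝ, 0 < η ∧ ∀ G : ι → ι → ℝ, (∀ i j, |G i j - (if i = j then 1 else 0)| ≤ η) →
      ∃ H : ι → ι → ℝ, (∀ i j, ∑ m, H i m * G m j = if i = j then 1 else 0) ∧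
        ∀ i j, |H i j - (if i = j then 1 else 0)| ≤ δ := by
  classical
  let I : ι → ι → ℝ := fun i j => if i = j then 1 else 0
  have hI : Matrix.of I = 1 := by
    ext i j
    simp [I, Matrix.one_apply]
  let F : (ι → ι → ℝ) → (ι → ι → ℝ) := fun G i j => (Matrix.of G).det⁻¹ * (Matrix.of G).adjugate i j
  have hof : Continuous fun G : ι → ι → ℝ => (Matrix.of G : Matrix ι ι ℝ) := continuous_id
  have hdet : Continuous fun G : ι → ι → ℝ => (Matrix.of G).det := hof.matrix_det
  have hadj : Continuous fun G : ι → ι → ℝ => (Matrix.of G).adjugate := hof.matrix_adjugate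
  have hd1 : (Matrix.of I).det = 1 := by rw [hI, Matrix.det_one]
  have hF : ContinuousAt F I := by
    rw [continuousAt_pi]
    intro i
    rw [continuousAt_pi]
    intro j
    refine ContinuousAt.mul ?_ ?_
    · exact hdet.continuousAt.inv₀ (by rw [hd1]; exact one_ne_zero)
    · exact (hadj.matrix_elem i j).continuousAt
  have hFI : F I = I := by
    ext i j
    change (Matrix.of I).det⁻¹ * (Matrix.of I).adjugate i j = I i j
    rw [hd1, hI, Matrix.adjugate_one, Matrix.one_apply]
    simp [I]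
  have h1 : ∀ᶠ G in 𝓝 I, dist (F G) (F I) < δ := Metric.tendsto_nhds.1 hF δ hδ
  have h2 : ∀ᶠ G in 𝓝 I, (Matrix.of G).det ≠ 0 := by
    refine hdet.continuousAt.eventually_ne ?_
    rw [hd1]
    exact one_ne_zero
  obtain ⟨η, hη, hηG⟩ := Metric.eventually_nhds_iff.1 (h1.and h2)
  refine ⟨η / 2, by positivity, fun G hG => ?_⟩
  have h3 : dist G I < η := by
    refine lt_of_le_of_lt ?_ (half_lt_self hη)
    rw [dist_pi_le_iff (by positivity)]
    intro i
    rw [dist_pi_le_iff (by positivity)]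
    intro j
    rw [Real.dist_eq]
    exact hG i j
  obtain ⟨h4, h5⟩ := hηG h3
  refine ⟨F G, ?_, ?_⟩
  · intro i j
    have h6 : (Matrix.of G).adjugate * (Matrix.of G) = (Matrix.of G).det • (1 : Matrix ι ι ℝ) :=
      Matrix.adjugate_mul _
    have h7 := congrFun (congrFun h6 i) j
    rw [Matrix.mul_apply, Matrix.smul_apply, Matrix.one_apply] at h7
    have h8 : ∑ m, F G i m * G m j = (Matrix.of G).det⁻¹ * ∑ m, (Matrix.of G).adjugate i m * Matrix.of G m j := by
      rw [Finset.mul_sum]
      refine Finset.sum_congr rfl fun m _ => ?_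
      simp only [F, Matrix.of_apply]
      ring
    rw [h8, h7, smul_eq_mul, ← mul_assoc, inv_mul_cancel₀ h5, one_mul]
  · intro i j
    have h6 := dist_le_pi_dist (F G) (F I) i
    have h7 := dist_le_pi_dist (F G i) (F I i) j
    rw [Real.dist_eq] at h7
    rw [hFI] at h7 h6 h4
    exact (h7.trans h6).trans h4.le

variable {E : Type*} [NormedAddCommGroup E] [NormedSpace ℝ E]

/-- **Placement.** -/
theorem placement {D C : ℝ} (hD : 0 ≤ D) (hC : 0 ≤ C)
    (hS : ∀ n : ℕ, ∃ (z : Fin n → E) (h : Fin n → E →L[ℝ] ℝ), Biorth z h ∧ SymB D z h)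
    (A : ℕ → E →L[ℝ] E) (hA : ∀ N, ‖A N‖ ≤ C) (hlim : ∀ y, Tendsto (fun N => A N y) atTop (𝓝 y))
    (P : E →L[ℝ] E) (hP : FiniteDimensional ℝ (LinearMap.range (P : E →ₗ[ℝ] E)))
    (hPid : ∀ x, P (P x) = P x) (hPA : ∀ N x, P (A N x) = A N (P x))
    (ι : Type) [Fintype ι] (N₀ : ℕ) :
    ∃ N, N₀ ≤ N ∧ ∃ (z : ι → E) (h : ι → E →L[ℝ] ℝ), Biorth z h ∧
      SymB (C * C * (2 * D) + C * (2 * D) + 1) z h ∧ (∀ i, P (z i) = 0) ∧ (∀ i x, h i (P x) = 0) ∧
      (∀ i, ∃ y, z i = A N y) ∧ ∀ i, ∃ φ : E →L[ℝ] ℝ, ∀ x, h i x = φ (A N x) := by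
  classical
  set D2 : ℝ := 2 * D with hD2
  have hD2' : 0 ≤ D2 := by positivity
  set n : ℝ := (Fintype.card ι : ℝ) with hn
  have hn0 : 0 ≤ n := Nat.cast_nonneg _
  have hCD : 0 ≤ C * D2 := mul_nonneg hC hD2'
  -- the final tolerance
  set θ : ℝ := 1 / ((n + 1) * (2 * C * D2 + 1)) with hθ
  have hq : 1 ≤ 2 * C * D2 + 1 := by nlinarith
  have hθ0 : 0 < θ := by positivity
  have hθ1 : θ ≤ 1 := by
    rw [hθ, div_le_one (by positivity)]
    nlinarith
  have hθn : n * (θ * (2 * C * D2 + 1)) ≤ 1 := by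
    have : n * (θ * (2 * C * D2 + 1)) = n / (n + 1) := by
      rw [hθ]
      field_simp
    rw [this, div_le_one (by positivity)]
    linarith
  set δ : ℝ := θ / (2 * (n + 1) * (C * D2 + C + 1)) with hδ
  have hδ0 : 0 < δ := by positivity
  obtain ⟨η₀, hη₀, hinv⟩ := exists_left_inv ι hδ0
  set η : ℝ := min (θ / (2 * (C + 1))) (min (η₀ / (2 * (D2 + 1))) 1) with hηd
  have hη : 0 < η := by
    rw [hηd]
    refine lt_min (by positivity) (lt_min (by positivity) one_pos)
  have hη1 : η ≤ 1 := (min_le_right _ _).trans (min_le_right _ _)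
  have hηθ : η * C ≤ θ / 2 := by
    have h1 : η ≤ θ / (2 * (C + 1)) := min_le_left _ _
    calc η * C ≤ θ / (2 * (C + 1)) * (C + 1) := by
          refine mul_le_mul h1 (by linarith) hC (by positivity)
      _ = θ / 2 := by field_simp
  have hηη : η * D2 ≤ η₀ / 2 := by
    have h1 : η ≤ η₀ / (2 * (D2 + 1)) := (min_le_right _ _).trans (min_le_left _ _)
    calc η * D2 ≤ η₀ / (2 * (D2 + 1)) * (D2 + 1) := by
          refine mul_le_mul h1 (by linarith) hD2' (by positivity)
      _ = η₀ / 2 := by field_simp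
  obtain ⟨z, h, hb, hs, hz, hh⟩ := exists_near hD hS P hP ι hη
  -- choose `N`
  have hlim2 : ∀ i j, Tendsto (fun N => h i (A N (A N (z j - P (z j))) - P (A N (A N (z j - P (z j))))))
      atTop (𝓝 (h i (z j - P (z j)))) := by
    intro i j
    set w := z j - P (z j) with hw
    have hPw : P w = 0 := by rw [hw, map_sub, hPid, sub_self]
    have h1 : ∀ N, P (A N (A N w)) = 0 := fun N => by rw [hPA, hPA, hPw, map_zero, map_zero]
    simp only [h1, sub_zero]
    have h2 : Tendsto (fun N => A N (A N w)) atTop (𝓝 w) := by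
      have h3 : Tendsto (fun N => A N (A N w - w) + A N w) atTop (𝓝 (0 + w)) := by
        refine Tendsto.add ?_ (hlim w)
        have h4 : Tendsto (fun N => C * ‖A N w - w‖) atTop (𝓝 0) := by
          have := ((hlim w).sub_const w).norm.const_mul C
          simpa using this
        refine squeeze_zero_norm (fun N => ?_) h4
        exact ((A N).le_opNorm _).trans (mul_le_mul_of_nonneg_right (hA N) (norm_nonneg _))
      rw [zero_add] at h3
      refine h3.congr fun N => ?_
      rw [← map_add, sub_add_cancel]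
    exact ((h i).continuous.tendsto w).comp h2
  have hev : ∀ᶠ N in atTop, ∀ i j, |h i (A N (A N (z j - P (z j))) - P (A N (A N (z j - P (z j))))) -
      h i (z j - P (z j))| ≤ η₀ / 2 := by
    rw [eventually_all]
    intro i
    rw [eventually_all]
    intro j
    have h1 := (Metric.tendsto_nhds.1 (hlim2 i j)) (η₀ / 2) (by positivity)
    refine h1.mono fun N hN => ?_
    rw [Real.dist_eq] at hN
    exact hN.le
  obtain ⟨N, hN, hN0⟩ := (hev.and (eventually_ge_atTop N₀)).exists
  refine ⟨N, hN0, ?_⟩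
  let z2 : ι → E := fun i => A N (z i - P (z i))
  let h2 : ι → E →L[ℝ] ℝ := fun i => (h i - (h i) ∘L P) ∘L A N
  have hh2 : ∀ i x, h2 i x = h i (A N x) - h i (P (A N x)) := fun i x => rfl
  let G : ι → ι → ℝ := fun i j => h2 i (z2 j)
  have hG : ∀ i j, |G i j - (if i = j then 1 else 0)| ≤ η₀ := by
    intro i j
    have h3 := hN i j
    rw [map_sub] at h3
    have h4 : h i (z j) = if i = j then 1 else 0 := by
      split_ifs with hij
      · rw [hij]; exact hb.1 j
      · exact hb.2 i j hij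
    have h5 : |h i (P (z j))| ≤ η₀ / 2 := by
      refine (hh i (z j)).trans (le_trans ?_ hηη)
      exact mul_le_mul_of_nonneg_left (hs.1 j) hη.le
    have h6 : G i j - (if i = j then 1 else 0) =
        (h i (A N (A N (z j - P (z j)))) - h i (P (A N (A N (z j - P (z j))))) -
          h i (z j - P (z j))) - h i (P (z j)) := by
      rw [map_sub (h i) (z j) (P (z j)), h4]
      simp only [G, z2, hh2]
      ring
    rw [h6]
    have h7 := abs_sub (h i (A N (A N (z j - P (z j)))) - h i (P (A N (A N (z j - P (z j))))) -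
          h i (z j - P (z j))) (h i (P (z j)))
    linarith
  obtain ⟨H, hHG, hH⟩ := hinv G hG
  let h3 : ι → E →L[ℝ] ℝ := fun i => ∑ m, H i m • h2 m
  have hh3 : ∀ i x, h3 i x = ∑ m, H i m * h2 m x := by
    intro i x
    simp only [h3, sum_apply, smul_apply, smul_eq_mul]
  have hAx : ∀ x, ‖A N x‖ ≤ C * ‖x‖ := fun x =>
    ((A N).le_opNorm x).trans (mul_le_mul_of_nonneg_right (hA N) (norm_nonneg _))
  have hh2b : ∀ m x, |h2 m x| ≤ (C * D2 + C) * ‖x‖ := by
    intro m x
    rw [hh2]
    have l1 := abs_sub (h m (A N x)) (h m (P (A N x)))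
    have l2 := (h m).le_opNorm (A N x)
    rw [Real.norm_eq_abs] at l2
    have l3 := hh m (A N x)
    have l4 : ‖h m‖ * ‖A N x‖ ≤ D2 * (C * ‖x‖) :=
      mul_le_mul (hs.2.1 m) (hAx x) (norm_nonneg _) hD2'
    have l5 : η * ‖A N x‖ ≤ 1 * (C * ‖x‖) := mul_le_mul hη1 (hAx x) (norm_nonneg _) zero_le_one
    nlinarith
  refine ⟨z2, h3, ⟨?_, ?_⟩, ?_, ?_, ?_, ?_, ?_⟩
  · intro i
    rw [hh3]
    have := hHG i i
    rw [if_pos rfl] at this
    exact this
  · intro i j hij
    rw [hh3]
    have := hHG i j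
    rw [if_neg hij] at this
    exact this
  · refine SymB.perturb hD2' hC hθ0.le hs (A N) (A N) (hA N) (hA N) ?_ ?_ hθ1 hθn
    · intro i
      have l1 : z2 i - A N (z i) = - A N (P (z i)) := by
        simp only [z2, map_sub]
        abel
      rw [l1, norm_neg]
      have l2 : ‖A N (P (z i))‖ ≤ C * η := (hAx _).trans (mul_le_mul_of_nonneg_left (hz i) hC)
      linarith
    · intro i x
      have l1 : h3 i x - h i (A N x) =
          (∑ m, (H i m - (if i = m then 1 else 0)) * h2 m x) - h i (P (A N x)) := by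
        rw [hh3]
        simp only [sub_mul, Finset.sum_sub_distrib, ite_mul, one_mul, zero_mul,
          Finset.sum_ite_eq, Finset.mem_univ, if_true, hh2]
        ring
      rw [l1]
      have l2 : |∑ m, (H i m - (if i = m then 1 else 0)) * h2 m x| ≤ θ / 2 * ‖x‖ := by
        refine (Finset.abs_sum_le_sum_abs _ _).trans ?_
        have l3 : ∀ m ∈ Finset.univ, |(H i m - (if i = m then 1 else 0)) * h2 m x| ≤
            δ * ((C * D2 + C) * ‖x‖) := by
          intro m _
          rw [abs_mul]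
          exact mul_le_mul (hH i m) (hh2b m x) (abs_nonneg _) hδ0.le
        refine (Finset.sum_le_sum l3).trans ?_
        rw [Finset.sum_const, Finset.card_univ, nsmul_eq_mul]
        have l4 : n * (δ * (C * D2 + C)) ≤ θ / 2 := by
          have l5 : (n + 1) * (δ * (C * D2 + C + 1)) = θ / 2 := by
            rw [hδ]
            field_simp
          rw [← l5]
          exact mul_le_mul (by linarith) (mul_le_mul_of_nonneg_left (by linarith) hδ0.le)
            (by positivity) (by positivity)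
        calc n * (δ * ((C * D2 + C) * ‖x‖)) = n * (δ * (C * D2 + C)) * ‖x‖ := by ring
          _ ≤ θ / 2 * ‖x‖ := mul_le_mul_of_nonneg_right l4 (norm_nonneg _)
      have l6 : |h i (P (A N x))| ≤ θ / 2 * ‖x‖ := by
        refine (hh i (A N x)).trans ?_
        calc η * ‖A N x‖ ≤ η * (C * ‖x‖) := mul_le_mul_of_nonneg_left (hAx x) hη.le
          _ = η * C * ‖x‖ := by ring
          _ ≤ θ / 2 * ‖x‖ := mul_le_mul_of_nonneg_right hηθ (norm_nonneg _)
      have l7 := abs_sub (∑ m, (H i m - (if i = m then 1 else 0)) * h2 m x) (h i (P (A N x)))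
      linarith
  · intro i
    simp only [z2]
    rw [hPA, map_sub, hPid, sub_self, map_zero]
  · intro i x
    rw [hh3]
    refine Finset.sum_eq_zero fun m _ => ?_
    have l1 : h2 m (P x) = 0 := by
      rw [hh2, hPA, hPid, sub_self]
    rw [l1, mul_zero]
  · exact fun i => ⟨_, rfl⟩
  · intro i
    refine ⟨∑ m, H i m • (h m - (h m) ∘L P), fun x => ?_⟩
    rw [hh3]
    simp only [sum_apply, smul_apply, smul_eq_mul]
    rfl

end Pool.Agent.Lib.MP_846550_an
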