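import Mathlib

/-!
# The amplifier chain: a nilpotent extension of a plane rotation with small couplings
-/

set_option autoImplicit false

namespace Pool.Agent.Lib.MP_846550_an

/-- `H 0 = 1`, `H 1 = 2 a`, `H (n+2) = 2 a H (n+1) - (a^2+b^2) H n`: the complete homogeneous
symmetric polynomials of `a + i b`, `a - i b`. -/
def HH (a b : ℝ) : ℕ → ℝ
  | 0 => 1
  | 1 => 2 * a
  | (n + 2) => 2 * a * HH a b (n + 1) - (a ^ 2 + b ^ 2) * HH a b n

theorem abs_HH_le {a b C : ℝ} (hC : 0 ≤ C) (h : a ^ 2 + b ^ 2 ≤ C ^ 2) :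
    ∀ n, |HH a b n| ≤ (3 * C) ^ n ∧ |HH a b (n + 1)| ≤ (3 * C) ^ (n + 1) := by
  have ha : |a| ≤ C := abs_le_of_sq_le_sq (by nlinarith [sq_nonneg b]) hC
  intro n
  induction n with
  | zero =>
    constructor
    · simp [HH]
    · simp only [HH, zero_add, pow_one, abs_mul, abs_two]
      linarith
  | succ n ih =>
    refine ⟨ih.2, ?_⟩
    have h1 : HH a b (n + 1 + 1) = 2 * a * HH a b (n + 1) - (a ^ 2 + b ^ 2) * HH a b n := rfl
    rw [h1]
    have h2 := abs_sub (2 * a * HH a b (n + 1)) ((a ^ 2 + b ^ 2) * HH a b n)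
    have h3 : |2 * a * HH a b (n + 1)| ≤ 2 * C * (3 * C) ^ (n + 1) := by
      rw [abs_mul, abs_mul, abs_two]
      exact mul_le_mul (by linarith) ih.2 (abs_nonneg _) (by positivity)
    have h4 : |(a ^ 2 + b ^ 2) * HH a b n| ≤ C ^ 2 * (3 * C) ^ n := by
      rw [abs_mul, abs_of_nonneg (by positivity : 0 ≤ a ^ 2 + b ^ 2)]
      exact mul_le_mul h ih.1 (abs_nonneg _) (by positivity)
    have h5 : 0 ≤ C ^ 2 * (3 * C) ^ n := by positivity
    calc _ ≤ _ := h2
      _ ≤ 2 * C * (3 * C) ^ (n + 1) + C ^ 2 * (3 * C) ^ n := add_le_add h3 h4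
      _ ≤ (3 * C) ^ (n + 1 + 1) := by
          have : (3 * C) ^ (n + 1 + 1) = 2 * C * (3 * C) ^ (n + 1) + 3 * (C ^ 2 * (3 * C) ^ n) := by ring
          rw [this]
          linarith

/-- **Nilpotency of the chain.** -/
theorem chain_nil {V : Type*} [AddCommGroup V] [Module ℝ V] (M : V →ₗ[ℝ] V) (N : ℕ)
    (a b ε v : ℝ) (hb : b ≠ 0) (hε : ε ≠ 0) (hv : v ≠ 0) (x y : V) (z : ℕ → V)
    (hx : M x = a • x + b • y) (hy : M y = -(b • x) + a • y + ε • z 0)
    (hz : ∀ k < N, M (z k) = v • z (k + 1))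
    (hzN : M (z N) = -(∑ k ∈ Finset.range (N + 1), (HH a b (N + 1 - k) * (v ^ (N - k))⁻¹) • z k +
      (HH a b (N + 2) / (ε * v ^ N)) • y +
      ((a * HH a b (N + 2) - (a ^ 2 + b ^ 2) * HH a b (N + 1)) / (ε * b * v ^ N)) • x)) :
    (M ^ (N + 3)) x = 0 ∧ (M ^ (N + 3)) y = 0 ∧ ∀ k ≤ N, (M ^ (N + 3)) (z k) = 0 := by
  have hpow : ∀ (k : ℕ) (u : V), (M ^ (k + 1)) u = M ((M ^ k) u) := fun k u => by
    rw [pow_succ', Module.End.mul_apply]
  have hpow' : ∀ (k : ℕ) (u : V), (M ^ (k + 1)) u = (M ^ k) (M u) := fun k u => by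
    rw [pow_succ, Module.End.mul_apply]
  -- `z k` in terms of `z 0`
  have hz0 : ∀ k ≤ N, (M ^ k) (z 0) = v ^ k • z k := by
    intro k
    induction k with
    | zero => intro _; simp
    | succ k ih =>
      intro hk
      rw [hpow, ih (by omega), map_smul, hz k (by omega), smul_smul, pow_succ]
  set w : V := (ε * b) • z 0 with hw
  have hw1 : M (M x) = (2 * a) • M x - (a ^ 2 + b ^ 2) • x + w := by
    rw [hx, map_add, map_smul, map_smul, hx, hy, hw]
    module
  have hMw : ∀ k ≤ N, (M ^ k) w = (ε * b * v ^ k) • z k := by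
    intro k hk
    rw [hw, map_smul, hz0 k hk, smul_smul]
  -- the recursion
  have hrec : ∀ n, (M ^ (n + 2)) x = HH a b (n + 1) • M x - ((a ^ 2 + b ^ 2) * HH a b n) • x +
      ∑ k ∈ Finset.range (n + 1), HH a b (n - k) • (M ^ k) w := by
    intro n
    induction n with
    | zero =>
      have : (M ^ (0 + 2)) x = M (M x) := by
        rw [hpow, pow_one]
      rw [this, hw1]
      simp [HH]
    | succ n ih =>
      rw [show n + 1 + 2 = (n + 2) + 1 from rfl, hpow, ih, map_add, map_sub, map_smul, map_smul, hw1,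
        map_sum]
      have e1 : ∑ k ∈ Finset.range (n + 1 + 1), HH a b (n + 1 - k) • (M ^ k) w =
          (∑ k ∈ Finset.range (n + 1), M (HH a b (n - k) • (M ^ k) w)) + HH a b (n + 1) • w := by
        rw [Finset.sum_range_succ']
        congr 1
        · refine Finset.sum_congr rfl fun k _ => ?_
          rw [hpow, Nat.add_sub_add_right]
          exact (map_smul M _ _).symm
      rw [e1]
      have e2 : HH a b (n + 1 + 1) = 2 * a * HH a b (n + 1) - (a ^ 2 + b ^ 2) * HH a b n := rfl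
      rw [e2]
      module
  have hεv : ε * b * v ^ N ≠ 0 := mul_ne_zero (mul_ne_zero hε hb) (pow_ne_zero _ hv)
  -- the last vector
  have hlast : (M ^ (N + 1)) w = -(∑ k ∈ Finset.range (N + 1), HH a b (N + 1 - k) • (M ^ k) w) -
      HH a b (N + 2) • M x + ((a ^ 2 + b ^ 2) * HH a b (N + 1)) • x := by
    rw [hpow, hMw N le_rfl, map_smul, hzN]
    have e1 : ∑ k ∈ Finset.range (N + 1), HH a b (N + 1 - k) • (M ^ k) w =
        (ε * b * v ^ N) • ∑ k ∈ Finset.range (N + 1), (HH a b (N + 1 - k) * (v ^ (N - k))⁻¹) • z k := by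
      rw [Finset.smul_sum]
      refine Finset.sum_congr rfl fun k hk => ?_
      have hk' : k ≤ N := by
        rw [Finset.mem_range] at hk
        omega
      rw [hMw k hk', smul_smul, smul_smul]
      congr 1
      have hvk : v ^ N = v ^ (N - k) * v ^ k := by rw [← pow_add]; congr 1; omega
      have : v ^ (N - k) ≠ 0 := pow_ne_zero _ hv
      rw [hvk]
      field_simp
    rw [e1, hx, smul_neg, smul_add, smul_add, smul_smul, smul_smul]
    have c1 : ε * b * v ^ N * (HH a b (N + 2) / (ε * v ^ N)) = b * HH a b (N + 2) := by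
      have : v ^ N ≠ 0 := pow_ne_zero _ hv
      field_simp
    have c2 : ε * b * v ^ N * ((a * HH a b (N + 2) - (a ^ 2 + b ^ 2) * HH a b (N + 1)) /
        (ε * b * v ^ N)) = a * HH a b (N + 2) - (a ^ 2 + b ^ 2) * HH a b (N + 1) := by
      field_simp
    rw [c1, c2]
    module
  have hX : (M ^ (N + 3)) x = 0 := by
    have h1 := hrec (N + 1)
    rw [Finset.sum_range_succ, Nat.sub_self] at h1
    rw [show N + 3 = N + 1 + 2 from rfl, h1, hlast]
    have h2 : HH a b 0 = 1 := rfl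
    rw [h2]
    module
  have hcomm : ∀ (k : ℕ) (u : V), (M ^ k) (M u) = M ((M ^ k) u) := fun k u => by
    rw [← hpow', hpow]
  have hY : (M ^ (N + 3)) y = 0 := by
    have h1 : y = b⁻¹ • (M x - a • x) := by
      rw [hx, add_sub_cancel_left, smul_smul, inv_mul_cancel₀ hb, one_smul]
    rw [h1, map_smul, map_sub, map_smul, hcomm, hX, map_zero, smul_zero, sub_zero, smul_zero]
  have hZ0 : (M ^ (N + 3)) (z 0) = 0 := by
    have h1 : z 0 = ε⁻¹ • (M y + b • x - a • y) := by
      rw [hy]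
      have : -(b • x) + a • y + ε • z 0 + b • x - a • y = ε • z 0 := by module
      rw [this, smul_smul, inv_mul_cancel₀ hε, one_smul]
    rw [h1, map_smul, map_sub, map_add, map_smul, map_smul, hcomm, hX, hY, map_zero, smul_zero,
      smul_zero, add_zero, sub_zero, smul_zero]
  refine ⟨hX, hY, fun k hk => ?_⟩
  have h1 : z k = (v ^ k)⁻¹ • (M ^ k) (z 0) := by
    rw [hz0 k hk, smul_smul, inv_mul_cancel₀ (pow_ne_zero _ hv), one_smul]
  have h2 : (M ^ (N + 3)) ((M ^ k) (z 0)) = (M ^ k) ((M ^ (N + 3)) (z 0)) := by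
    rw [← Module.End.mul_apply, ← Module.End.mul_apply, ← pow_add, ← pow_add, add_comm]
  rw [h1, map_smul, h2, hZ0, map_zero, smul_zero]

end Pool.Agent.Lib.MP_846550_an
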