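import Mathlib

/-!
# Real operators on finite dimensional spaces: a flag with layers of dimension one or two
-/

set_option autoImplicit false

namespace Pool.Agent.Lib.MP_846550_an

open Polynomial Module

theorem rotation_bound {E : Type*} [NormedAddCommGroup E] [NormedSpace ℝ E] (T : E →L[ℝ] E)
    (a b : ℝ) (x y : E) (hx : T x = a • x + b • y) (hy : T y = -(b • x) + a • y) (hx0 : x ≠ 0) :
    a ^ 2 + b ^ 2 ≤ ‖T‖ ^ 2 := by
  let F : ℂ → E := fun w => w.re • x + w.im • y
  have hF : Continuous fun w => ‖F w‖ := by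
    refine Continuous.norm ?_
    exact (Complex.continuous_re.smul continuous_const).add
      (Complex.continuous_im.smul continuous_const)
  obtain ⟨w0, hw0, hmax⟩ := (isCompact_sphere (0 : ℂ) 1).exists_isMaxOn
    ⟨1, by simp⟩ hF.continuousOn
  have hpos : 0 < ‖F w0‖ := by
    have h1 := hmax (show (1 : ℂ) ∈ Metric.sphere (0 : ℂ) 1 by simp)
    have h2 : F 1 = x := by simp [F]
    simp only [Set.mem_ofPred_eq, h2] at h1
    exact (norm_pos_iff.2 hx0).trans_le h1
  let μ : ℂ := ⟨a, b⟩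
  have hTF : ∀ w, T (F w) = F (μ * w) := by
    intro w
    simp only [F, map_add, map_smul, hx, hy, Complex.mul_re, Complex.mul_im, μ]
    module
  have hμ : ‖μ‖ ≤ ‖T‖ := by
    by_cases h0 : μ = 0
    · rw [h0, norm_zero]
      exact norm_nonneg _
    · have hμ0 : ‖μ‖ ≠ 0 := norm_ne_zero_iff.2 h0
      let w1 : ℂ := w0 * ((‖μ‖ : ℂ) / μ)
      have hw1 : w1 ∈ Metric.sphere (0 : ℂ) 1 := by
        rw [mem_sphere_zero_iff_norm] at hw0 ⊢
        simp only [w1, norm_mul, norm_div, hw0, Complex.norm_real, norm_norm, one_mul]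
        exact div_self hμ0
      have h1 : μ * w1 = (‖μ‖ : ℂ) * w0 := by
        simp only [w1]
        field_simp
      have h2 : F ((‖μ‖ : ℂ) * w0) = ‖μ‖ • F w0 := by
        simp only [F, Complex.re_ofReal_mul, Complex.im_ofReal_mul]
        module
      have h3 := hTF w1
      rw [h1, h2] at h3
      have h4 := T.le_opNorm (F w1)
      rw [h3, norm_smul, norm_norm] at h4
      have h5 := hmax hw1
      simp only [Set.mem_ofPred_eq] at h5
      have h6 : ‖μ‖ * ‖F w0‖ ≤ ‖T‖ * ‖F w0‖ := h4.trans (mul_le_mul_of_nonneg_left h5 (norm_nonneg _))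
      exact le_of_mul_le_mul_right h6 hpos
  have h7 : ‖μ‖ ^ 2 = a ^ 2 + b ^ 2 := by
    rw [Complex.sq_norm, Complex.normSq_mk]
    ring
  rw [← h7]
  exact pow_le_pow_left₀ (norm_nonneg _) hμ 2

theorem intertwine {V W : Type*} [AddCommGroup V] [Module ℝ V] [AddCommGroup W] [Module ℝ W]
    (f : V →ₗ[ℝ] W) (A : End ℝ V) (B : End ℝ W) (h : ∀ v, f (A v) = B (f v)) (p : ℝ[X]) (v : V) :
    f (aeval A p v) = aeval B p (f v) := by
  have hpow : ∀ (n : ℕ) (v : V), f ((A ^ n) v) = (B ^ n) (f v) := by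
    intro n
    induction n with
    | zero => intro v; simp
    | succ n ih => intro v; rw [pow_succ, pow_succ, Module.End.mul_apply, Module.End.mul_apply, ih, h]
  induction p using Polynomial.induction_on' with
  | add p q hp hq => rw [map_add, map_add, LinearMap.add_apply, LinearMap.add_apply, map_add, hp, hq]
  | monomial n c =>
    rw [aeval_monomial, aeval_monomial, Module.End.mul_apply, Module.End.mul_apply,
      Module.algebraMap_end_apply, Module.algebraMap_end_apply, map_smul, hpow]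

theorem exists_rot {Q : Type*} [AddCommGroup Q] [Module ℝ Q] [FiniteDimensional ℝ Q]
    (B : End ℝ Q) (μ : ℂ) (hμ : μ.im ≠ 0) (h : aeval μ (minpoly ℝ B) = 0) :
    ∃ x y : Q, x ≠ 0 ∧ B x = μ.re • x + μ.im • y ∧ B y = -(μ.im • x) + μ.re • y := by
  obtain ⟨r, hr⟩ := Polynomial.quadratic_dvd_of_aeval_eq_zero_im_ne_zero (minpoly ℝ B) h hμ
  have hm0 : minpoly ℝ B ≠ 0 := minpoly.ne_zero (Algebra.IsIntegral.isIntegral B)
  have hr0 : r ≠ 0 := by
    rintro rfl
    rw [mul_zero] at hr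
    exact hm0 hr
  set q : ℝ[X] := X ^ 2 - C (2 * μ.re) * X + C (‖μ‖ ^ 2) with hq
  have hqd : q.natDegree = 2 := by
    rw [hq]
    compute_degree!
  have hq0 : q ≠ 0 := by
    rintro h
    rw [h, natDegree_zero] at hqd
    exact absurd hqd (by norm_num)
  have hrB : aeval B r ≠ 0 := by
    intro h0
    have h1 := natDegree_le_natDegree (minpoly.degree_le_of_ne_zero ℝ B hr0 h0)
    rw [hr, natDegree_mul hq0 hr0, hqd] at h1
    omega
  obtain ⟨u, hu⟩ : ∃ u, aeval B r u ≠ 0 := by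
    by_contra hcon
    push Not at hcon
    exact hrB (LinearMap.ext hcon)
  set x := aeval B r u with hx
  have hqx : aeval B q x = 0 := by
    rw [hx, ← Module.End.mul_apply, ← map_mul, ← hr, minpoly.aeval]
    rfl
  have hqx' : B (B x) = (2 * μ.re) • B x - (‖μ‖ ^ 2) • x := by
    have h1 : aeval B q x = B (B x) - (2 * μ.re) • B x + (‖μ‖ ^ 2) • x := by
      rw [hq]
      simp only [map_add, map_sub, map_mul, aeval_X, aeval_C, LinearMap.add_apply,
        LinearMap.sub_apply, Module.End.mul_apply, Module.algebraMap_end_apply, pow_two]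
      module
    rw [h1] at hqx
    rw [← sub_eq_zero, ← hqx]
    module
  have hn : ‖μ‖ ^ 2 = μ.re ^ 2 + μ.im ^ 2 := by
    rw [Complex.sq_norm, Complex.normSq_apply]
    ring
  refine ⟨x, μ.im⁻¹ • (B x - μ.re • x), hu, ?_, ?_⟩
  · rw [smul_smul, mul_inv_cancel₀ hμ, one_smul]
    abel
  · rw [map_smul, map_sub, map_smul, hqx', hn]
    have e1 : (2 * μ.re) • B x - (μ.re ^ 2 + μ.im ^ 2) • x - μ.re • B x =
        μ.re • (B x - μ.re • x) - (μ.im ^ 2) • x := by module
    rw [e1, smul_sub, smul_smul μ.im⁻¹ (μ.im ^ 2)]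
    have e2 : μ.im⁻¹ * μ.im ^ 2 = μ.im := by field_simp
    rw [e2]
    module

theorem exists_layer {Q : Type*} [AddCommGroup Q] [Module ℝ Q] [FiniteDimensional ℝ Q]
    [Nontrivial Q] (B : End ℝ Q) {R : ℝ} (p : ℝ[X]) (hp : aeval B p = 0)
    (hC : ∀ μ : ℂ, μ.im ≠ 0 → aeval μ p = 0 → ‖μ‖ ≤ R) :
    (∃ (a : ℝ) (x : Q), x ≠ 0 ∧ B x = a • x) ∨
    ∃ (a b : ℝ) (x y : Q), b ≠ 0 ∧ a ^ 2 + b ^ 2 ≤ R ^ 2 ∧ x ≠ 0 ∧ B x = a • x + b • y ∧
      B y = -(b • x) + a • y := by
  have hint : IsIntegral ℝ B := Algebra.IsIntegral.isIntegral B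
  have hdeg : (minpoly ℝ B).degree ≠ 0 := (minpoly.degree_pos hint).ne'
  obtain ⟨μ, hμ⟩ := IsAlgClosed.exists_aeval_eq_zero ℂ (minpoly ℝ B) hdeg
  by_cases him : μ.im = 0
  · left
    have h1 : μ = ((μ.re : ℝ) : ℂ) := by
      apply Complex.ext
      · simp
      · simp [him]
    have h2 : (minpoly ℝ B).IsRoot μ.re := by
      rw [h1] at hμ
      rw [IsRoot.def]
      have h3 : aeval ((μ.re : ℝ) : ℂ) (minpoly ℝ B) = ((eval μ.re (minpoly ℝ B) : ℝ) : ℂ) := by
        have := Polynomial.aeval_algebraMap_apply ℂ μ.re (minpoly ℝ B)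
        simpa [Polynomial.coe_aeval_eq_eval] using this
      rw [h3] at hμ
      exact_mod_cast hμ
    obtain ⟨x, hx⟩ := (Module.End.hasEigenvalue_of_isRoot h2).exists_hasEigenvector
    exact ⟨μ.re, x, hx.2, hx.apply_eq_smul⟩
  · right
    obtain ⟨x, y, hx0, hx, hy⟩ := exists_rot B μ him hμ
    refine ⟨μ.re, μ.im, x, y, him, ?_, hx0, hx, hy⟩
    have h1 : aeval μ p = 0 := by
      obtain ⟨q, hq⟩ := minpoly.dvd ℝ B hp
      rw [hq, map_mul, hμ, zero_mul]
    have h2 := hC μ him h1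
    have h3 : ‖μ‖ ^ 2 = μ.re ^ 2 + μ.im ^ 2 := by
      rw [Complex.sq_norm, Complex.normSq_apply]
      ring
    rw [← h3]
    exact pow_le_pow_left₀ (norm_nonneg _) h2 2

/-- One layer of the flag. -/
def Layer {E : Type*} [NormedAddCommGroup E] [NormedSpace ℝ E] (T : E →L[ℝ] E) (R : ℝ)
    (G G' : Submodule ℝ E) : Prop :=
  (∃ a : ℝ, ∀ u ∈ G', T u - a • u ∈ G) ∨
  ∃ (a b : ℝ) (x y : E), b ≠ 0 ∧ a ^ 2 + b ^ 2 ≤ R ^ 2 ∧ x ∈ G' ∧ y ∈ G' ∧
    y ∉ G ⊔ Submodule.span ℝ {x} ∧ G' ≤ G ⊔ Submodule.span ℝ {x, y} ∧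
    T x - (a • x + b • y) ∈ G ∧ T y - (-(b • x) + a • y) ∈ G

theorem exists_step {E : Type*} [NormedAddCommGroup E] [NormedSpace ℝ E] (T : E →L[ℝ] E) {R : ℝ}
    (hTR : ‖T‖ ≤ R) (D : Submodule ℝ E) [FiniteDimensional ℝ D] (hD : ∀ u ∈ D, T u ∈ D)
    (G : Submodule ℝ E) (hG : ∀ u ∈ G, T u ∈ G) (hGD : G ≤ D) (hne : G ≠ D) :
    ∃ G' : Submodule ℝ E, (∀ u ∈ G', T u ∈ G') ∧ G < G' ∧ G' ≤ D ∧ Layer T R G G' := by
  let B : End ℝ D := (T : E →ₗ[ℝ] E).restrict hD
  have hB : ∀ u : D, ((B u : D) : E) = T u := fun u => rfl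
  let G0 : Submodule ℝ D := G.comap D.subtype
  have hG0 : ∀ u : D, u ∈ G0 ↔ (u : E) ∈ G := fun u => Iff.rfl
  have hBG : G0 ≤ G0.comap B := fun u hu => hG _ hu
  let BQ : End ℝ (D ⧸ G0) := G0.mapQ G0 B hBG
  have hBQ : ∀ u : D, G0.mkQ (B u) = BQ (G0.mkQ u) := fun u => rfl
  have hnt : Nontrivial (D ⧸ G0) := by
    rw [Submodule.Quotient.nontrivial_iff]
    intro h
    apply hne
    refine le_antisymm hGD fun u hu => ?_
    have : (⟨u, hu⟩ : D) ∈ G0 := by rw [h]; trivial
    exact this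
  have hp : aeval BQ (minpoly ℝ B) = 0 := by
    apply LinearMap.ext
    intro w
    obtain ⟨u, rfl⟩ := G0.mkQ_surjective w
    rw [← intertwine G0.mkQ B BQ hBQ, minpoly.aeval]
    simp
  have hC : ∀ μ : ℂ, μ.im ≠ 0 → aeval μ (minpoly ℝ B) = 0 → ‖μ‖ ≤ R := by
    intro μ hμ h
    obtain ⟨x, y, hx0, hx, hy⟩ := exists_rot B μ hμ h
    have h1 := rotation_bound T μ.re μ.im (x : E) (y : E) (congrArg Subtype.val hx)
      (congrArg Subtype.val hy) (fun h => hx0 (Subtype.ext h))
    have h3 : ‖μ‖ ^ 2 = μ.re ^ 2 + μ.im ^ 2 := by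
      rw [Complex.sq_norm, Complex.normSq_apply]
      ring
    rw [← h3] at h1
    exact (le_of_sq_le_sq h1 (norm_nonneg _)).trans hTR
  have hsup : ∀ (S : Set E), (∀ x ∈ S, x ∈ D) → (∀ x ∈ S, T x ∈ G ⊔ Submodule.span ℝ S) →
      (∀ u ∈ G ⊔ Submodule.span ℝ S, T u ∈ G ⊔ Submodule.span ℝ S) ∧
      G ⊔ Submodule.span ℝ S ≤ D := by
    intro S hS hTS
    constructor
    · have h1 : G ⊔ Submodule.span ℝ S ≤ (G ⊔ Submodule.span ℝ S).comap (T : E →ₗ[ℝ] E) := by
        rw [sup_le_iff, Submodule.span_le]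
        exact ⟨fun u hu => Submodule.mem_sup_left (hG u hu), fun u hu => hTS u hu⟩
      exact fun u hu => h1 hu
    · rw [sup_le_iff, Submodule.span_le]
      exact ⟨hGD, hS⟩
  rcases exists_layer BQ (minpoly ℝ B) hp hC with ⟨a, xq, hx0, hx⟩ | ⟨a, b, xq, yq, hb, hab, hx0, hx, hy⟩
  · obtain ⟨x, rfl⟩ := G0.mkQ_surjective xq
    have hxG : (x : E) ∉ G := fun h => hx0 ((Submodule.Quotient.mk_eq_zero G0).2 h)
    have hTx : T x - a • (x : E) ∈ G := by
      have h1 : B x - a • x ∈ G0 := by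
        rw [← Submodule.Quotient.mk_eq_zero G0]
        have h2 : G0.mkQ (B x - a • x) = 0 := by
          rw [map_sub, map_smul, hBQ, hx, sub_self]
        exact h2
      exact h1
    obtain ⟨h1, h2⟩ := hsup {(x : E)} (by rintro _ rfl; exact x.2) (by
      rintro _ rfl
      have : T x = (T x - a • (x : E)) + a • (x : E) := by abel
      rw [this]
      exact Submodule.add_mem_sup hTx (Submodule.smul_mem _ _ (Submodule.mem_span_singleton_self _)))
    refine ⟨G ⊔ Submodule.span ℝ {(x : E)}, h1, ?_, h2, Or.inl ⟨a, ?_⟩⟩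
    · refine lt_of_le_of_ne le_sup_left fun h => hxG ?_
      rw [h]
      exact Submodule.mem_sup_right (Submodule.mem_span_singleton_self _)
    · intro u hu
      obtain ⟨g, hg, w, hw, rfl⟩ := Submodule.mem_sup.1 hu
      obtain ⟨c, rfl⟩ := Submodule.mem_span_singleton.1 hw
      have : T (g + c • (x : E)) - a • (g + c • (x : E)) = (T g - a • g) + c • (T x - a • (x : E)) := by
        rw [map_add, map_smul]
        module
      rw [this]
      exact G.add_mem (G.sub_mem (hG g hg) (G.smul_mem _ hg)) (G.smul_mem _ hTx)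
  · obtain ⟨x, rfl⟩ := G0.mkQ_surjective xq
    obtain ⟨y, rfl⟩ := G0.mkQ_surjective yq
    have hTx : T x - (a • (x : E) + b • (y : E)) ∈ G := by
      have h1 : B x - (a • x + b • y) ∈ G0 := by
        rw [← Submodule.Quotient.mk_eq_zero G0]
        have h2 : G0.mkQ (B x - (a • x + b • y)) = 0 := by
          rw [map_sub, map_add, map_smul, map_smul, hBQ, hx, sub_self]
        exact h2
      exact h1
    have hTy : T y - (-(b • (x : E)) + a • (y : E)) ∈ G := by
      have h1 : B y - (-(b • x) + a • y) ∈ G0 := by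
        rw [← Submodule.Quotient.mk_eq_zero G0]
        have h2 : G0.mkQ (B y - (-(b • x) + a • y)) = 0 := by
          rw [map_sub, map_add, map_neg, map_smul, map_smul, hBQ, hy, sub_self]
        exact h2
      exact h1
    have hmx : (x : E) ∈ Submodule.span ℝ {(x : E), (y : E)} := Submodule.subset_span (by simp)
    have hmy : (y : E) ∈ Submodule.span ℝ {(x : E), (y : E)} := Submodule.subset_span (by simp)
    obtain ⟨h1, h2⟩ := hsup {(x : E), (y : E)} (by
      rintro u (rfl | rfl)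
      · exact x.2
      · exact y.2) (by
      rintro u (rfl | rfl)
      · have : T x = (T x - (a • (x : E) + b • (y : E))) + (a • (x : E) + b • (y : E)) := by abel
        rw [this]
        exact Submodule.add_mem_sup hTx
          (Submodule.add_mem _ (Submodule.smul_mem _ _ hmx) (Submodule.smul_mem _ _ hmy))
      · have : T y = (T y - (-(b • (x : E)) + a • (y : E))) + (-(b • (x : E)) + a • (y : E)) := by abel
        rw [this]
        exact Submodule.add_mem_sup hTy
          (Submodule.add_mem _ (Submodule.neg_mem _ (Submodule.smul_mem _ _ hmx))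
            (Submodule.smul_mem _ _ hmy)))
    have hynot : (y : E) ∉ G ⊔ Submodule.span ℝ {(x : E)} := by
      intro h
      obtain ⟨g, hg, w, hw, hgw⟩ := Submodule.mem_sup.1 h
      obtain ⟨c, rfl⟩ := Submodule.mem_span_singleton.1 hw
      have h3 : y - c • x ∈ G0 := by
        rw [hG0]
        have : ((y - c • x : D) : E) = g := by
          rw [Submodule.coe_sub, Submodule.coe_smul, ← hgw]
          abel
        rw [this]
        exact hg
      have h4 : G0.mkQ y = c • G0.mkQ x := by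
        rw [← sub_eq_zero, ← map_smul, ← map_sub]
        exact (Submodule.Quotient.mk_eq_zero G0).2 h3
      rw [h4] at hx hy
      rw [map_smul, hx] at hy
      have h5 : (b * (c ^ 2 + 1)) • G0.mkQ x = 0 := by
        have : (b * (c ^ 2 + 1)) • G0.mkQ x =
            c • (a • G0.mkQ x + b • c • G0.mkQ x) - (-(b • G0.mkQ x) + a • c • G0.mkQ x) := by module
        rw [this, hy, sub_self]
      rcases smul_eq_zero.1 h5 with h6 | h6
      · rcases mul_eq_zero.1 h6 with h7 | h7
        · exact hb h7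
        · nlinarith [sq_nonneg c]
      · exact hx0 h6
    refine ⟨G ⊔ Submodule.span ℝ {(x : E), (y : E)}, h1, ?_, h2, Or.inr ⟨a, b, x, y, hb, hab,
      Submodule.mem_sup_right hmx, Submodule.mem_sup_right hmy, hynot, le_rfl, hTx, hTy⟩⟩
    refine lt_of_le_of_ne le_sup_left fun h => hynot (Submodule.mem_sup_left ?_)
    rw [h]
    exact Submodule.mem_sup_right hmy

/-- **The flag.** -/
theorem exists_flag {E : Type*} [NormedAddCommGroup E] [NormedSpace ℝ E] (T : E →L[ℝ] E) {R : ℝ}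
    (hTR : ‖T‖ ≤ R) (D : Submodule ℝ E) [FiniteDimensional ℝ D] (hD : ∀ u ∈ D, T u ∈ D) :
    ∃ (s : ℕ) (G : ℕ → Submodule ℝ E), G 0 = ⊥ ∧ G s = D ∧ (∀ l, ∀ u ∈ G l, T u ∈ G l) ∧
      (∀ l, l < s → G l ≤ G (l + 1)) ∧ (∀ l, G l ≤ D) ∧ ∀ l, l < s → Layer T R (G l) (G (l + 1)) := by
  have key : ∀ (k : ℕ) (G : Submodule ℝ E), (∀ u ∈ G, T u ∈ G) → G ≤ D →
      finrank ℝ D ≤ finrank ℝ G + k → ∃ (s : ℕ) (F : ℕ → Submodule ℝ E), F 0 = G ∧ F s = D ∧
      (∀ l, ∀ u ∈ F l, T u ∈ F l) ∧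
      (∀ l, l < s → F l ≤ F (l + 1)) ∧ (∀ l, F l ≤ D) ∧ ∀ l, l < s → Layer T R (F l) (F (l + 1)) := by
    intro k
    induction k with
    | zero =>
      intro G hG hGD hk
      have h1 : G = D := Submodule.eq_of_le_of_finrank_le hGD (by omega)
      exact ⟨0, fun _ => G, rfl, h1, fun _ => hG, fun l hl => absurd hl (by omega), fun _ => hGD,
        fun l hl => absurd hl (by omega)⟩
    | succ k ih =>
      intro G hG hGD hk
      by_cases hne : G = D
      · exact ⟨0, fun _ => G, rfl, hne, fun _ => hG, fun l hl => absurd hl (by omega), fun _ => hGD,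
          fun l hl => absurd hl (by omega)⟩
      · obtain ⟨G', hG', hlt, hG'D, hL⟩ := exists_step T hTR D hD G hG hGD hne
        have hfd : FiniteDimensional ℝ G' := Submodule.finiteDimensional_of_le hG'D
        have h2 := Submodule.finrank_lt_finrank_of_lt hlt
        obtain ⟨s, F, hF0, hFs, hFT, hFm, hFD, hFL⟩ := ih G' hG' hG'D (by omega)
        refine ⟨s + 1, fun n => Nat.casesOn n G F, rfl, hFs, ?_, ?_, ?_, ?_⟩
        · rintro (_ | l)
          · exact hG
          · exact hFT l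
        · rintro (_ | l) hl
          · change G ≤ F 0
            rw [hF0]
            exact hlt.le
          · exact hFm l (by omega)
        · rintro (_ | l)
          · exact hGD
          · exact hFD l
        · rintro (_ | l) hl
          · change Layer T R G (F 0)
            rw [hF0]
            exact hL
          · exact hFL l (by omega)
  exact key (finrank ℝ D) ⊥ (fun u hu => by
    rw [Submodule.mem_bot] at hu ⊢
    rw [hu, map_zero]) bot_le (by omega)

end Pool.Agent.Lib.MP_846550_an
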