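import Pool.Agent.Lib.MP_846550_an.R1
import Pool.Agent.Lib.MP_846550_an.R3

/-!
# The chain operator and its norm
-/

set_option autoImplicit false

namespace Pool.Agent.Lib.MP_846550_an

open Function

variable {E : Type*} [NormedAddCommGroup E] [NormedSpace ℝ E]

theorem SymB.sum_le {D R : ℝ} {ι : Type} {z : ι → E} {h : ι → E →L[ℝ] ℝ} (H : SymB D z h)
    {κ : Type} [Fintype κ] (u t : κ → ι) (hu : Injective u) (ht : Injective t) (hR : 0 < R)
    (α : κ → ℝ) (hα : ∀ k, |α k| ≤ R) (x : E) :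
    ‖∑ k, (α k * h (u k) x) • z (t k)‖ ≤ R * (D * ‖x‖) := by
  have h1 := H.sum u t hu ht (fun k => α k / R) (fun k => by
    rw [abs_div, abs_of_pos hR, div_le_one hR]
    exact hα k) x
  have h2 : ∑ k, (α k * h (u k) x) • z (t k) = R • ∑ k, (α k / R * h (u k) x) • z (t k) := by
    rw [Finset.smul_sum]
    refine Finset.sum_congr rfl fun k _ => ?_
    rw [smul_smul]
    congr 1
    field_simp
  rw [h2, norm_smul, Real.norm_eq_abs, abs_of_pos hR]
  exact mul_le_mul_of_nonneg_left h1 hR.le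

/-- coefficients of the last column -/
noncomputable def coef (a b v : ℝ) (N k : ℕ) : ℝ := HH a b (N + 1 - k) * (v ^ (N - k))⁻¹

noncomputable def betaC (a b ε v : ℝ) (N : ℕ) : ℝ := HH a b (N + 2) / (ε * v ^ N)

noncomputable def alphaC (a b ε v : ℝ) (N : ℕ) : ℝ :=
  (a * HH a b (N + 2) - (a ^ 2 + b ^ 2) * HH a b (N + 1)) / (ε * b * v ^ N)

theorem coef_le {a b C : ℝ} (hC : 0 < C) (h : a ^ 2 + b ^ 2 ≤ C ^ 2) {N k : ℕ} (hk : k ≤ N) :
    |coef a b (6 * C) N k| ≤ 6 * C * (1 / 2) ^ (N + 1 - k) := by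
  have h1 := (abs_HH_le hC.le h (N + 1 - k)).1
  have h2 : N + 1 - k = (N - k) + 1 := by omega
  unfold coef
  rw [abs_mul, abs_inv, abs_pow, abs_of_pos (by positivity : (0 : ℝ) < 6 * C)]
  calc |HH a b (N + 1 - k)| * ((6 * C) ^ (N - k))⁻¹ ≤ (3 * C) ^ (N + 1 - k) * ((6 * C) ^ (N - k))⁻¹ :=
        mul_le_mul_of_nonneg_right h1 (by positivity)
    _ = 6 * C * (1 / 2) ^ (N + 1 - k) := by
        rw [h2]
        have e1 : (6 * C) ^ (N - k) = 2 ^ (N - k) * (3 * C) ^ (N - k) := by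
          rw [← mul_pow]
          congr 1
          ring
        rw [e1, one_div, inv_pow, pow_succ, pow_succ]
        have : (3 * C) ^ (N - k) ≠ 0 := by positivity
        field_simp
        ring

theorem beta_le {a b C ε : ℝ} (hC : 0 < C) (hε : 0 < ε) (h : a ^ 2 + b ^ 2 ≤ C ^ 2) (N : ℕ) :
    |betaC a b ε (6 * C) N| ≤ 9 * C ^ 2 / ε * (1 / 2) ^ N := by
  have h1 := (abs_HH_le hC.le h (N + 2)).1
  unfold betaC
  rw [abs_div, abs_mul, abs_pow, abs_of_pos hε, abs_of_pos (by positivity : (0 : ℝ) < 6 * C)]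
  calc |HH a b (N + 2)| / (ε * (6 * C) ^ N) ≤ (3 * C) ^ (N + 2) / (ε * (6 * C) ^ N) := by gcongr
    _ = 9 * C ^ 2 / ε * (1 / 2) ^ N := by
        have e1 : (6 * C) ^ N = 2 ^ N * (3 * C) ^ N := by
          rw [← mul_pow]
          congr 1
          ring
        have : (3 * C) ^ N ≠ 0 := by positivity
        rw [e1, one_div, inv_pow, pow_add]
        field_simp
        ring

theorem alpha_le {a b C ε : ℝ} (hC : 0 < C) (hε : 0 < ε) (hb : b ≠ 0)
    (h : a ^ 2 + b ^ 2 ≤ C ^ 2) (N : ℕ) :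
    |alphaC a b ε (6 * C) N| ≤ 30 * C ^ 3 / (ε * |b|) * (1 / 2) ^ N := by
  have h1 := (abs_HH_le hC.le h (N + 2)).1
  have h2 := (abs_HH_le hC.le h (N + 1)).1
  have ha : |a| ≤ C := abs_le_of_sq_le_sq (by nlinarith [sq_nonneg b]) hC.le
  have hb' : 0 < |b| := abs_pos.2 hb
  unfold alphaC
  rw [abs_div, abs_mul, abs_mul, abs_pow, abs_of_pos hε, abs_of_pos (by positivity : (0 : ℝ) < 6 * C)]
  have h3 : |a * HH a b (N + 2) - (a ^ 2 + b ^ 2) * HH a b (N + 1)| ≤ 30 * C ^ 3 * (3 * C) ^ N := by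
    have h4 := abs_sub (a * HH a b (N + 2)) ((a ^ 2 + b ^ 2) * HH a b (N + 1))
    have h5 : |a * HH a b (N + 2)| ≤ C * (3 * C) ^ (N + 2) := by
      rw [abs_mul]
      exact mul_le_mul ha h1 (abs_nonneg _) hC.le
    have h6 : |(a ^ 2 + b ^ 2) * HH a b (N + 1)| ≤ C ^ 2 * (3 * C) ^ (N + 1) := by
      rw [abs_mul, abs_of_nonneg (by positivity : 0 ≤ a ^ 2 + b ^ 2)]
      exact mul_le_mul h h2 (abs_nonneg _) (by positivity)
    have h7 : C * (3 * C) ^ (N + 2) + C ^ 2 * (3 * C) ^ (N + 1) = 12 * C ^ 3 * (3 * C) ^ N := by ring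
    have h8 : 0 ≤ C ^ 3 * (3 * C) ^ N := by positivity
    calc _ ≤ _ := h4
      _ ≤ C * (3 * C) ^ (N + 2) + C ^ 2 * (3 * C) ^ (N + 1) := add_le_add h5 h6
      _ = 12 * (C ^ 3 * (3 * C) ^ N) := by rw [h7]; ring
      _ ≤ 30 * (C ^ 3 * (3 * C) ^ N) := by linarith
      _ = _ := by ring
  calc _ ≤ 30 * C ^ 3 * (3 * C) ^ N / (ε * |b| * (6 * C) ^ N) := by gcongr
    _ = 30 * C ^ 3 / (ε * |b|) * (1 / 2) ^ N := by
        have e1 : (6 * C) ^ N = 2 ^ N * (3 * C) ^ N := by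
          rw [← mul_pow]
          congr 1
          ring
        have : (3 * C) ^ N ≠ 0 := by positivity
        rw [e1, one_div, inv_pow]
        field_simp

/-- The chain operator. -/
noncomputable def chainOp (s N : ℕ) (z : Fin s × Fin (N + 1) → E)
    (h : Fin s × Fin (N + 1) → E →L[ℝ] ℝ) (c a b : Fin s → ℝ) (x y : Fin s → E)
    (w : Fin s → E →L[ℝ] ℝ) (ε v : ℝ) : E →L[ℝ] E :=
  ∑ l, (w l).smulRight (ε • z (l, 0)) +
  ∑ l, ∑ k : Fin N, (h (l, k.castSucc)).smulRight ((v * c l) • z (l, k.succ)) -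
  ∑ l, (h (l, Fin.last N)).smulRight (c l • (∑ k : Fin (N + 1), coef (a l) (b l) v N k • z (l, k) +
    betaC (a l) (b l) ε v N • y l + alphaC (a l) (b l) ε v N • x l))

theorem chainOp_apply (s N : ℕ) (z : Fin s × Fin (N + 1) → E)
    (h : Fin s × Fin (N + 1) → E →L[ℝ] ℝ) (c a b : Fin s → ℝ) (x y : Fin s → E)
    (w : Fin s → E →L[ℝ] ℝ) (ε v : ℝ) (u : E) : chainOp s N z h c a b x y w ε v u =
    ∑ l, w l u • (ε • z (l, 0)) +
    ∑ l, ∑ k : Fin N, h (l, k.castSucc) u • ((v * c l) • z (l, k.succ)) -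
    ∑ l, h (l, Fin.last N) u • (c l • (∑ k : Fin (N + 1), coef (a l) (b l) v N k • z (l, k) +
      betaC (a l) (b l) ε v N • y l + alphaC (a l) (b l) ε v N • x l)) := by
  simp only [chainOp, sub_apply, add_apply, sum_apply, ContinuousLinearMap.smulRight_apply]

theorem chainOp_norm {s N : ℕ} {z : Fin s × Fin (N + 1) → E}
    {h : Fin s × Fin (N + 1) → E →L[ℝ] ℝ} {D C : ℝ} (hD : 0 ≤ D) (hC : 0 < C) (H : SymB D z h)
    (c a b : Fin s → ℝ) (x y : Fin s → E) (w : Fin s → E →L[ℝ] ℝ) {ε : ℝ} (hε : 0 < ε)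
    (hc : ∀ l, |c l| ≤ 1) (hb : ∀ l, b l ≠ 0) (hab : ∀ l, a l ^ 2 + b l ^ 2 ≤ C ^ 2)
    (h1 : ε * ∑ l, ‖w l‖ * D ≤ 1 / 2)
    (h2 : (1 / 2 : ℝ) ^ N * ∑ l, D * (9 * C ^ 2 / ε * ‖y l‖ + 30 * C ^ 3 / (ε * |b l|) * ‖x l‖) ≤ 1 / 2) :
    ‖chainOp s N z h c a b x y w ε (6 * C)‖ ≤ 12 * C * D + 1 := by
  refine ContinuousLinearMap.opNorm_le_bound _ (by positivity) fun u => ?_
  rw [chainOp_apply]
  have e1 : ‖∑ l, w l u • (ε • z (l, 0))‖ ≤ 1 / 2 * ‖u‖ := by
    refine (norm_sum_le _ _).trans ?_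
    have f1 : ∀ l ∈ Finset.univ, ‖w l u • (ε • z (l, 0))‖ ≤ (ε * (‖w l‖ * D)) * ‖u‖ := by
      intro l _
      rw [norm_smul, norm_smul, Real.norm_eq_abs ε, abs_of_pos hε]
      have g1 := (w l).le_opNorm u
      have g2 := H.1 (l, 0)
      calc ‖w l u‖ * (ε * ‖z (l, 0)‖) ≤ (‖w l‖ * ‖u‖) * (ε * D) := by gcongr
        _ = _ := by ring
    refine (Finset.sum_le_sum f1).trans ?_
    rw [← Finset.sum_mul, ← Finset.mul_sum]
    exact mul_le_mul_of_nonneg_right h1 (norm_nonneg _)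
  have e2 : ‖∑ l, ∑ k : Fin N, h (l, k.castSucc) u • ((6 * C * c l) • z (l, k.succ))‖ ≤
      6 * C * (D * ‖u‖) := by
    have f1 : ∑ l, ∑ k : Fin N, h (l, k.castSucc) u • ((6 * C * c l) • z (l, k.succ)) =
        ∑ p : Fin s × Fin N, ((6 * C * c p.1) * h (p.1, p.2.castSucc) u) • z (p.1, p.2.succ) := by
      rw [Fintype.sum_prod_type]
      refine Finset.sum_congr rfl fun l _ => Finset.sum_congr rfl fun k _ => ?_
      rw [smul_smul]
      congr 1
      ring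
    rw [f1]
    refine H.sum_le (fun p : Fin s × Fin N => (p.1, p.2.castSucc)) (fun p => (p.1, p.2.succ)) ?_ ?_
      (by positivity) (fun p => 6 * C * c p.1) ?_ u
    · rintro ⟨i, j⟩ ⟨i', j'⟩ hij
      simp only [Prod.mk.injEq, Fin.castSucc_inj] at hij
      rw [hij.1, hij.2]
    · rintro ⟨i, j⟩ ⟨i', j'⟩ hij
      simp only [Prod.mk.injEq, Fin.succ_inj] at hij
      rw [hij.1, hij.2]
    · intro p
      rw [abs_mul, abs_of_pos (by positivity : (0 : ℝ) < 6 * C)]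
      calc 6 * C * |c p.1| ≤ 6 * C * 1 := mul_le_mul_of_nonneg_left (hc _) (by positivity)
        _ = 6 * C := mul_one _
  have e3 : ‖∑ l, h (l, Fin.last N) u • (c l • ∑ k : Fin (N + 1), coef (a l) (b l) (6 * C) N k • z (l, k))‖ ≤
      6 * C * (D * ‖u‖) := by
    have f1 : ∑ l, h (l, Fin.last N) u • (c l • ∑ k : Fin (N + 1), coef (a l) (b l) (6 * C) N k • z (l, k)) =
        ∑ k : Fin (N + 1), ∑ l, ((c l * coef (a l) (b l) (6 * C) N k) * h (l, Fin.last N) u) • z (l, k) := by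
      rw [Finset.sum_comm]
      refine Finset.sum_congr rfl fun l _ => ?_
      rw [Finset.smul_sum, Finset.smul_sum]
      refine Finset.sum_congr rfl fun k _ => ?_
      rw [smul_smul, smul_smul]
      congr 1
      ring
    rw [f1]
    refine (norm_sum_le _ _).trans ?_
    have f2 : ∀ k ∈ (Finset.univ : Finset (Fin (N + 1))),
        ‖∑ l, ((c l * coef (a l) (b l) (6 * C) N k) * h (l, Fin.last N) u) • z (l, k)‖ ≤
        (1 / 2) ^ (N + 1 - (k : ℕ)) * (6 * C * (D * ‖u‖)) := by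
      intro k _
      have g1 := H.sum_le (fun l : Fin s => (l, Fin.last N)) (fun l => (l, k))
        (fun i j hij => (Prod.mk.injEq _ _ _ _ ▸ hij).1)
        (fun i j hij => (Prod.mk.injEq _ _ _ _ ▸ hij).1)
        (R := 6 * C * (1 / 2) ^ (N + 1 - (k : ℕ))) (by positivity)
        (fun l => c l * coef (a l) (b l) (6 * C) N k) (fun l => by
          rw [abs_mul]
          have g2 := coef_le hC (hab l) (N := N) (k := k) (by omega)
          have g3 := hc l
          calc |c l| * |coef (a l) (b l) (6 * C) N k| ≤ 1 * (6 * C * (1 / 2) ^ (N + 1 - (k : ℕ))) :=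
                mul_le_mul g3 g2 (abs_nonneg _) zero_le_one
            _ = _ := one_mul _) u
      refine g1.trans (le_of_eq ?_)
      ring
    refine (Finset.sum_le_sum f2).trans ?_
    rw [← Finset.sum_mul]
    have f3 : ∑ k : Fin (N + 1), (1 / 2 : ℝ) ^ (N + 1 - (k : ℕ)) ≤ 1 := by
      rw [Fin.sum_univ_eq_sum_range (fun k => (1 / 2 : ℝ) ^ (N + 1 - k)) (N + 1)]
      have g1 : ∀ n : ℕ, ∑ k ∈ Finset.range n, (1 / 2 : ℝ) ^ (n - k) = 1 - (1 / 2) ^ n := by
        intro n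
        rw [← Finset.sum_range_reflect]
        have g2 : ∀ k ∈ Finset.range n, (1 / 2 : ℝ) ^ (n - (n - 1 - k)) = (1 / 2) ^ (k + 1) := by
          intro k hk
          rw [Finset.mem_range] at hk
          congr 1
          omega
        rw [Finset.sum_congr rfl g2]
        clear g2
        induction n with
        | zero => simp
        | succ n ih => rw [Finset.sum_range_succ, ih]; ring
      rw [g1]
      have : (0 : ℝ) ≤ (1 / 2) ^ (N + 1) := by positivity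
      linarith
    calc _ ≤ 1 * (6 * C * (D * ‖u‖)) := mul_le_mul_of_nonneg_right f3 (by positivity)
      _ = _ := one_mul _
  have e4 : ‖∑ l, h (l, Fin.last N) u • (c l • (betaC (a l) (b l) ε (6 * C) N • y l +
      alphaC (a l) (b l) ε (6 * C) N • x l))‖ ≤ 1 / 2 * ‖u‖ := by
    refine (norm_sum_le _ _).trans ?_
    have f1 : ∀ l ∈ Finset.univ, ‖h (l, Fin.last N) u • (c l • (betaC (a l) (b l) ε (6 * C) N • y l +
        alphaC (a l) (b l) ε (6 * C) N • x l))‖ ≤ ((1 / 2 : ℝ) ^ N *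
          (D * (9 * C ^ 2 / ε * ‖y l‖ + 30 * C ^ 3 / (ε * |b l|) * ‖x l‖))) * ‖u‖ := by
      intro l _
      rw [norm_smul, norm_smul, Real.norm_eq_abs (c l)]
      have g1 := (h (l, Fin.last N)).le_opNorm u
      have g2 := H.2.1 (l, Fin.last N)
      have g3 := hc l
      have g4 : ‖betaC (a l) (b l) ε (6 * C) N • y l + alphaC (a l) (b l) ε (6 * C) N • x l‖ ≤
          9 * C ^ 2 / ε * (1 / 2) ^ N * ‖y l‖ + 30 * C ^ 3 / (ε * |b l|) * (1 / 2) ^ N * ‖x l‖ := by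
        refine (norm_add_le _ _).trans ?_
        rw [norm_smul, norm_smul, Real.norm_eq_abs, Real.norm_eq_abs]
        exact add_le_add (mul_le_mul_of_nonneg_right (beta_le hC hε (hab l) N) (norm_nonneg _))
          (mul_le_mul_of_nonneg_right (alpha_le hC hε (hb l) (hab l) N) (norm_nonneg _))
      have g5 : ‖h (l, Fin.last N) u‖ ≤ D * ‖u‖ :=
        g1.trans (mul_le_mul_of_nonneg_right g2 (norm_nonneg _))
      calc _ ≤ (D * ‖u‖) * (1 * (9 * C ^ 2 / ε * (1 / 2) ^ N * ‖y l‖ +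
            30 * C ^ 3 / (ε * |b l|) * (1 / 2) ^ N * ‖x l‖)) := by gcongr
        _ = _ := by ring
    refine (Finset.sum_le_sum f1).trans ?_
    rw [← Finset.sum_mul, ← Finset.mul_sum]
    exact mul_le_mul_of_nonneg_right h2 (norm_nonneg _)
  have e5 : ∑ l, h (l, Fin.last N) u • (c l • (∑ k : Fin (N + 1), coef (a l) (b l) (6 * C) N k • z (l, k) +
      betaC (a l) (b l) ε (6 * C) N • y l + alphaC (a l) (b l) ε (6 * C) N • x l)) =
      ∑ l, h (l, Fin.last N) u • (c l • ∑ k : Fin (N + 1), coef (a l) (b l) (6 * C) N k • z (l, k)) +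
      ∑ l, h (l, Fin.last N) u • (c l • (betaC (a l) (b l) ε (6 * C) N • y l +
      alphaC (a l) (b l) ε (6 * C) N • x l)) := by
    rw [← Finset.sum_add_distrib]
    refine Finset.sum_congr rfl fun l _ => ?_
    module
  rw [e5]
  have e6 := norm_sub_le (∑ l, w l u • (ε • z (l, 0)) +
    ∑ l, ∑ k : Fin N, h (l, k.castSucc) u • ((6 * C * c l) • z (l, k.succ)))
    (∑ l, h (l, Fin.last N) u • (c l • ∑ k : Fin (N + 1), coef (a l) (b l) (6 * C) N k • z (l, k)) +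
      ∑ l, h (l, Fin.last N) u • (c l • (betaC (a l) (b l) ε (6 * C) N • y l +
      alphaC (a l) (b l) ε (6 * C) N • x l)))
  have e7 := norm_add_le (∑ l, w l u • (ε • z (l, 0)))
    (∑ l, ∑ k : Fin N, h (l, k.castSucc) u • ((6 * C * c l) • z (l, k.succ)))
  have e8 := norm_add_le (∑ l, h (l, Fin.last N) u • (c l • ∑ k : Fin (N + 1), coef (a l) (b l) (6 * C) N k • z (l, k)))
    (∑ l, h (l, Fin.last N) u • (c l • (betaC (a l) (b l) ε (6 * C) N • y l +
      alphaC (a l) (b l) ε (6 * C) N • x l)))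
  nlinarith

end Pool.Agent.Lib.MP_846550_an
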