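import Pool.Agent.Lib.MP_846550_an.R4
import Pool.Agent.Lib.MP_846550_an.R5

/-!
# One block: a perturbation with split minimal polynomial
-/

set_option autoImplicit false

namespace Pool.Agent.Lib.MP_846550_an

open Function Polynomial Module

variable {E : Type*} [NormedAddCommGroup E] [NormedSpace ℝ E]

theorem exists_functional (D : Submodule ℝ E) [FiniteDimensional ℝ D] (K : Submodule ℝ E)
    (y : E) (hyD : y ∈ D) (hyK : y ∉ K) (q : E →L[ℝ] D) (hq : ∀ u : D, q (u : E) = u) (hKD : K ≤ D) :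
    ∃ φ : D →L[ℝ] ℝ, (∀ u ∈ K, φ (q u) = 0) ∧ φ (q y) = 1 := by
  let K' : Submodule ℝ D := K.comap D.subtype
  have hy' : (⟨y, hyD⟩ : D) ∉ K' := hyK
  obtain ⟨f, hf1, hf2⟩ := Submodule.exists_dual_map_eq_bot_of_notMem hy' inferInstance
  refine ⟨LinearMap.toContinuousLinearMap ((f ⟨y, hyD⟩)⁻¹ • f), fun u hu => ?_, ?_⟩
  · have h1 : q u = ⟨u, hKD hu⟩ := hq ⟨u, hKD hu⟩
    have h2 : (⟨u, hKD hu⟩ : D) ∈ K' := hu
    have h3 : f ⟨u, hKD hu⟩ = 0 := by
      have h4 := Submodule.mem_map_of_mem (f := f) h2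
      rw [hf2] at h4
      exact (Submodule.mem_bot ℝ).1 h4
    rw [h1]
    change (f ⟨y, hyD⟩)⁻¹ * f ⟨u, hKD hu⟩ = 0
    rw [h3, mul_zero]
  · have h1 : q y = ⟨y, hyD⟩ := hq ⟨y, hyD⟩
    rw [h1]
    change (f ⟨y, hyD⟩)⁻¹ * f ⟨y, hyD⟩ = 1
    exact inv_mul_cancel₀ hf1

theorem block {C D : ℝ} (hC : 0 < C) (hD : 0 ≤ D) (A P P1 : E →L[ℝ] E) (hA : ‖A‖ ≤ C)
    (hP1fin : FiniteDimensional ℝ (LinearMap.range (P1 : E →ₗ[ℝ] E)))
    (hPid : ∀ x, P (P x) = P x) (hP1id : ∀ x, P1 (P1 x) = P1 x) (hPP1 : ∀ x, P (P1 x) = P x)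
    (hP1P : ∀ x, P1 (P x) = P x) (hAP : ∀ x, A (P x) = P x) (hPA : ∀ x, P (A x) = P x)
    (hAP1 : ∀ x, A (P1 x) = A x) (hP1A : ∀ x, P1 (A x) = A x) :
    ∃ (ι : Type) (_ : Fintype ι), ∀ (z : ι → E) (h : ι → E →L[ℝ] ℝ), Biorth z h → SymB D z h →
      (∀ i, P1 (z i) = 0) → (∀ i x, h i (P1 x) = 0) →
      ∃ X : E →L[ℝ] E, ‖X‖ ≤ 12 * C * D + 1 ∧ (∀ x, P (X x) = 0) ∧ (∀ x, X (P x) = 0) ∧
      (∀ R : E →L[ℝ] E, (∀ i, R (z i) = z i) → (∀ i x, h i (R x) = h i x) →
        (∀ x, R (P1 x) = P1 x) → (∀ x, P1 (R x) = P1 x) → ∀ x, R (X x) = X x ∧ X (R x) = X x) ∧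
      ∃ p : ℝ[X], p ≠ 0 ∧ p.Splits ∧ aeval (((A + X : E →L[ℝ] E) : E →ₗ[ℝ] E) : Module.End ℝ E) p = 0 := by
  classical
  let Q : E →L[ℝ] E := P1 - P
  have hQ : ∀ x, Q x = P1 x - P x := fun x => rfl
  let D0 : Submodule ℝ E := LinearMap.range (Q : E →ₗ[ℝ] E)
  have hD0 : ∀ u ∈ D0, P u = 0 ∧ P1 u = u := by
    rintro _ ⟨t, rfl⟩
    change P (Q t) = 0 ∧ P1 (Q t) = Q t
    rw [hQ, map_sub, map_sub, hPP1, hPid, hP1id, hP1P]
    exact ⟨sub_self _, rfl⟩
  have hD0' : ∀ u, P u = 0 → P1 u = u → u ∈ D0 := by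
    intro u h1 h2
    refine ⟨u, ?_⟩
    change Q u = u
    rw [hQ, h1, h2, sub_zero]
  have hfd : FiniteDimensional ℝ D0 := by
    refine Submodule.finiteDimensional_of_le (S₂ := LinearMap.range (P1 : E →ₗ[ℝ] E)) ?_
    intro u hu
    exact ⟨u, (hD0 u hu).2⟩
  have hAD0 : ∀ u ∈ D0, A u ∈ D0 := by
    intro u hu
    exact hD0' _ (by rw [hPA]; exact (hD0 u hu).1) (hP1A u)
  obtain ⟨s, G, hG0, hGs, hGA, hGm, hGD, hGL⟩ := exists_flag A hA D0 hAD0
  have hmono : ∀ m n, m ≤ n → n ≤ s → G m ≤ G n := by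
    intro m n hmn
    induction n, hmn using Nat.le_induction with
    | base => intro _; exact le_rfl
    | succ n _ ih => intro hn; exact (ih (by omega)).trans (hGm n (by omega))
  let q : E →L[ℝ] D0 := Q.codRestrict D0 (fun x => ⟨x, rfl⟩)
  have hq : ∀ u : D0, q (u : E) = u := by
    intro u
    apply Subtype.ext
    change Q u = u
    rw [hQ, (hD0 u u.2).1, (hD0 u u.2).2, sub_zero]
  have hqP : ∀ u, q (P u) = 0 := by
    intro u
    apply Subtype.ext
    change Q (P u) = 0
    rw [hQ, hP1P, hPid, sub_self]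
  have hqP1 : ∀ u, q (P1 u) = q u := by
    intro u
    apply Subtype.ext
    change Q (P1 u) = Q u
    rw [hQ, hQ, hP1id, hPP1]
  have hdata : ∀ l : Fin s, ∃ (c a b : ℝ) (x y : E) (w : E →L[ℝ] ℝ), b ≠ 0 ∧
      a ^ 2 + b ^ 2 ≤ C ^ 2 ∧ |c| ≤ 1 ∧ x ∈ G (l + 1) ∧ y ∈ G (l + 1) ∧ (∀ u ∈ G l, w u = 0) ∧
      w x = 0 ∧ w y = c ∧ (∀ u, w (P u) = 0) ∧ (∀ u, w (P1 u) = w u) ∧
      ((c = 0 ∧ w = 0 ∧ ∃ a' : ℝ, ∀ u ∈ G (l + 1), A u - a' • u ∈ G l) ∨
       (c = 1 ∧ G (l + 1) ≤ G l ⊔ Submodule.span ℝ {x, y} ∧ A x - (a • x + b • y) ∈ G l ∧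
        A y - (-(b • x) + a • y) ∈ G l)) := by
    intro l
    rcases hGL l l.2 with ⟨a', ha'⟩ | ⟨a, b, x, y, hb, hab, hx, hy, hyn, hle, hAx, hAy⟩
    · refine ⟨0, 0, C, 0, 0, 0, hC.ne', by simp, by simp, Submodule.zero_mem _,
        Submodule.zero_mem _, fun u _ => rfl, rfl, rfl, fun u => rfl, fun u => rfl,
        Or.inl ⟨rfl, rfl, a', ha'⟩⟩
    · obtain ⟨φ, hφ1, hφ2⟩ := exists_functional D0 (G l ⊔ Submodule.span ℝ {x}) y (hGD _ hy) hyn q hq
        (by
          rw [sup_le_iff, Submodule.span_le, Set.singleton_subset_iff]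
          exact ⟨hGD _, hGD _ hx⟩)
      refine ⟨1, a, b, x, y, φ ∘L q, hb, hab, by simp, hx, hy,
        fun u hu => hφ1 u (Submodule.mem_sup_left hu),
        hφ1 x (Submodule.mem_sup_right (Submodule.mem_span_singleton_self x)), hφ2,
        fun u => ?_, fun u => ?_, Or.inr ⟨rfl, hle, hAx, hAy⟩⟩
      · change φ (q (P u)) = 0
        rw [hqP, map_zero]
      · change φ (q (P1 u)) = φ (q u)
        rw [hqP1]
  choose c a b x y w hb hab hc hx hy hwG hwx hwy hwP hwP1 hcase using hdata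
  -- the parameters
  set W : ℝ := ∑ l, ‖w l‖ * D with hW
  have hW0 : 0 ≤ W := Finset.sum_nonneg fun l _ => by positivity
  set ε : ℝ := 1 / (2 * (W + 1)) with hεd
  have hε : 0 < ε := by positivity
  have hεW : ε * W ≤ 1 / 2 := by
    rw [hεd, div_mul_eq_mul_div, one_mul, div_le_div_iff₀ (by positivity) (by norm_num)]
    linarith
  set K : ℝ := ∑ l, D * (9 * C ^ 2 / ε * ‖y l‖ + 30 * C ^ 3 / (ε * |b l|) * ‖x l‖) with hK
  have hK0 : 0 ≤ K := Finset.sum_nonneg fun l _ => by positivity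
  obtain ⟨N, hN⟩ := exists_pow_lt_of_lt_one (show (0 : ℝ) < 1 / (2 * (K + 1)) by positivity)
    (show (1 / 2 : ℝ) < 1 by norm_num)
  have hNK : (1 / 2 : ℝ) ^ N * K ≤ 1 / 2 := by
    calc (1 / 2 : ℝ) ^ N * K ≤ 1 / (2 * (K + 1)) * K := mul_le_mul_of_nonneg_right hN.le hK0
      _ ≤ 1 / 2 := by
          rw [div_mul_eq_mul_div, one_mul, div_le_div_iff₀ (by positivity) (by norm_num)]
          linarith
  refine ⟨Fin s × Fin (N + 1), inferInstance, fun z h hbi hsy hz hh => ?_⟩
  let X : E →L[ℝ] E := chainOp s N z h c a b x y w ε (6 * C)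
  have hX : ∀ u, X u = ∑ l, w l u • (ε • z (l, 0)) +
      ∑ l, ∑ k : Fin N, h (l, k.castSucc) u • ((6 * C * c l) • z (l, k.succ)) -
      ∑ l, h (l, Fin.last N) u • (c l • (∑ k : Fin (N + 1), coef (a l) (b l) (6 * C) N k • z (l, k) +
        betaC (a l) (b l) ε (6 * C) N • y l + alphaC (a l) (b l) ε (6 * C) N • x l)) :=
    fun u => chainOp_apply s N z h c a b x y w ε (6 * C) u
  have hwz : ∀ l i, w l (z i) = 0 := fun l i => by rw [← hwP1, hz, map_zero]
  have hPz : ∀ i, P (z i) = 0 := fun i => by rw [← hPP1, hz, map_zero]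
  have hAz : ∀ i, A (z i) = 0 := fun i => by rw [← hAP1, hz, map_zero]
  have hPx : ∀ l, P (x l) = 0 := fun l => (hD0 _ (hGD _ (hx l))).1
  have hPy : ∀ l, P (y l) = 0 := fun l => (hD0 _ (hGD _ (hy l))).1
  have hP1x : ∀ l, P1 (x l) = x l := fun l => (hD0 _ (hGD _ (hx l))).2
  have hP1y : ∀ l, P1 (y l) = y l := fun l => (hD0 _ (hGD _ (hy l))).2
  have hhP1 : ∀ i u, P1 u = u → h i u = 0 := fun i u hu => by rw [← hu, hh]
  refine ⟨X, chainOp_norm hD hC hsy c a b x y w hε hc hb hab hεW hNK, ?_, ?_, ?_, ?_⟩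
  · intro u
    rw [hX]
    simp only [map_sub, map_add, map_sum, map_smul, hPz, hPx, hPy, smul_zero,
      Finset.sum_const_zero, add_zero, sub_zero]
  · intro u
    rw [hX]
    have h1 : ∀ i, h i (P u) = 0 := fun i => hhP1 i _ (hP1P u)
    simp only [hwP, h1, zero_smul, Finset.sum_const_zero, add_zero, sub_zero]
  · intro R hRz hhR hRP1 hP1R u
    have hRx : ∀ l, R (x l) = x l := fun l => by
      have := hRP1 (x l)
      rwa [hP1x] at this
    have hRy : ∀ l, R (y l) = y l := fun l => by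
      have := hRP1 (y l)
      rwa [hP1y] at this
    constructor
    · rw [hX]
      simp only [map_sub, map_add, map_sum, map_smul, hRz, hRx, hRy]
    · rw [hX, hX]
      have h1 : ∀ l, w l (R u) = w l u := fun l => by rw [← hwP1, hP1R, hwP1]
      simp only [h1, hhR]
  -- the polynomial
  set M : Module.End ℝ E := (((A + X : E →L[ℝ] E) : E →ₗ[ℝ] E) : Module.End ℝ E) with hM
  have hMu : ∀ u, M u = A u + X u := fun u => rfl
  have hXG : ∀ u, P1 u = u → X u = ∑ l, w l u • (ε • z (l, 0)) := by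
    intro u hu
    rw [hX]
    have h1 : ∀ i, h i u = 0 := fun i => hhP1 i u hu
    simp only [h1, zero_smul, Finset.sum_const_zero, add_zero, sub_zero]
  have hXz1 : ∀ (l : Fin s) (k : Fin N), X (z (l, k.castSucc)) = (6 * C * c l) • z (l, k.succ) := by
    intro l k
    rw [hX]
    have h1 : ∀ l', h (l', Fin.last N) (z (l, k.castSucc)) = 0 := fun l' =>
      hbi.2 _ _ (fun h => by
        have := (Prod.mk.injEq _ _ _ _ ▸ h).2
        exact (Fin.castSucc_lt_last k).ne this.symm)
    simp only [h1, hwz, zero_smul, Finset.sum_const_zero, zero_add, sub_zero]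
    rw [Finset.sum_eq_single l, Finset.sum_eq_single k]
    · rw [hbi.1, one_smul]
    · intro k' _ hk'
      rw [hbi.2 _ _ (fun h => hk' (by
        have := (Prod.mk.injEq _ _ _ _ ▸ h).2
        exact Fin.castSucc_injective _ this)), zero_smul]
    · intro h
      exact absurd (Finset.mem_univ _) h
    · intro l' _ hl'
      refine Finset.sum_eq_zero fun k' _ => ?_
      rw [hbi.2 _ _ (fun h => hl' (Prod.mk.injEq _ _ _ _ ▸ h).1), zero_smul]
    · intro h
      exact absurd (Finset.mem_univ _) h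
  have hXz2 : ∀ l : Fin s, X (z (l, Fin.last N)) =
      -(c l • (∑ k : Fin (N + 1), coef (a l) (b l) (6 * C) N k • z (l, k) +
        betaC (a l) (b l) ε (6 * C) N • y l + alphaC (a l) (b l) ε (6 * C) N • x l)) := by
    intro l
    rw [hX]
    have h1 : ∀ l' (k : Fin N), h (l', k.castSucc) (z (l, Fin.last N)) = 0 := fun l' k =>
      hbi.2 _ _ (fun h => by
        have := (Prod.mk.injEq _ _ _ _ ▸ h).2
        exact (Fin.castSucc_lt_last k).ne this)
    simp only [h1, hwz, zero_smul, Finset.sum_const_zero, add_zero, zero_sub]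
    congr 1
    rw [Finset.sum_eq_single l]
    · rw [hbi.1, one_smul]
    · intro l' _ hl'
      rw [hbi.2 _ _ (fun h => hl' (Prod.mk.injEq _ _ _ _ ▸ h).1), zero_smul]
    · intro h
      exact absurd (Finset.mem_univ _) h
  let U : ℕ → Submodule ℝ E := fun n => G n ⊔ Submodule.span ℝ
    {u | ∃ l : Fin s, (l : ℕ) < n ∧ ∃ k : Fin (N + 1), u = z (l, k)}
  have hGU : ∀ n, G n ≤ U n := fun n => le_sup_left
  have hzU : ∀ n (l : Fin s) (k : Fin (N + 1)), (l : ℕ) < n → z (l, k) ∈ U n := fun n l k hl =>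
    Submodule.mem_sup_right (Submodule.subset_span ⟨l, hl, k, rfl⟩)
  have hUle : ∀ n (V : Submodule ℝ E), G n ≤ V → (∀ (l : Fin s) (k : Fin (N + 1)), (l : ℕ) < n →
      z (l, k) ∈ V) → U n ≤ V := by
    intro n V h1 h2
    rw [sup_le_iff, Submodule.span_le]
    refine ⟨h1, ?_⟩
    rintro _ ⟨l, hl, k, rfl⟩
    exact h2 l k hl
  have hXU : ∀ n, n ≤ s → ∀ (u : E), u ∈ G n → X u ∈ U n := by
    intro n hn u hu
    rw [hXG u (hD0 _ (hGD _ hu)).2]
    refine Submodule.sum_mem _ fun l _ => ?_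
    by_cases hl : (l : ℕ) < n
    · exact Submodule.smul_mem _ _ (Submodule.smul_mem _ _ (hzU n l 0 hl))
    · rw [hwG l u (hmono n l (by omega) l.2.le hu), zero_smul]
      exact Submodule.zero_mem _
  have hMU : ∀ n, n ≤ s → ∀ u ∈ U n, M u ∈ U n := by
    intro n hn
    have h1 : U n ≤ (U n).comap M := by
      refine hUle n _ (fun u hu => ?_) (fun l k hl => ?_)
      · rw [Submodule.mem_comap, hMu]
        exact Submodule.add_mem _ (hGU n (hGA n u hu)) (hXU n hn u hu)
      · rw [Submodule.mem_comap, hMu, hAz, zero_add]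
        induction k using Fin.lastCases with
        | last =>
          rw [hXz2]
          refine Submodule.neg_mem _ (Submodule.smul_mem _ _ (Submodule.add_mem _ (Submodule.add_mem _
            (Submodule.sum_mem _ fun k _ => Submodule.smul_mem _ _ (hzU n l k hl)) ?_) ?_))
          · exact Submodule.smul_mem _ _ (hGU n (hmono (l + 1) n (by omega) hn (hy l)))
          · exact Submodule.smul_mem _ _ (hGU n (hmono (l + 1) n (by omega) hn (hx l)))
        | cast k =>
          rw [hXz1]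
          exact Submodule.smul_mem _ _ (hzU n l _ hl)
    exact fun u hu => h1 hu
  have hpU : ∀ n, n ≤ s → ∀ (p : ℝ[X]), ∀ u ∈ U n, aeval M p u ∈ U n := by
    intro n hn p
    have hpow : ∀ (k : ℕ), ∀ u ∈ U n, (M ^ k) u ∈ U n := by
      intro k
      induction k with
      | zero => intro u hu; simpa using hu
      | succ k ih =>
        intro u hu
        rw [pow_succ, Module.End.mul_apply]
        exact ih _ (hMU n hn u hu)
    induction p using Polynomial.induction_on' with
    | add p q hp hq =>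
      intro u hu
      rw [map_add, LinearMap.add_apply]
      exact Submodule.add_mem _ (hp u hu) (hq u hu)
    | monomial k r =>
      intro u hu
      rw [aeval_monomial, Module.End.mul_apply, Module.algebraMap_end_apply]
      exact Submodule.smul_mem _ _ (hpow k u hu)
  have hstep : ∀ l : Fin s, ∃ p : ℝ[X], p ≠ 0 ∧ p.Splits ∧ ∀ u ∈ U (l + 1), aeval M p u ∈ U l := by
    intro l
    have hls : (l : ℕ) ≤ s := l.2.le
    have hls1 : (l : ℕ) + 1 ≤ s := l.2
    rcases hcase l with ⟨hc0, hw0, a', ha'⟩ | ⟨hc1, hle, hAx, hAy⟩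
    · refine ⟨Polynomial.X * (Polynomial.X - Polynomial.C a'), mul_ne_zero X_ne_zero (X_sub_C_ne_zero a'),
        Splits.mul Splits.X (Splits.X_sub_C a'), ?_⟩
      have h0 : ∀ u, aeval M (Polynomial.X * (Polynomial.X - Polynomial.C a')) u = M (M u - a' • u) := by
        intro u
        simp only [map_mul, map_sub, aeval_X, aeval_C, Module.End.mul_apply, LinearMap.sub_apply,
          Module.algebraMap_end_apply]
      have h1 : U (l + 1) ≤ (U l).comap (aeval M (Polynomial.X * (Polynomial.X - Polynomial.C a'))) := by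
        refine hUle _ _ (fun u hu => ?_) (fun l' k hl' => ?_)
        · rw [Submodule.mem_comap, h0]
          refine hMU l hls _ ?_
          have h2 : M u - a' • u = (A u - a' • u) + X u := by rw [hMu]; abel
          rw [h2]
          refine Submodule.add_mem _ (hGU _ (ha' u hu)) ?_
          rw [hXG u (hD0 _ (hGD _ hu)).2]
          refine Submodule.sum_mem _ fun l' _ => ?_
          rcases lt_trichotomy (l' : ℕ) (l : ℕ) with h3 | h3 | h3
          · exact Submodule.smul_mem _ _ (Submodule.smul_mem _ _ (hzU _ l' 0 h3))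
          · have h4 : l' = l := Fin.ext h3
            rw [h4, hw0, zero_apply, zero_smul]
            exact Submodule.zero_mem _
          · rw [hwG l' u (hmono (l + 1) l' (by omega) l'.2.le hu), zero_smul]
            exact Submodule.zero_mem _
        · rw [Submodule.mem_comap]
          rcases Nat.lt_succ_iff_lt_or_eq.1 hl' with h3 | h3
          · exact hpU l hls _ _ (hzU _ l' k h3)
          · have h4 : l' = l := Fin.ext h3
            subst h4
            have h5 : M (z (l', k)) = 0 := by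
              rw [hMu, hAz, zero_add]
              induction k using Fin.lastCases with
              | last => rw [hXz2, hc0, zero_smul, neg_zero]
              | cast k => rw [hXz1, hc0, mul_zero, zero_smul]
            rw [h0, map_sub, h5, map_zero, map_smul, h5, smul_zero, sub_zero]
            exact Submodule.zero_mem _
      exact fun u hu => h1 hu
    · refine ⟨Polynomial.X ^ (N + 3), pow_ne_zero _ X_ne_zero, Splits.X_pow _, ?_⟩
      let V := E ⧸ (U l)
      have hcomap : U l ≤ (U l).comap M := fun u hu => hMU l hls u hu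
      let Mq : Module.End ℝ V := (U l).mapQ (U l) M hcomap
      have hMq : ∀ u, (U l).mkQ (M u) = Mq ((U l).mkQ u) := fun u => rfl
      have hmk0 : ∀ u, u ∈ U l → (U l).mkQ u = 0 := fun u hu => (Submodule.Quotient.mk_eq_zero _).2 hu
      have hmk0' : ∀ u, (U l).mkQ u = 0 → u ∈ U l := fun u hu => (Submodule.Quotient.mk_eq_zero _).1 hu
      let zf : ℕ → V := fun k => if hk : k < N + 1 then (U l).mkQ (z (l, ⟨k, hk⟩)) else 0
      have hzf : ∀ k : Fin (N + 1), zf k = (U l).mkQ (z (l, k)) := by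
        intro k
        simp only [zf, k.2, dif_pos]
      have hXx : ∀ u ∈ G (l + 1), (U l).mkQ (X u) = w l u • (ε • zf 0) := by
        intro u hu
        rw [hXG u (hD0 _ (hGD _ hu)).2, map_sum]
        rw [Finset.sum_eq_single l]
        · rw [map_smul, map_smul]
          have := hzf 0
          rw [Fin.val_zero] at this
          rw [this]
        · intro l' _ hl'
          rcases lt_or_gt_of_ne (fun h => hl' (Fin.ext h) : (l' : ℕ) ≠ l) with h3 | h3
          · rw [map_smul, map_smul, hmk0 _ (hzU _ l' 0 h3), smul_zero, smul_zero]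
          · rw [hwG l' u (hmono (l + 1) l' (by omega) l'.2.le hu), zero_smul, map_zero]
        · intro h
          exact absurd (Finset.mem_univ _) h
      have r1 : Mq ((U l).mkQ (x l)) = a l • (U l).mkQ (x l) + b l • (U l).mkQ (y l) := by
        rw [← hMq, hMu, map_add, hXx _ (hx l), hwx, zero_smul, add_zero, ← sub_eq_zero,
          ← map_smul, ← map_smul, ← map_add, ← map_sub]
        exact hmk0 _ (hGU _ hAx)
      have r2 : Mq ((U l).mkQ (y l)) = -(b l • (U l).mkQ (x l)) + a l • (U l).mkQ (y l) + ε • zf 0 := by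
        rw [← hMq, hMu, map_add, hXx _ (hy l), hwy, hc1, one_smul]
        congr 1
        rw [← sub_eq_zero, ← map_smul, ← map_smul, ← map_neg, ← map_add, ← map_sub]
        exact hmk0 _ (hGU _ hAy)
      have r3 : ∀ k < N, Mq (zf k) = (6 * C) • zf (k + 1) := by
        intro k hk
        have e1 : zf k = (U l).mkQ (z (l, (⟨k, hk⟩ : Fin N).castSucc)) := hzf ((⟨k, hk⟩ : Fin N).castSucc)
        have e2 : zf (k + 1) = (U l).mkQ (z (l, (⟨k, hk⟩ : Fin N).succ)) := hzf ((⟨k, hk⟩ : Fin N).succ)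
        rw [e1, e2, ← hMq, hMu, hAz, zero_add, hXz1, hc1, mul_one, map_smul]
      have r4 : Mq (zf N) = -(∑ k ∈ Finset.range (N + 1),
          (HH (a l) (b l) (N + 1 - k) * ((6 * C) ^ (N - k))⁻¹) • zf k +
          (HH (a l) (b l) (N + 2) / (ε * (6 * C) ^ N)) • (U l).mkQ (y l) +
          ((a l * HH (a l) (b l) (N + 2) - (a l ^ 2 + b l ^ 2) * HH (a l) (b l) (N + 1)) /
            (ε * b l * (6 * C) ^ N)) • (U l).mkQ (x l)) := by
        have e1 : zf N = (U l).mkQ (z (l, Fin.last N)) := hzf (Fin.last N)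
        rw [e1, ← hMq, hMu, hAz, zero_add, hXz2, hc1, one_smul, map_neg, map_add, map_add, map_sum,
          map_smul, map_smul, Finset.sum_range]
        congr 3
        refine Finset.sum_congr rfl fun k _ => ?_
        rw [map_smul, hzf]
        rfl
      have h6C : (6 * C : ℝ) ≠ 0 := by positivity
      obtain ⟨n1, n2, n3⟩ := chain_nil Mq N (a l) (b l) ε (6 * C) (hb l) hε.ne' h6C
        ((U l).mkQ (x l)) ((U l).mkQ (y l)) zf r1 r2 r3 r4
      have hback : ∀ u, (Mq ^ (N + 3)) ((U l).mkQ u) = 0 → aeval M (Polynomial.X ^ (N + 3) : ℝ[X]) u ∈ U l := by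
        intro u hu
        apply hmk0'
        rw [intertwine (U l).mkQ M Mq hMq, aeval_X_pow]
        exact hu
      have h1 : U (l + 1) ≤ (U l).comap (aeval M (Polynomial.X ^ (N + 3) : ℝ[X])) := by
        refine hUle _ _ ?_ (fun l' k hl' => ?_)
        · refine hle.trans ?_
          rw [sup_le_iff, Submodule.span_le]
          constructor
          · intro u hu
            exact hpU l hls _ u (hGU _ hu)
          · rintro u (rfl | rfl)
            · exact hback _ n1
            · exact hback _ n2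
        · rw [Submodule.mem_comap]
          rcases Nat.lt_succ_iff_lt_or_eq.1 hl' with h3 | h3
          · exact hpU l hls _ _ (hzU _ l' k h3)
          · have h4 : l' = l := Fin.ext h3
            subst h4
            apply hback
            rw [← hzf]
            exact n3 k (by omega)
      exact fun u hu => h1 hu
  have htri : ∀ n, n ≤ s → ∃ p : ℝ[X], p ≠ 0 ∧ p.Splits ∧ ∀ u ∈ U n, aeval M p u = 0 := by
    intro n
    induction n with
    | zero =>
      intro _
      refine ⟨1, one_ne_zero, Splits.one, fun u hu => ?_⟩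
      have h1 : U 0 ≤ ⊥ := hUle 0 ⊥ (by rw [hG0]) (fun l k hl => absurd hl (by omega))
      have h2 : u = 0 := by simpa using h1 hu
      rw [h2, map_zero]
    | succ n ih =>
      intro hn
      obtain ⟨p, hp0, hps, hp⟩ := ih (by omega)
      obtain ⟨q, hq0, hqs, hq⟩ := hstep ⟨n, by omega⟩
      refine ⟨p * q, mul_ne_zero hp0 hq0, hps.mul hqs, fun u hu => ?_⟩
      rw [map_mul, Module.End.mul_apply]
      exact hp _ (hq u hu)
  obtain ⟨p, hp0, hps, hp⟩ := htri s le_rfl
  refine ⟨p * ((Polynomial.X - Polynomial.C 1) * Polynomial.X),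
    mul_ne_zero hp0 (mul_ne_zero (X_sub_C_ne_zero 1) X_ne_zero),
    hps.mul ((Splits.X_sub_C 1).mul Splits.X), ?_⟩
  apply LinearMap.ext
  intro u
  have h0 : aeval M (p * ((Polynomial.X - Polynomial.C 1) * Polynomial.X)) u = aeval M p (M (M u) - M u) := by
    simp only [map_mul, map_sub, aeval_X, aeval_C, Module.End.mul_apply, LinearMap.sub_apply,
      Module.algebraMap_end_apply, one_smul]
  rw [h0, LinearMap.zero_apply]
  have hXs : X u ∈ U s := by
    rw [hX]
    refine Submodule.sub_mem _ (Submodule.add_mem _ (Submodule.sum_mem _ fun l _ => ?_)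
      (Submodule.sum_mem _ fun l _ => Submodule.sum_mem _ fun k _ => ?_))
      (Submodule.sum_mem _ fun l _ => ?_)
    · exact Submodule.smul_mem _ _ (Submodule.smul_mem _ _ (hzU s l 0 l.2))
    · exact Submodule.smul_mem _ _ (Submodule.smul_mem _ _ (hzU s l _ l.2))
    · refine Submodule.smul_mem _ _ (Submodule.smul_mem _ _ (Submodule.add_mem _ (Submodule.add_mem _
        (Submodule.sum_mem _ fun k _ => Submodule.smul_mem _ _ (hzU s l k l.2)) ?_) ?_))
      · exact Submodule.smul_mem _ _ (hGU s (hmono (l + 1) s l.2 le_rfl (hy l)))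
      · exact Submodule.smul_mem _ _ (hGU s (hmono (l + 1) s l.2 le_rfl (hx l)))
  have hAs : A u - P (A u) ∈ U s := by
    refine hGU s ?_
    rw [hGs]
    refine hD0' _ ?_ ?_
    · rw [map_sub, hPid, sub_self]
    · rw [map_sub, hP1A, hP1P]
  have hMP : M (P (A u)) = P (A u) := by
    rw [hMu, hAP, hX]
    have h1 : ∀ i, h i (P (A u)) = 0 := fun i => hhP1 i _ (hP1P _)
    simp only [hwP, h1, zero_smul, Finset.sum_const_zero, add_zero, sub_zero]
  have h1 : M (M u) - M u = M (A u - P (A u) + X u) - (A u - P (A u) + X u) := by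
    have h2 : M u = P (A u) + (A u - P (A u) + X u) := by rw [hMu]; abel
    conv_lhs => rw [h2]
    rw [map_add, hMP]
    abel
  rw [h1]
  have h3 : A u - P (A u) + X u ∈ U s := Submodule.add_mem _ hAs hXs
  exact hp _ (Submodule.sub_mem _ (hMU s le_rfl _ h3) h3)

end Pool.Agent.Lib.MP_846550_an
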