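import Pool.Agent.Lib.MP_846550_an.R2
import Pool.Agent.Lib.MP_846550_an.R6
import Pool.Agent.Lib.MP_846550_an.Chain

/-!
# Real spaces: a commuting approximating sequence with real spectra
-/

set_option autoImplicit false

namespace Pool.Agent.Lib.MP_846550_an

open Filter Topology

variable {E : Type*} [NormedAddCommGroup E] [NormedSpace ℝ E]

theorem real_sequence [CompleteSpace E] {D : ℝ} (hD : 0 ≤ D)
    (hS : ∀ n : ℕ, ∃ (z : Fin n → E) (h : Fin n → E →L[ℝ] ℝ), Biorth z h ∧ SymB D z h)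
    (T : ℕ → E →L[ℝ] E)
    (hfin : ∀ k, FiniteDimensional ℝ (LinearMap.range (T k : E →ₗ[ℝ] E)))
    (hcomm : ∀ j k x, T j (T k x) = T k (T j x))
    (hlim : ∀ y, Tendsto (fun k => T k y) atTop (𝓝 y)) :
    ∃ T' : ℕ → E →L[ℝ] E, (∀ k, FiniteDimensional ℝ (LinearMap.range (T' k : E →ₗ[ℝ] E))) ∧
      (∀ j k x, T' j (T' k x) = T' k (T' j x)) ∧ (∀ y, Tendsto (fun k => T' k y) atTop (𝓝 y)) ∧
      ∀ k, ∃ p : Polynomial ℝ, p ≠ 0 ∧ p.Splits ∧
        Polynomial.aeval ((T' k : E →ₗ[ℝ] E) : Module.End ℝ E) p = 0 := by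
  obtain ⟨K, P, hP0, hP⟩ := chain T hfin hcomm hlim
  have hK : ∀ j, j ≤ K j := fun j => (hP j).1
  have hsmall : ∀ j x, ‖T (K j) (P j x) - P j x‖ ≤ (1 / 2) ^ j * ‖x‖ := fun j => (hP j).2.1
  have hTP : ∀ j x, T (K j) (P (j + 1) x) = T (K j) x := fun j => (hP j).2.2.1
  have hPP1 : ∀ j x, P j (P (j + 1) x) = P j x := fun j => (hP j).2.2.2.1
  have hPP2 : ∀ j x, P (j + 1) (P j x) = P j x := fun j => (hP j).2.2.2.2.1
  have hPfin : ∀ j, FiniteDimensional ℝ (LinearMap.range (P j : E →ₗ[ℝ] E)) :=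
    fun j => (hP j).2.2.2.2.2.1
  have hPid : ∀ j x, P j (P j x) = P j x := fun j => (hP j).2.2.2.2.2.2.1
  have hPT : ∀ j k x, T k (P j x) = P j (T k x) := fun j => (hP j).2.2.2.2.2.2.2
  have hle : ∀ i j, i ≤ j → ∀ x, P i (P j x) = P i x ∧ P j (P i x) = P i x := by
    intro i j hij
    induction j, hij using Nat.le_induction with
    | base => intro x; exact ⟨hPid i x, hPid i x⟩
    | succ j _ ih =>
      intro x
      constructor
      · rw [← (ih (P (j + 1) x)).1, hPP1, (ih x).1]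
      · conv_lhs => rw [← (ih x).2]
        rw [hPP2, (ih x).2]
  have hPPc : ∀ i j x, P i (P j x) = P j (P i x) := by
    intro i j x
    rcases le_total i j with h | h
    · rw [(hle i j h x).1, (hle i j h x).2]
    · rw [(hle j i h x).1, (hle j i h x).2]
  obtain ⟨C0, hC0⟩ : ∃ C : ℝ, ∀ k, ‖T k‖ ≤ C := by
    apply banach_steinhaus
    intro y
    obtain ⟨C, hC⟩ := (Metric.isBounded_range_of_tendsto _ (hlim y)).exists_norm_le
    exact ⟨C, fun i => hC _ ⟨i, rfl⟩⟩
  have hC00 : 0 ≤ C0 := (norm_nonneg _).trans (hC0 0)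
  set C : ℝ := C0 + 1 with hCd
  have hC : 0 < C := by positivity
  let A : ℕ → E →L[ℝ] E := fun j => P j + T (K j) - T (K j) ∘L P j
  have hA : ∀ j x, A j x = P j x + T (K j) x - T (K j) (P j x) := fun j x => rfl
  have hAn : ∀ j, ‖A j‖ ≤ C := by
    intro j
    refine ContinuousLinearMap.opNorm_le_bound _ hC.le fun x => ?_
    have e1 : A j x = T (K j) x - (T (K j) (P j x) - P j x) := by rw [hA]; abel
    rw [e1]
    refine (norm_sub_le _ _).trans ?_
    have e2 := (T (K j)).le_opNorm x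
    have e3 : ‖T (K j)‖ * ‖x‖ ≤ C0 * ‖x‖ := mul_le_mul_of_nonneg_right (hC0 _) (norm_nonneg _)
    have e4 := hsmall j x
    have e5 : (1 / 2 : ℝ) ^ j * ‖x‖ ≤ 1 * ‖x‖ :=
      mul_le_mul_of_nonneg_right (pow_le_one₀ (by norm_num) (by norm_num)) (norm_nonneg _)
    rw [hCd, add_mul]
    linarith
  have hAlim : ∀ y, Tendsto (fun j => A j y) atTop (𝓝 y) := by
    intro y
    have hKt : Tendsto K atTop atTop := tendsto_atTop_mono hK tendsto_id
    have a1 : Tendsto (fun j => T (K j) y) atTop (𝓝 y) := (hlim y).comp hKt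
    have hgeo : Tendsto (fun j : ℕ => (1 / 2 : ℝ) ^ j * ‖y‖) atTop (𝓝 0) := by
      have := (tendsto_pow_atTop_nhds_zero_of_lt_one (r := (1 / 2 : ℝ)) (by norm_num)
        (by norm_num)).mul_const ‖y‖
      simpa using this
    have a2 : Tendsto (fun j => T (K j) (P j y) - P j y) atTop (𝓝 0) :=
      squeeze_zero_norm (fun j => hsmall j y) hgeo
    have a3 := a1.sub a2
    rw [sub_zero] at a3
    refine a3.congr fun j => ?_
    rw [hA]
    abel
  have hAP : ∀ j x, A j (P j x) = P j x := fun j x => by rw [hA, hPid, add_sub_cancel_right]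
  have hPA : ∀ j x, P j (A j x) = P j x := fun j x => by
    rw [hA, map_sub, map_add, hPid, ← hPT, ← hPT, hPid, add_sub_cancel_right]
  have hAP1 : ∀ j x, A j (P (j + 1) x) = A j x := fun j x => by rw [hA, hA, hPP1, hTP]
  have hP1A : ∀ j x, P (j + 1) (A j x) = A j x := fun j x => by
    rw [hA, map_sub, map_add, hPP2, ← hPT, ← hPT, hPP2, hTP]
  have hPAc : ∀ i N x, P i (A N x) = A N (P i x) := by
    intro i N x
    rw [hA, hA, map_sub, map_add, hPPc i N, ← hPT, ← hPT, hPPc i N]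
  set D' : ℝ := C * C * (2 * D) + C * (2 * D) + 1 with hD'
  have hD'0 : 0 ≤ D' := by positivity
  have hmain : ∀ j, ∃ (m : ℕ) (X : E →L[ℝ] E), j < m ∧ ‖X‖ ≤ 12 * C * D' + 1 ∧
      (∀ x, P j (X x) = 0) ∧ (∀ x, X (P j x) = 0) ∧ (∀ x, P m (X x) = X x) ∧
      (∀ x, X (P m x) = X x) ∧ ∃ p : Polynomial ℝ, p ≠ 0 ∧ p.Splits ∧
        Polynomial.aeval (((A j + X : E →L[ℝ] E) : E →ₗ[ℝ] E) : Module.End ℝ E) p = 0 := by
    intro j
    obtain ⟨ι, hι, hblock⟩ := block hC hD'0 (A j) (P j) (P (j + 1)) (hAn j) (hPfin (j + 1))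
      (hPid j) (hPid (j + 1)) (hPP1 j) (hPP2 j) (hAP j) (hPA j) (hAP1 j) (hP1A j)
    obtain ⟨N, hN, z, h, hb, hs, hPz, hhP, hzA, hhA⟩ := placement hD hC.le hS A hAn hAlim
      (P (j + 1)) (hPfin (j + 1)) (hPid (j + 1)) (hPAc (j + 1)) ι (j + 1)
    obtain ⟨X, hXn, hPX, hXP, hR, hsplit⟩ := hblock z h hb hs hPz hhP
    have hRR := hR (P (N + 1)) (fun i => by
        obtain ⟨y, hy⟩ := hzA i
        rw [hy, hP1A]) (fun i x => by
        obtain ⟨φ, hφ⟩ := hhA i
        rw [hφ, hφ, hAP1]) (fun x => (hle (j + 1) (N + 1) (by omega) x).2)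
        (fun x => (hle (j + 1) (N + 1) (by omega) x).1)
    exact ⟨N + 1, X, by omega, hXn, hPX, hXP, fun x => (hRR x).1, fun x => (hRR x).2, hsplit⟩
  choose m X hjm hXn hPX hXP hPmX hXPm hsplit using hmain
  let n : ℕ → ℕ := fun i => Nat.rec 0 (fun _ j => m j) i
  have hn : ∀ i, n (i + 1) = m (n i) := fun i => rfl
  have hnlt : ∀ i, n i < n (i + 1) := fun i => by rw [hn]; exact hjm _
  have hnmono : StrictMono n := strictMono_nat_of_lt_succ hnlt
  let T' : ℕ → E →L[ℝ] E := fun i => A (n i) + X (n i)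
  have hT' : ∀ i x, T' i x = A (n i) x + X (n i) x := fun i x => rfl
  have hPmA : ∀ j k x, j < k → P k (A j x) = A j x := by
    intro j k x hjk
    rw [← hP1A j x, (hle (j + 1) k hjk _).2]
  have hAPm : ∀ j k x, j < k → A j (P k x) = A j x := by
    intro j k x hjk
    rw [← hAP1 j (P k x), (hle (j + 1) k hjk x).1, hAP1]
  have f1 : ∀ i k, i < k → ∀ x, P (n k) (T' i x) = T' i x := by
    intro i k hik x
    have h1 : n (i + 1) ≤ n k := hnmono.monotone hik
    rw [hT', map_add, hPmA _ _ _ (lt_of_lt_of_le (hnlt i) h1)]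
    congr 1
    rw [← hPmX (n i) x, ← hn, (hle _ _ h1 _).2]
  have f2 : ∀ i k, i < k → ∀ x, T' i (P (n k) x) = T' i x := by
    intro i k hik x
    have h1 : n (i + 1) ≤ n k := hnmono.monotone hik
    rw [hT', hT', hAPm _ _ _ (lt_of_lt_of_le (hnlt i) h1)]
    congr 1
    rw [← hXPm (n i) (P (n k) x), ← hn, (hle _ _ h1 _).1, hn, hXPm]
  have f3 : ∀ k x, T' k (P (n k) x) = P (n k) x := by
    intro k x
    rw [hT', hAP, hXP, add_zero]
  have f4 : ∀ k x, P (n k) (T' k x) = P (n k) x := by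
    intro k x
    rw [hT', map_add, hPA, hPX, add_zero]
  have f5 : ∀ i k, i < k → ∀ x, T' k (T' i x) = T' i x ∧ T' i (T' k x) = T' i x := by
    intro i k hik x
    constructor
    · rw [← f1 i k hik x, f3]
    · rw [← f2 i k hik (T' k x), f4, f2 i k hik]
  refine ⟨T', ?_, ?_, ?_, fun k => hsplit (n k)⟩
  · intro k
    have := hPfin (n (k + 1))
    refine Submodule.finiteDimensional_of_le (S₂ := LinearMap.range (P (n (k + 1)) : E →ₗ[ℝ] E)) ?_
    rintro _ ⟨x, rfl⟩
    exact ⟨T' k x, f1 k (k + 1) (Nat.lt_succ_self k) x⟩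
  · intro j k x
    rcases lt_trichotomy j k with h | h | h
    · rw [(f5 j k h x).1, (f5 j k h x).2]
    · rw [h]
    · rw [(f5 k j h x).1, (f5 k j h x).2]
  · intro y
    have hnt : Tendsto n atTop atTop := hnmono.tendsto_atTop
    have h1 : Tendsto (fun i => A (n i) y) atTop (𝓝 y) := (hAlim y).comp hnt
    have h2 : Tendsto (fun i => X (n i) y) atTop (𝓝 0) := by
      have h3 : Tendsto (fun i => (12 * C * D' + 1) * ‖y - A (n i - 1) y‖) atTop (𝓝 0) := by
        have hnt' : Tendsto (fun i => n i - 1) atTop atTop := (tendsto_sub_atTop_nat 1).comp hnt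
        have h4 := ((hAlim y).comp hnt').const_sub y
        rw [sub_self] at h4
        have h5 := h4.norm.const_mul (12 * C * D' + 1)
        rw [norm_zero, mul_zero] at h5
        exact h5
      refine squeeze_zero_norm' ?_ h3
      filter_upwards [eventually_ge_atTop 1] with i hi
      have h6 : 1 ≤ n i := hi.trans (hnmono.le_apply)
      have h7 : X (n i) (A (n i - 1) y) = 0 := by
        rw [← hPmA (n i - 1) (n i) y (by omega), hXP]
      have h8 : X (n i) y = X (n i) (y - A (n i - 1) y) := by rw [map_sub, h7, sub_zero]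
      rw [h8]
      exact ((X (n i)).le_opNorm _).trans (mul_le_mul_of_nonneg_right (hXn _) (norm_nonneg _))
    have h9 := h1.add h2
    rw [add_zero] at h9
    exact h9

end Pool.Agent.Lib.MP_846550_an
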