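import Pool.Agent.Lib.MP_846550_an.R7
import Pool.Agent.Lib.MP_846550_an.Defs
import Pool.Agent.Lib.MP_846550_an.Final

/-!
# Real spaces with long complemented symmetric systems
-/

set_option autoImplicit false

namespace Pool.Agent.Lib.MP_846550_an

open Function Filter Topology

/-- `E` contains arbitrarily long uniformly complemented, uniformly symmetric systems: for some `D`
and every `n` there are `z 1, ..., z n` in `E` and functionals `h 1, ..., h n`, biorthogonal and of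
norm at most `D`, such that for all injective maps `u`, `t` into `{1, ..., n}` and all numbers `α k`
with `|α k| ≤ 1` the operator `x ↦ ∑ k, α k * h (u k) x * z (t k)` has norm at most `D`. -/
def HasSymmetricSystems (E : Type) [NormedAddCommGroup E] [NormedSpace ℝ E] : Prop :=
  ∃ D : ℝ, ∀ n : ℕ, ∃ (z : Fin n → E) (h : Fin n → (E →L[ℝ] ℝ)),
    (∀ i j, h i (z j) = if i = j then 1 else 0) ∧ (∀ i, ‖z i‖ ≤ D) ∧ (∀ i, ‖h i‖ ≤ D) ∧
    ∀ (m : ℕ) (u t : Fin m → Fin n), Injective u → Injective t → ∀ α : Fin m → ℝ,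
      (∀ k, |α k| ≤ 1) → ∀ x : E, ‖∑ k, (α k * h (u k) x) • z (t k)‖ ≤ D * ‖x‖

/-- `E` contains uniformly complemented `ℓ_p^n`'s: for some `D` and every `n` the identity of
`ℓ_p^n` (real scalars) factors as `R ∘ J` through `E` with `‖J‖ ≤ D` and `‖R‖ ≤ D`. -/
def HasComplementedLp (p : ENNReal) [Fact (1 ≤ p)] (E : Type) [NormedAddCommGroup E]
    [NormedSpace ℝ E] : Prop :=
  ∃ D : ℝ, ∀ n : ℕ, ∃ (J : PiLp p (fun _ : Fin n => ℝ) →L[ℝ] E)
    (R : E →L[ℝ] PiLp p (fun _ : Fin n => ℝ)), ‖J‖ ≤ D ∧ ‖R‖ ≤ D ∧ ∀ a, R (J a) = a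

/-- unit vectors of `ℓ_p^n` -/
noncomputable def eLp (p : ENNReal) (n : ℕ) (i : Fin n) : PiLp p (fun _ : Fin n => ℝ) :=
  (PiLp.single p i (1 : ℝ) : PiLp p (fun _ : Fin n => ℝ))

theorem eLp_apply (p : ENNReal) (n : ℕ) (i j : Fin n) : eLp p n i j = if j = i then 1 else 0 :=
  PiLp.single_apply p ℝ i (1 : ℝ) j

theorem eLp_norm (p : ENNReal) [Fact (1 ≤ p)] (n : ℕ) (i : Fin n) : ‖eLp p n i‖ = 1 := by
  rw [eLp, PiLp.norm_single, norm_one]

theorem piLp_bound (p : ENNReal) [Fact (1 ≤ p)] (n m : ℕ) (u t : Fin m → Fin n)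
    (hu : Injective u) (ht : Injective t) (α : Fin m → ℝ) (hα : ∀ k, |α k| ≤ 1)
    (a : PiLp p (fun _ : Fin n => ℝ)) :
    ‖∑ k, (α k * a (u k)) • eLp p n (t k)‖ ≤ ‖a‖ := by
  classical
  set v : PiLp p (fun _ : Fin n => ℝ) := ∑ k, (α k * a (u k)) • eLp p n (t k) with hv
  have hvi : ∀ i, v i = ∑ k, (α k * a (u k)) * (if i = t k then 1 else 0) := by
    intro i
    rw [hv, WithLp.ofLp_sum, Finset.sum_apply]
    refine Finset.sum_congr rfl fun k _ => ?_
    rw [PiLp.smul_apply, smul_eq_mul]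
    congr 1
    exact eLp_apply p n (t k) i
  have hvt : ∀ k, v (t k) = α k * a (u k) := by
    intro k
    rw [hvi, Finset.sum_eq_single k]
    · rw [if_pos rfl, mul_one]
    · intro k' _ hk'
      rw [if_neg (fun h => hk' (ht h).symm), mul_zero]
    · intro h
      exact absurd (Finset.mem_univ _) h
  have hv0 : ∀ i, (∀ k, t k ≠ i) → v i = 0 := by
    intro i hi
    rw [hvi]
    refine Finset.sum_eq_zero fun k _ => ?_
    rw [if_neg (fun h => hi k h.symm), mul_zero]
  have hvle : ∀ k, ‖v (t k)‖ ≤ ‖a (u k)‖ := by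
    intro k
    rw [hvt, norm_mul, Real.norm_eq_abs]
    exact mul_le_of_le_one_left (norm_nonneg _) (hα k)
  rcases eq_or_ne p ⊤ with hp | hp
  · subst hp
    rw [PiLp.norm_eq_ciSup]
    refine Real.iSup_le (fun i => ?_) (norm_nonneg _)
    by_cases hi : ∃ k, t k = i
    · obtain ⟨k, rfl⟩ := hi
      exact (hvle k).trans (PiLp.norm_apply_le a (u k))
    · push Not at hi
      rw [hv0 i hi, norm_zero]
      exact norm_nonneg _
  · have hp0 : 0 < p.toReal := by
      refine ENNReal.toReal_pos ?_ hp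
      have := Fact.out (p := 1 ≤ p)
      exact (lt_of_lt_of_le one_pos this).ne'
    rw [PiLp.norm_eq_sum hp0, PiLp.norm_eq_sum hp0]
    refine Real.rpow_le_rpow (Finset.sum_nonneg fun i _ => by positivity) ?_ (by positivity)
    calc ∑ i, ‖v i‖ ^ p.toReal = ∑ i ∈ Finset.univ.map ⟨t, ht⟩, ‖v i‖ ^ p.toReal := by
          symm
          refine Finset.sum_subset (Finset.subset_univ _) fun i _ hi => ?_
          have h1 : ∀ k, t k ≠ i := by
            intro k hk
            exact hi (Finset.mem_map.2 ⟨k, Finset.mem_univ _, hk⟩)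
          rw [hv0 i h1, norm_zero, Real.zero_rpow hp0.ne']
      _ = ∑ k, ‖v (t k)‖ ^ p.toReal := by rw [Finset.sum_map]; rfl
      _ ≤ ∑ k, ‖a (u k)‖ ^ p.toReal :=
          Finset.sum_le_sum fun k _ => Real.rpow_le_rpow (norm_nonneg _) (hvle k) hp0.le
      _ = ∑ i ∈ Finset.univ.map ⟨u, hu⟩, ‖a i‖ ^ p.toReal := by rw [Finset.sum_map]; rfl
      _ ≤ ∑ i, ‖a i‖ ^ p.toReal :=
          Finset.sum_le_sum_of_subset_of_nonneg (Finset.subset_univ _) fun i _ _ => by positivity

theorem symmetric_of_lp (p : ENNReal) [Fact (1 ≤ p)] (E : Type) [NormedAddCommGroup E]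
    [NormedSpace ℝ E] (h : HasComplementedLp p E) : HasSymmetricSystems E := by
  obtain ⟨D, hD⟩ := h
  have hD0 : 0 ≤ D := by
    obtain ⟨J, _, hJ, _⟩ := hD 0
    exact (norm_nonneg _).trans hJ
  refine ⟨D + D * D, fun n => ?_⟩
  obtain ⟨J, R, hJ, hR, hRJ⟩ := hD n
  have hDD : 0 ≤ D * D := mul_nonneg hD0 hD0
  let pr : Fin n → (PiLp p (fun _ : Fin n => ℝ) →L[ℝ] ℝ) := fun i => PiLp.proj p (fun _ : Fin n => ℝ) i
  have hpr : ∀ i a, pr i a = a i := fun i a => rfl
  refine ⟨fun i => J (eLp p n i), fun i => pr i ∘L R, ?_, ?_, ?_, ?_⟩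
  · intro i j
    change pr i (R (J (eLp p n j))) = _
    rw [hRJ, hpr, eLp_apply]
  · intro i
    refine (J.le_opNorm _).trans ?_
    rw [eLp_norm, mul_one]
    linarith
  · intro i
    refine ContinuousLinearMap.opNorm_le_bound _ (by linarith) fun x => ?_
    change ‖pr i (R x)‖ ≤ _
    rw [hpr]
    refine (PiLp.norm_apply_le (R x) i).trans ((R.le_opNorm x).trans ?_)
    exact mul_le_mul_of_nonneg_right (by linarith) (norm_nonneg _)
  · intro m u t hu ht α hα x
    have h1 : ∑ k, (α k * (pr (u k) ∘L R) x) • J (eLp p n (t k)) =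
        J (∑ k, (α k * (R x) (u k)) • eLp p n (t k)) := by
      rw [map_sum]
      refine Finset.sum_congr rfl fun k _ => ?_
      rw [map_smul]
      rfl
    rw [h1]
    have h2 := piLp_bound p n m u t hu ht α hα (R x)
    calc _ ≤ ‖J‖ * ‖∑ k, (α k * (R x) (u k)) • eLp p n (t k)‖ := J.le_opNorm _
      _ ≤ D * (D * ‖x‖) := by
          refine mul_le_mul hJ (h2.trans ((R.le_opNorm x).trans ?_)) (norm_nonneg _) hD0
          exact mul_le_mul_of_nonneg_right hR (norm_nonneg _)
      _ ≤ (D + D * D) * ‖x‖ := by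
          have := mul_nonneg hD0 (norm_nonneg x)
          linarith

theorem not_finiteDimensional_of_symmetric (E : Type) [NormedAddCommGroup E] [NormedSpace ℝ E]
    (h : HasSymmetricSystems E) : ¬ FiniteDimensional ℝ E := by
  intro hfd
  obtain ⟨D, hD⟩ := h
  obtain ⟨z, f, hb, _⟩ := hD (Module.finrank ℝ E + 1)
  have hli : LinearIndependent ℝ z := by
    rw [Fintype.linearIndependent_iff]
    intro g hg i
    have h1 := congrArg (f i) hg
    rw [map_sum, map_zero] at h1
    simp only [map_smul, hb, smul_eq_mul, mul_ite, mul_one, mul_zero, Finset.sum_ite_eq,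
      Finset.mem_univ, if_true] at h1
    exact h1
  have h2 := hli.fintype_card_le_finrank
  rw [Fintype.card_fin] at h2
  omega

/-- Real Banach spaces with long complemented symmetric systems: strongly series summable M-bases
exist exactly when the space has the commuting bounded approximation property. -/
theorem real_iff (E : Type) [NormedAddCommGroup E] [NormedSpace ℝ E] [CompleteSpace E]
    (h : HasSymmetricSystems E) : HasSSMBasis ℝ E ↔ ∃ T, IsCommutingApprox ℝ E T := by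
  have hE := not_finiteDimensional_of_symmetric E h
  constructor
  · rintro ⟨x, f, hfx, _, _, lam, _, hlim⟩
    obtain ⟨T, h1, h2, h3, _⟩ := backward x f hfx lam hlim
    refine ⟨T, ?_, h1, h2, h3⟩
    apply banach_steinhaus
    intro y
    obtain ⟨C, hC⟩ := (Metric.isBounded_range_of_tendsto _ (h3 y)).exists_norm_le
    exact ⟨C, fun i => hC _ ⟨i, rfl⟩⟩
  · rintro ⟨T, _, h1, h2, h3⟩
    obtain ⟨D, hD⟩ := h
    have hD0 : 0 ≤ D := by
      obtain ⟨z, _, _, hz, _⟩ := hD 1
      exact (norm_nonneg _).trans (hz 0)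
    have hS : ∀ n : ℕ, ∃ (z : Fin n → E) (h : Fin n → E →L[ℝ] ℝ), Biorth z h ∧ SymB D z h := by
      intro n
      obtain ⟨z, f, hb, hz, hf, hs⟩ := hD n
      refine ⟨z, f, ⟨fun i => ?_, fun i j hij => ?_⟩, hz, hf, hs⟩
      · rw [hb, if_pos rfl]
      · rw [hb, if_neg hij]
    obtain ⟨T', t1, t2, t3, t4⟩ := real_sequence hD0 hS T h1 h2 h3
    exact forward hE T' t1 t2 t3 t4

end Pool.Agent.Lib.MP_846550_an
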